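import Pool.Agent.Helper65.KF.Defs

/-!
Project KF, module Ct: the choice of j (as in Helper65/KT/Ct.lean; t = t' + c s with c ≥ 12, j = inverse of s mod t).
-/

namespace Pool.Agent.Helper65.KF

theorem exists_j {t s c : ℕ} (hs : 1 ≤ s) (hst : s < t) (hc : Nat.Coprime s t) (h12 : 12 ≤ c) :
    ∃ j : ℕ, 1 ≤ j ∧ j < t + c * s ∧ Nat.Coprime j (t + c * s) ∧
      ((t + c * s : ℕ) : ℤ) ∣ (s : ℤ) * j - 1 := by
  obtain ⟨T, hT⟩ : ∃ T, T = t + c * s := ⟨_, rfl⟩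
  rw [← hT]
  have hT1 : 1 < T := by
    rw [hT]
    have : 0 ≤ c * s := Nat.zero_le _
    omega
  have hcT : Nat.Coprime s T := by
    rw [hT]
    exact (Nat.coprime_add_mul_right_right s t c).2 hc
  obtain ⟨i, hiT, hi⟩ := Nat.exists_mul_mod_eq_one_of_coprime hcT hT1
  have hi0 : 0 < i := by
    rcases Nat.eq_zero_or_pos i with h | h
    · rw [h] at hi
      simp at hi
    · exact h
  have hd : (T : ℤ) ∣ (s : ℤ) * i - 1 := by
    have h1 : (s * i) % T = 1 % T := by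
      rw [hi, Nat.mod_eq_of_lt hT1]
    have h2 : (1 : ℕ) ≡ s * i [MOD T] := h1.symm
    have h3 := (Nat.modEq_iff_dvd).1 h2
    push_cast at h3
    exact h3
  refine ⟨i, hi0, hiT, ?_, hd⟩
  rw [← Nat.isCoprime_iff_coprime]
  obtain ⟨a, ha⟩ := hd
  exact ⟨s, -a, by linarith⟩

theorem choice_inj {t₁ s₁ t₂ s₂ j c : ℕ} (h₁ : 1 ≤ s₁) (h₂ : 1 ≤ s₂) (h12 : 12 ≤ c)
    (ht : t₁ + c * s₁ = t₂ + c * s₂)
    (ha : ((t₁ + c * s₁ : ℕ) : ℤ) ∣ (s₁ : ℤ) * j - 1)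
    (hb : ((t₂ + c * s₂ : ℕ) : ℤ) ∣ (s₂ : ℤ) * j - 1) :
    t₁ = t₂ ∧ s₁ = s₂ := by
  rw [← ht] at hb
  obtain ⟨T, hT⟩ : ∃ T, T = t₁ + c * s₁ := ⟨_, rfl⟩
  rw [← hT] at ha hb ht
  have hcop : IsCoprime (T : ℤ) (j : ℤ) := by
    obtain ⟨a, ha⟩ := ha
    exact ⟨-a, s₁, by linear_combination ha⟩
  have hb1 : 12 * (s₁ : ℤ) ≤ T := by
    have : 12 * s₁ ≤ T := by nlinarith
    exact_mod_cast this
  have hb2 : 12 * (s₂ : ℤ) ≤ T := by
    have : 12 * s₂ ≤ T := by nlinarith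
    exact_mod_cast this
  have hp1 : (1 : ℤ) ≤ s₁ := by exact_mod_cast h₁
  have hp2 : (1 : ℤ) ≤ s₂ := by exact_mod_cast h₂
  have hdiff : (T : ℤ) ∣ (s₁ : ℤ) - s₂ → s₁ = s₂ := by
    intro h
    by_contra hne
    have h3 : (s₁ : ℤ) - s₂ ≠ 0 := by
      intro h4
      apply hne
      omega
    rcases lt_or_gt_of_ne h3 with h4 | h4
    · have h5 : (T : ℤ) ∣ (s₂ : ℤ) - s₁ := by
        have := (dvd_neg (a := (T : ℤ)) (b := (s₁ : ℤ) - s₂)).2 h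
        rwa [neg_sub] at this
      have := Int.le_of_dvd (by omega) h5
      omega
    · have := Int.le_of_dvd (by omega) h
      omega
  have hss : s₁ = s₂ := by
    apply hdiff
    apply hcop.dvd_of_dvd_mul_right
    have h := dvd_sub ha hb
    have e : (s₁ : ℤ) * j - 1 - ((s₂ : ℤ) * j - 1) = ((s₁ : ℤ) - s₂) * j := by ring
    rwa [e] at h
  refine ⟨?_, hss⟩
  subst hss
  omega

end Pool.Agent.Helper65.KF
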