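import Pool.Agent.Helper65.KF.Cg

/-!
Project KF, module JE: the class determines j (adapt Helper65/KT/JE.lean; t ≥ 12, 3 does not divide t).
Units of R: nm μ = ± 1 implies μ = ± e^i or ± star e^i (descent, e.g. multiply by e^(-1) until small; Fibonacci).
Y t ∣ Y i implies t ∣ i (t ≥ 3; mod_Y, WY_coprime, Y_lt: division with remainder; or Nat.fib_dvd / fib_gcd).
First condition: X_t ∈ LB t j gives Y_t ∣ im (μ X_t), Y_t is prime to X_t (Y_t odd, pell), so Y_t ∣ μ.im and
μ = ± e^(t q) or ± star e^(t q).  Second: Y_t e^j ∈ LB t j gives X_t ∣ im (μ e^j star e^j'), that is X_t ∣ Y_n with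
n = |t q ± δ|, δ = |j - j'| < t (or X_t ∣ X-free form).  X_t ∣ Y_n implies 2 t ∣ n (t ≥ 2: reduce n mod 2 t by
mod_X_even; for t ≤ n < 2 t, n = t + r, e^t ≡ - star e^t gives Y_n ≡ ± Y_(t - r) mod X_t, and 0 < Y_(t-r) < X_t).  So t ∣ δ.
-/

namespace Pool.Agent.Helper65.KF

open Pool.Agent.Helper20 Pool.Agent.Helper20.MC

private theorem JE_comb {t j : ℕ} {x y : R} (hx : LB t j x) (hy : LB t j y)
    (m n : ℤ) : LB t j ((m : R) * x + (n : R) * y) := by
  obtain ⟨h1, h2⟩ := hx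
  obtain ⟨h3, h4⟩ := hy
  rw [B_eq] at h2 h4
  have eim : ((m : R) * x + (n : R) * y).im = m * x.im + n * y.im := by
    rw [QuadraticAlgebra.im_add, im_mul, im_mul, re_int, im_int, re_int, im_int]
    ring
  have ere : ((m : R) * x + (n : R) * y).re = m * x.re + n * y.re := by
    rw [QuadraticAlgebra.re_add, re_mul, re_mul, re_int, im_int, re_int, im_int]
    ring
  refine ⟨?_, ?_⟩
  · rw [eim]
    exact dvd_add (dvd_mul_of_dvd_right h1 _) (dvd_mul_of_dvd_right h3 _)
  · rw [B_eq, eim, ere]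
    have e1 : W j * (m * x.im + n * y.im) - Y j * (m * x.re + n * y.re) =
        m * (W j * x.im - Y j * x.re) + n * (W j * y.im - Y j * y.re) := by
      ring
    rw [e1]
    exact dvd_add (dvd_mul_of_dvd_right h2 _) (dvd_mul_of_dvd_right h4 _)

private theorem JE_norm {μ ν : R} (hu : μ * ν = 1) : nm μ = 1 ∨ nm μ = -1 := by
  have h1 : nm μ * nm ν = 1 := by
    rw [← nm_mul, hu]
    unfold nm
    rw [QuadraticAlgebra.re_one, QuadraticAlgebra.im_one]
    norm_num
  exact Int.isUnit_iff.1 (IsUnit.of_mul_eq_one _ h1)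

/-- The natural solutions of a² + a b - b² = ± 1. -/
private theorem JE_nat : ∀ (k a b : ℕ), a + b = k →
    ((a : ℤ) * a + a * b - b * b = 1 ∨ (a : ℤ) * a + a * b - b * b = -1) →
    ∃ i : ℕ, (a : ℤ) = W i ∧ (b : ℤ) = Y i := by
  intro k
  induction k using Nat.strong_induction_on with
  | _ k ih =>
    intro a b hk h
    have hb0 : (0 : ℤ) ≤ b := Int.natCast_nonneg b
    rcases Nat.eq_zero_or_pos a with ha | ha
    · subst ha
      refine ⟨1, by rw [W_one]; rfl, ?_⟩
      rw [Y_one]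
      have h1 : (b : ℤ) * b = 1 := by
        push_cast at h
        rcases h with h | h
        · nlinarith
        · linarith
      nlinarith
    · have ha1 : (1 : ℤ) ≤ a := by exact_mod_cast ha
      rcases Nat.lt_or_ge b a with hb | hb
      · have h1 : (b : ℤ) + 1 ≤ a := by exact_mod_cast hb
        have h3 : (b : ℤ) ≤ b * (a - b) := by nlinarith
        have h4 : (a : ℤ) * a + b ≤ 1 := by
          rcases h with h | h <;> nlinarith
        have h5 : (a : ℤ) = 1 := by nlinarith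
        have h6 : (b : ℤ) = 0 := by
          rw [h5] at h4
          linarith
        exact ⟨0, by rw [W_zero, h5], by rw [Y_zero, h6]⟩
      · obtain ⟨i, h1, h2⟩ := ih b (by omega) (b - a) a (by omega) (by
          rw [Nat.cast_sub hb]
          rcases h with h | h
          · right; linear_combination -h
          · left; linear_combination -h)
        rw [Nat.cast_sub hb] at h1
        exact ⟨i + 1, by rw [W_succ, h2], by rw [Y_succ, ← h1, ← h2]; ring⟩

private theorem JE_pos {μ : R} (h : nm μ = 1 ∨ nm μ = -1) (h1 : 0 ≤ μ.re) (h2 : 0 ≤ μ.im) :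
    ∃ i : ℕ, μ = e ^ i := by
  obtain ⟨a, ha⟩ := Int.eq_ofNat_of_zero_le h1
  obtain ⟨b, hb⟩ := Int.eq_ofNat_of_zero_le h2
  unfold nm at h
  rw [ha, hb] at h
  obtain ⟨i, hi1, hi2⟩ := JE_nat (a + b) a b rfl h
  refine ⟨i, R_ext ?_ ?_⟩
  · rw [ha, hi1]; rfl
  · rw [hb, hi2]; rfl

private theorem JE_unit {μ : R} (h : nm μ = 1 ∨ nm μ = -1) :
    ∃ i : ℕ, μ = e ^ i ∨ μ = - e ^ i ∨ μ = star e ^ i ∨ μ = - star e ^ i := by
  have hneg : nm (-μ) = nm μ := by
    unfold nm
    rw [QuadraticAlgebra.re_neg, QuadraticAlgebra.im_neg]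
    ring
  rcases le_or_gt 0 μ.re with h1 | h1 <;> rcases le_or_gt 0 μ.im with h2 | h2
  · obtain ⟨i, hi⟩ := JE_pos h h1 h2
    exact ⟨i, Or.inl hi⟩
  · rcases eq_or_lt_of_le h1 with h0 | h0
    · obtain ⟨i, hi⟩ := JE_pos (μ := -μ) (by rw [hneg]; exact h)
        (by rw [QuadraticAlgebra.re_neg]; linarith)
        (by rw [QuadraticAlgebra.im_neg]; linarith)
      refine ⟨i, Or.inr (Or.inl ?_)⟩
      rw [← hi, neg_neg]
    · have h3 : 0 ≤ μ.re + μ.im := by
        by_contra hc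
        push Not at hc
        have h5 : μ.re * (μ.re + μ.im) ≤ -μ.re := by nlinarith
        have h6 : 1 ≤ μ.im * μ.im := by nlinarith
        unfold nm at h
        rcases h with h | h <;> linarith
      obtain ⟨i, hi⟩ := JE_pos (μ := star μ) (by rw [nm_star]; exact h)
        (by rw [re_star]; exact h3) (by rw [im_star]; linarith)
      refine ⟨i, Or.inr (Or.inr (Or.inl ?_))⟩
      rw [← star_pow, ← hi, star_star]
  · have h3 : 0 ≤ -μ.re - μ.im := by
      by_contra hc
      push Not at hc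
      unfold nm at h
      rcases h with h | h <;> nlinarith
    obtain ⟨i, hi⟩ := JE_pos (μ := star (-μ)) (by rw [nm_star, hneg]; exact h)
      (by rw [re_star, QuadraticAlgebra.re_neg, QuadraticAlgebra.im_neg]; linarith)
      (by rw [im_star, QuadraticAlgebra.im_neg]; linarith)
    refine ⟨i, Or.inr (Or.inr (Or.inr ?_))⟩
    rw [← star_pow, ← hi, star_star, neg_neg]
  · obtain ⟨i, hi⟩ := JE_pos (μ := -μ) (by rw [hneg]; exact h)
      (by rw [QuadraticAlgebra.re_neg]; linarith)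
      (by rw [QuadraticAlgebra.im_neg]; linarith)
    refine ⟨i, Or.inr (Or.inl ?_)⟩
    rw [← hi, neg_neg]

private theorem JE_fib (n : ℕ) : Y n = (Nat.fib n : ℤ) := by
  have h : ∀ n : ℕ, Y n = (Nat.fib n : ℤ) ∧ Y (n + 1) = (Nat.fib (n + 1) : ℤ) := by
    intro n
    induction n with
    | zero => exact ⟨by rw [Y_zero]; rfl, by rw [Y_one]; rfl⟩
    | succ n ih =>
      obtain ⟨h1, h2⟩ := ih
      refine ⟨h2, ?_⟩
      rw [Nat.fib_add_two, Y_succ, W_succ, h1, h2]
      push_cast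
      ring
  exact (h n).1

private theorem JE_lt {g t : ℕ} (hg : 1 ≤ g) (h : g < t) (ht : 12 ≤ t) : Y g < Y t := by
  rcases Nat.lt_or_ge g 2 with h1 | h1
  · obtain rfl : g = 1 := by omega
    have h2 : Y 2 < Y t := Y_lt (le_refl 2) (by omega)
    have h3 : Y 1 ≤ Y 2 := Y_le_succ 1
    linarith
  · exact Y_lt h1 h

private theorem JE_dvd {t i : ℕ} (ht : 12 ≤ t) (h : Y t ∣ Y i) : t ∣ i := by
  rw [JE_fib, JE_fib] at h
  have h1 : Nat.fib t ∣ Nat.fib i := Int.natCast_dvd_natCast.1 h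
  have h2 : Nat.fib (Nat.gcd t i) = Nat.fib t := by
    rw [Nat.fib_gcd]
    exact Nat.gcd_eq_left h1
  have h3 : Nat.gcd t i ∣ t := Nat.gcd_dvd_left t i
  have h7 : Nat.gcd t i ∣ i := Nat.gcd_dvd_right t i
  have h4 : Nat.gcd t i ≤ t := Nat.le_of_dvd (by omega) h3
  have h5 : 1 ≤ Nat.gcd t i := Nat.gcd_pos_of_pos_left _ (by omega)
  rcases Nat.eq_or_lt_of_le h4 with h6 | h6
  · rwa [h6] at h7
  · exfalso
    have h8 := JE_lt h5 h6 ht
    rw [JE_fib, JE_fib, h2] at h8
    exact lt_irrefl _ h8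

private theorem JE_X {t n : ℕ} (ht : 12 ≤ t) (h : X t ∣ Y n) : t ∣ n := by
  have h1 : X t ∣ Y (2 * t) := by
    rw [Y_two_mul]
    exact Dvd.intro _ rfl
  obtain ⟨g, hg⟩ : ∃ g : ℕ, g = Nat.gcd (2 * t) n := ⟨_, rfl⟩
  have h2 : X t ∣ Y g := by
    rw [hg]
    rw [JE_fib] at h h1 ⊢
    rw [Nat.fib_gcd]
    have h3 := Int.dvd_coe_gcd h1 h
    rwa [Int.gcd_natCast_natCast] at h3
  have h3 : g ∣ 2 * t := by
    rw [hg]
    exact Nat.gcd_dvd_left _ _
  have h5 : 1 ≤ g := by
    rw [hg]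
    exact Nat.gcd_pos_of_pos_left _ (by omega)
  have h10 : g ∣ n := by
    rw [hg]
    exact Nat.gcd_dvd_right _ _
  have h6 : g = 2 * t := by
    by_contra hne
    obtain ⟨k, hk⟩ := h3
    have hk2 : 2 ≤ k := by
      rcases k with _ | _ | k
      · omega
      · exact absurd (by omega) hne
      · omega
    have hgt : g ≤ t := by nlinarith
    have h7 := Int.le_of_dvd (Y_pos h5) h2
    have h8 : Y g ≤ Y t := Y_mono hgt
    have h9 := W_pos (show 2 ≤ t by omega)
    unfold X at h7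
    linarith
  rw [h6] at h10
  exact dvd_trans (Dvd.intro_left 2 rfl) h10

private theorem JE_im (a b : ℕ) : ∃ n : ℕ, ((n : ℤ) = a - b ∨ (n : ℤ) = b - a) ∧
    ((e ^ a * star e ^ b).im = Y n ∨ (e ^ a * star e ^ b).im = - Y n) := by
  rcases Nat.le_total b a with h | h
  · obtain ⟨n, rfl⟩ := Nat.exists_eq_add_of_le h
    refine ⟨n, Or.inl (by push_cast; ring), ?_⟩
    have e1 : e ^ (b + n) * star e ^ b = (-1) ^ b * e ^ n := by
      rw [← e_mul_star b]
      ring
    rw [e1]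
    rcases neg_one_pow_eq_or R b with h1 | h1
    · left
      rw [h1, one_mul]
      rfl
    · right
      rw [h1, neg_one_mul, QuadraticAlgebra.im_neg]
      rfl
  · obtain ⟨n, rfl⟩ := Nat.exists_eq_add_of_le h
    refine ⟨n, Or.inr (by push_cast; ring), ?_⟩
    have e1 : e ^ a * star e ^ (a + n) = (-1) ^ a * star e ^ n := by
      rw [← e_mul_star a]
      ring
    rw [e1, star_e_pow]
    rcases neg_one_pow_eq_or R a with h1 | h1
    · right
      rw [h1, one_mul]
    · left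
      rw [h1, neg_one_mul, QuadraticAlgebra.im_neg]
      exact neg_neg _

private theorem JE_coprime {t : ℕ} (h3 : ¬ 3 ∣ t) : IsCoprime (X t) (Y t) := by
  obtain ⟨a, ha⟩ := Y_odd h3
  have h1 := pell t
  have h2 := sgn_sq t
  obtain ⟨s, hs⟩ : ∃ s : ℤ, s = (-1) ^ t := ⟨_, rfl⟩
  rw [← hs] at h1 h2
  refine ⟨-((a ^ 2 + a) * s * X t), Y t + 5 * (a ^ 2 + a) * s * Y t, ?_⟩
  have h4 : Y t ^ 2 = 4 * (a ^ 2 + a) + 1 := by
    rw [ha]
    ring
  linear_combination (-((a ^ 2 + a) * s)) * h1 + h4 - 4 * (a ^ 2 + a) * h2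

theorem j_eq {t j j' : ℕ} (ht : 12 ≤ t) (h3 : ¬ 3 ∣ t) (hj : j < t) (hj' : j' < t)
    {p p' : ℤ × ℤ} {σ σ' : ℤ}
    {y1 y2 z1 z2 : R} (h : Rel t j p σ y1 y2) (h' : Rel t j' p' σ' z1 z2)
    {μ ν : R} (hu : μ * ν = 1) (h1 : z1 = μ * y1) (h2 : z2 = μ * y2) : j = j' := by
  obtain ⟨-, -, -, -, -, -, hspan⟩ := h
  obtain ⟨-, -, -, -, hz1, hz2, -⟩ := h'
  have key : ∀ x : R, LB t j x → LB t j' (μ * x) := by
    intro x hx
    obtain ⟨m, n, rfl⟩ := hspan x hx
    have e1 : μ * ((m : R) * y1 + (n : R) * y2) = (m : R) * z1 + (n : R) * z2 := by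
      rw [h1, h2]
      ring
    rw [e1]
    exact JE_comb hz1 hz2 m n
  have hXY := JE_coprime h3
  -- first condition
  have c1 : Y t ∣ μ.im := by
    have h4 := (key ⟨X t, 0⟩ ⟨dvd_zero _, by
      rw [B_eq]
      exact ⟨-Y j, by ring⟩⟩).1
    have e1 : (μ * (⟨X t, 0⟩ : R)).im = X t * μ.im := by
      rw [im_mul]
      ring
    rw [e1] at h4
    exact hXY.symm.dvd_of_dvd_mul_left h4
  -- second condition
  have c2 : X t ∣ (μ * (e ^ j * star e ^ j')).im := by
    have e0 : ∀ x : R, (((Y t : ℤ) : R) * x).im = Y t * x.im := by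
      intro x
      rw [im_mul, re_int, im_int]
      ring
    have h4 := (key (((Y t : ℤ) : R) * e ^ j) ⟨by rw [e0]; exact Dvd.intro _ rfl, by
      unfold B
      rw [mul_assoc, e_mul_star, e0]
      have h5 : (((-1 : R)) ^ j).im = 0 := by
        rcases neg_one_pow_eq_or R j with h6 | h6
        · rw [h6, QuadraticAlgebra.im_one]
        · rw [h6, QuadraticAlgebra.im_neg, QuadraticAlgebra.im_one, neg_zero]
      rw [h5, mul_zero]
      exact dvd_zero _⟩).2
    unfold B at h4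
    have e1 : μ * (((Y t : ℤ) : R) * e ^ j) * star e ^ j' =
        ((Y t : ℤ) : R) * (μ * (e ^ j * star e ^ j')) := by ring
    rw [e1, e0] at h4
    exact hXY.dvd_of_dvd_mul_left h4
  -- the last step
  have hfin : (t : ℤ) ∣ (j : ℤ) - j' → j = j' := by
    intro hd
    have h4 : (j : ℤ) - j' = 0 := by
      apply Int.eq_zero_of_abs_lt_dvd hd
      rw [abs_lt]
      constructor <;> omega
    omega
  have hstep : ∀ a b : ℕ, X t ∣ (e ^ a * star e ^ b).im → (t : ℤ) ∣ (a : ℤ) - b := by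
    intro a b hd
    obtain ⟨n, hn, hY⟩ := JE_im a b
    have h4 : X t ∣ Y n := by
      rcases hY with h5 | h5
      · rwa [h5] at hd
      · rw [h5] at hd
        exact dvd_neg.1 hd
    have h5 : (t : ℤ) ∣ n := Int.natCast_dvd_natCast.2 (JE_X ht h4)
    rcases hn with h6 | h6
    · rwa [h6] at h5
    · rw [h6] at h5
      have e1 : (a : ℤ) - b = -(b - a) := by ring
      rw [e1]
      exact dvd_neg.2 h5
  obtain ⟨i, hi⟩ := JE_unit (JE_norm hu)
  have hti : t ∣ i := by
    apply JE_dvd ht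
    have e1 : (star e ^ i).im = -Y i := by rw [star_e_pow]
    have e2 : (e ^ i).im = Y i := rfl
    rcases hi with h4 | h4 | h4 | h4
    · rw [h4, e2] at c1
      exact c1
    · rw [h4, QuadraticAlgebra.im_neg, e2] at c1
      exact dvd_neg.1 c1
    · rw [h4, e1] at c1
      exact dvd_neg.1 c1
    · rw [h4, QuadraticAlgebra.im_neg, e1, neg_neg] at c1
      exact c1
  have hti' : (t : ℤ) ∣ i := Int.natCast_dvd_natCast.2 hti
  have cA : X t ∣ (e ^ (i + j) * star e ^ j').im → j = j' := by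
    intro hd
    apply hfin
    have h4 := hstep _ _ hd
    have e1 : (j : ℤ) - j' = (((i + j : ℕ) : ℤ) - j') - i := by
      push_cast
      ring
    rw [e1]
    exact dvd_sub h4 hti'
  have cB : X t ∣ (e ^ j * star e ^ (i + j')).im → j = j' := by
    intro hd
    apply hfin
    have h4 := hstep _ _ hd
    have e1 : (j : ℤ) - j' = ((j : ℤ) - ((i + j' : ℕ) : ℤ)) + i := by
      push_cast
      ring
    rw [e1]
    exact dvd_add h4 hti'
  rcases hi with h4 | h4 | h4 | h4
  · apply cA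
    rw [h4] at c2
    have e1 : e ^ (i + j) * star e ^ j' = e ^ i * (e ^ j * star e ^ j') := by ring
    rw [e1]
    exact c2
  · apply cA
    rw [h4, neg_mul, QuadraticAlgebra.im_neg] at c2
    have e1 : e ^ (i + j) * star e ^ j' = e ^ i * (e ^ j * star e ^ j') := by ring
    rw [e1]
    exact dvd_neg.1 c2
  · apply cB
    rw [h4] at c2
    have e1 : e ^ j * star e ^ (i + j') = star e ^ i * (e ^ j * star e ^ j') := by ring
    rw [e1]
    exact c2
  · apply cB
    rw [h4, neg_mul, QuadraticAlgebra.im_neg] at c2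
    have e1 : e ^ j * star e ^ (i + j') = star e ^ i * (e ^ j * star e ^ j') := by ring
    rw [e1]
    exact dvd_neg.1 c2

end Pool.Agent.Helper65.KF
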