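import Pool.Agent.Helper65.KF.Cg
import Pool.Agent.Helper20.MC.CF1

/-!
Project KF, module St: the starting point (different from KT).  1 ≤ j < t coprime, 3 does not divide t.
y1 = Y_t e^j, y2 = e^j (κ + X_t φ) = κ e^j + X_t e^(j+1), σ = (-1)^j, c = y2 * star y1 = (-1)^j Y_t (κ + X_t φ)
(e_mul_star), nm y1 = (-1)^j Y_t² (WY), so with m = mm t: p = (4 m Y_t (2 κ + X_t), 8 m Y_t²), Y (2t) = X_t Y_t.
κ: y2 ∈ LB needs Y_t ∣ im y2 = κ Y_j + X_t Y_(j+1) (Y_j is prime to Y_t: Y_coprime_Y; this fixes κ mod Y_t) and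
B_j y2 = im (y2 * star e^j) = ± X_t; take κ in the residue class with β - Y_t < κ < β, β = X_t (√5 - 1)/2
(irrational, so κ ≠ β; e.g. κ = κ₀ + Y_t ⌊(β - κ₀)/Y_t⌋).
p ∈ Red 9 (g t) (bb_eq: bb = 4 m X_t Y_t √5): P < bb iff κ < β; bb - P < Q iff κ > β - Y_t; Q < bb + P iff
2 Y_t < √5 X_t + X_t + 2 κ: clear from κ > β - Y_t, since 2 β = (√5 - 1) X_t and X_t ≥ Y_t (then √5 X_t + X_t + 2 κ >
2 √5 X_t - 2 Y_t ≥ 2 Y_t); Q ∣ 80 g² - P² = 64 m² Y_t² (X_t² - κ X_t - κ²).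
Spanning: x ∈ LB t j: x = (-1)^j e^j w, w = x * star e^j, w.im = B_j x = X_t v, so x = ± (v y2 + a e^j) with an
integer a, and Y_t ∣ im (a e^j) = a Y_j, Y_t ∣ a.  y1 ∈ LB: im y1 = Y_t Y_j, B_j y1 = im (± Y_t) = 0.
-/

namespace Pool.Agent.Helper65.KF

open Pool.Agent.Helper20 Pool.Agent.Helper20.MC

/-- the integer κ -/
private theorem St_kappa {t j : ℕ} (ht : 1 ≤ t) (hc : Nat.Coprime j t) :
    ∃ κ : ℤ, (Y t ∣ κ * Y j + X t * (W j + Y j)) ∧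
      2 * (κ : ℝ) + X t < sr * X t ∧ sr * X t < 2 * (κ : ℝ) + X t + 2 * Y t := by
  obtain ⟨u, v, huv⟩ := Y_coprime_Y hc
  have hYt := Y_pos ht
  have hXt := X_pos t
  have hYr : (0 : ℝ) < (Y t : ℝ) := by exact_mod_cast hYt
  have hXr : (0 : ℝ) < (X t : ℝ) := by exact_mod_cast hXt
  obtain ⟨κ₀, hκ₀⟩ : ∃ κ₀ : ℤ, κ₀ = -(u * (X t * (W j + Y j))) := ⟨_, rfl⟩
  obtain ⟨β, hβ⟩ : ∃ β : ℝ, β = (sr * X t - X t) / 2 := ⟨_, rfl⟩
  obtain ⟨q, hq⟩ : ∃ q : ℤ, q = ⌊(β - κ₀) / (Y t : ℝ)⌋ := ⟨_, rfl⟩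
  have h1 : (q : ℝ) ≤ (β - κ₀) / (Y t : ℝ) := hq ▸ Int.floor_le _
  have h2 : (β - κ₀) / (Y t : ℝ) < (q : ℝ) + 1 := hq ▸ Int.lt_floor_add_one _
  rw [le_div_iff₀ hYr] at h1
  rw [div_lt_iff₀ hYr] at h2
  refine ⟨κ₀ + Y t * q, ⟨X t * (W j + Y j) * v + q * Y j, ?_⟩, ?_, ?_⟩
  · rw [hκ₀]
    linear_combination (-(X t * (W j + Y j))) * huv
  · have h3 : 2 * (((κ₀ + Y t * q : ℤ) : ℝ)) + X t ≤ sr * X t := by
      push_cast
      rw [hβ] at h1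
      linarith
    refine lt_of_le_of_ne h3 fun h4 => ?_
    have h5 : sr = (((2 * (κ₀ + Y t * q) + X t : ℤ) : ℚ) / ((X t : ℤ) : ℚ) : ℚ) := by
      push_cast at h4 ⊢
      rw [eq_div_iff hXr.ne']
      linarith
    exact sr_irr ⟨_, h5.symm⟩
  · push_cast
    rw [hβ] at h2
    linarith

/-- the lattice of type B -/
private theorem St_span {t j : ℕ} (hc : Nat.Coprime j t) {κ : ℤ}
    (hκ : Y t ∣ κ * Y j + X t * (W j + Y j)) (x : R) (hx : LB t j x) :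
    ∃ m n : ℤ, x = (m : R) * ⟨Y t * W j, Y t * Y j⟩ +
      (n : R) * ⟨κ * W j + X t * Y j, κ * Y j + X t * (W j + Y j)⟩ := by
  obtain ⟨⟨u, hu⟩, ⟨v, hv⟩⟩ := hx
  rw [B_eq] at hv
  obtain ⟨w, hw⟩ := hκ
  obtain ⟨s, hs⟩ : ∃ s : ℤ, s = (-1) ^ j := ⟨_, rfl⟩
  have hWY := WY j
  have hs2 := sgn_sq j
  rw [← hs] at hWY hs2
  -- the remainder
  obtain ⟨a, ha⟩ : ∃ a : ℤ, a = s * ((x.re - s * v * (κ * W j + X t * Y j)) * (W j + Y j) -
    (x.im - s * v * (κ * Y j + X t * (W j + Y j))) * Y j) := ⟨_, rfl⟩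
  have hB : W j * (x.im - s * v * (κ * Y j + X t * (W j + Y j))) =
      Y j * (x.re - s * v * (κ * W j + X t * Y j)) := by
    linear_combination hv - (s * v * X t) * hWY - (v * X t) * hs2
  have haW : a * W j = x.re - s * v * (κ * W j + X t * Y j) := by
    rw [ha]
    linear_combination (-(s * Y j)) * hB +
      (s * (x.re - s * v * (κ * W j + X t * Y j))) * hWY +
      (x.re - s * v * (κ * W j + X t * Y j)) * hs2
  have haY : a * Y j = x.im - s * v * (κ * Y j + X t * (W j + Y j)) := by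
    rw [ha]
    linear_combination (-(s * (W j + Y j))) * hB +
      (s * (x.im - s * v * (κ * Y j + X t * (W j + Y j)))) * hWY +
      (x.im - s * v * (κ * Y j + X t * (W j + Y j))) * hs2
  have hdvd : Y t ∣ Y j * a := ⟨u - s * v * w, by
    linear_combination haY + hu - (s * v) * hw⟩
  obtain ⟨m, hm⟩ := (Y_coprime_Y hc).symm.dvd_of_dvd_mul_left hdvd
  refine ⟨m, s * v, ?_⟩
  apply R_ext
  · rw [QuadraticAlgebra.re_add, re_mul, re_mul, re_int, im_int, re_int, im_int]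
    show x.re = m * (Y t * W j) + 0 * (Y t * Y j) + (s * v * (κ * W j + X t * Y j) +
      0 * (κ * Y j + X t * (W j + Y j)))
    linear_combination (W j) * hm - haW
  · rw [QuadraticAlgebra.im_add, im_mul, im_mul, re_int, im_int, re_int, im_int]
    show x.im = m * (Y t * Y j) + 0 * (Y t * W j) + 0 * (Y t * Y j) +
      (s * v * (κ * Y j + X t * (W j + Y j)) + 0 * (κ * W j + X t * Y j) +
      0 * (κ * Y j + X t * (W j + Y j)))
    linear_combination (Y j) * hm - haY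

theorem start {t j : ℕ} (hj : 1 ≤ j) (hjt : j < t) (hc : Nat.Coprime j t) (h3 : ¬ 3 ∣ t) :
    ∃ (p : ℤ × ℤ) (σ : ℤ) (y1 y2 : R), p ∈ Red 9 (g t) ∧ Rel t j p σ y1 y2 := by
  have ht : 1 ≤ t := by omega
  have hXt := X_pos t
  have hYt := Y_pos ht
  have hYX := Y_le_X t
  have hmm := mm_pos ht h3
  obtain ⟨κ, hκ, hκ1, hκ2⟩ := St_kappa ht hc
  have hs1 := lt_sr
  have hYr : (0 : ℝ) < (Y t : ℝ) := by exact_mod_cast hYt
  have hXr : (0 : ℝ) < (X t : ℝ) := by exact_mod_cast hXt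
  have hYXr : (Y t : ℝ) ≤ (X t : ℝ) := by exact_mod_cast hYX
  have hmr : (0 : ℝ) < (mm t : ℝ) := by exact_mod_cast hmm
  have hbb : bb 9 (g t) = 4 * (mm t : ℝ) * Y t * (sr * X t) := by
    rw [bb_eq, Y_two_mul]
    push_cast
    ring
  have hDD : (DD 9 : ℤ) = 80 := by
    simp only [DD]
    norm_num
  have hg : (g t : ℤ) = mm t * (X t * Y t) := by
    unfold g
    push_cast
    rw [G_cast']
  have hWY := WY j
  have hs2 := sgn_sq j
  have hmY : (0 : ℝ) < 4 * (mm t : ℝ) * Y t := by positivity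
  refine ⟨(4 * mm t * Y t * (2 * κ + X t), 8 * mm t * Y t ^ 2), (-1) ^ j,
    ⟨Y t * W j, Y t * Y j⟩, ⟨κ * W j + X t * Y j, κ * Y j + X t * (W j + Y j)⟩,
    ⟨?_, ?_, ?_, ?_, ?_⟩, sgn j, ?_, ?_, ?_, ⟨?_, ?_⟩, ⟨hκ, ?_⟩, fun x hx => St_span hc hκ x hx⟩
  · show 0 < 8 * (mm t : ℤ) * Y t ^ 2
    have : (0 : ℤ) < mm t := by exact_mod_cast hmm
    positivity
  · show 8 * (mm t : ℤ) * Y t ^ 2 ∣ DD 9 * (g t : ℤ) ^ 2 - (4 * mm t * Y t * (2 * κ + X t)) ^ 2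
    rw [hg, hDD]
    exact ⟨8 * mm t * (X t ^ 2 - κ * X t - κ ^ 2), by ring⟩
  · show ((4 * mm t * Y t * (2 * κ + X t) : ℤ) : ℝ) < bb 9 (g t)
    rw [hbb]
    push_cast
    exact mul_lt_mul_of_pos_left hκ1 hmY
  · show bb 9 (g t) - ((4 * mm t * Y t * (2 * κ + X t) : ℤ) : ℝ) <
      ((8 * mm t * Y t ^ 2 : ℤ) : ℝ)
    rw [hbb]
    push_cast
    have h1 := mul_lt_mul_of_pos_left hκ2 hmY
    linarith
  · show ((8 * mm t * Y t ^ 2 : ℤ) : ℝ) < bb 9 (g t) +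
      ((4 * mm t * Y t * (2 * κ + X t) : ℤ) : ℝ)
    rw [hbb]
    push_cast
    have h0 : 2 * (Y t : ℝ) < sr * X t + (2 * κ + X t) := by
      have h2 : 2.236 * (X t : ℝ) < sr * X t := mul_lt_mul_of_pos_right hs1 hXr
      linarith
    have h1 := mul_lt_mul_of_pos_left h0 hmY
    linarith
  · show 8 * (mm t : ℤ) * Y t ^ 2 = 8 * (-1) ^ j * mm t * nm ⟨Y t * W j, Y t * Y j⟩
    show 8 * (mm t : ℤ) * Y t ^ 2 = 8 * (-1) ^ j * mm t * ((Y t * W j) * (Y t * W j) +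
      (Y t * W j) * (Y t * Y j) - (Y t * Y j) * (Y t * Y j))
    linear_combination (-(8 * (-1) ^ j * mm t * Y t ^ 2)) * hWY -
      (8 * mm t * Y t ^ 2) * hs2
  · show 4 * (mm t : ℤ) * Y t * (2 * κ + X t) = 4 * (-1) ^ j * mm t * tr _
    unfold tr
    rw [re_mul, im_mul, re_star, im_star]
    show 4 * (mm t : ℤ) * Y t * (2 * κ + X t) = 4 * (-1) ^ j * mm t *
      (2 * ((κ * W j + X t * Y j) * (Y t * W j + Y t * Y j) +
        (κ * Y j + X t * (W j + Y j)) * (-(Y t * Y j))) +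
      ((κ * W j + X t * Y j) * (-(Y t * Y j)) + (κ * Y j + X t * (W j + Y j)) *
        (Y t * W j + Y t * Y j) + (κ * Y j + X t * (W j + Y j)) * (-(Y t * Y j))))
    linear_combination (-(4 * (-1) ^ j * mm t * Y t * (2 * κ + X t))) * hWY -
      (4 * mm t * Y t * (2 * κ + X t)) * hs2
  · rw [im_mul, re_star, im_star, Y_two_mul]
    show X t * Y t = (-1) ^ j * ((κ * W j + X t * Y j) * (-(Y t * Y j)) +
      (κ * Y j + X t * (W j + Y j)) * (Y t * W j + Y t * Y j) +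
      (κ * Y j + X t * (W j + Y j)) * (-(Y t * Y j)))
    linear_combination (-((-1) ^ j * (X t * Y t))) * hWY - (X t * Y t) * hs2
  · exact ⟨Y j, rfl⟩
  · rw [B_eq]
    exact ⟨0, by ring⟩
  · rw [B_eq]
    exact ⟨(-1) ^ j, by linear_combination (X t) * hWY⟩

end Pool.Agent.Helper65.KF
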