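import Pool.Agent.Helper65.KF.Rl

/-!
Project KF, modules Un and PL (one file): equal points differ by a unit; lower bound for the period.
Adapt Helper65/KT/Un.lean.  X_t and Y_t e^j lie in LB t j; X_t, Y_t: from z1 X_t, z1 Y_t ∈ y1 R one gets
z1 * 1: careful, X_t and Y_t are coprime (3 does not divide t: Y_t odd, pell gives X_t² - 5 Y_t² = ± 4).
t = t': σ' (z2 star z1).im = Y (2t') and z = μ y, nm μ = ± 1, so Y (2t') = ± Y (2t) > 0 and Y is injective on n ≥ 2 (Y_lt).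
period_lb: μ.im ≠ 0, Y_t ∣ μ.im, √5 |μ.im| = |ph μ - ps μ| ≤ 1 + M^n ≤ 2 M^n (ph_sub_ps).
-/

namespace Pool.Agent.Helper65.KF

open Pool.Agent.Helper20 Pool.Agent.Helper20.MC

private theorem Un_coprime {t : ℕ} (h3 : ¬ 3 ∣ t) : IsCoprime (X t) (Y t) := by
  obtain ⟨a, ha⟩ := Y_odd h3
  have h1 : IsCoprime (Y t) 2 := ⟨1, -a, by rw [ha]; ring⟩
  have h2 : IsCoprime (Y t) (2 * W t) := h1.mul_right (WY_coprime t)
  obtain ⟨u, v, huv⟩ := h2
  refine ⟨v, u - v, ?_⟩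
  unfold X
  linear_combination huv

private theorem Un_cancel {x w y : R} (hy : y ≠ 0) (h : x * y = w * y) : x = w := by
  apply ph_inj
  have h1 : ph x * ph y = ph w * ph y := by
    rw [← ph_mul, ← ph_mul, h]
  exact mul_right_cancel₀ (ph_ne hy) h1

private theorem Un_im_int_mul (n : ℤ) (x : R) : ((n : R) * x).im = n * x.im := by
  rw [im_mul, re_int, im_int]
  ring

private theorem Un_LBX (t j : ℕ) : LB t j ((X t : ℤ) : R) := by
  refine ⟨?_, ?_⟩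
  · rw [im_int]
    exact dvd_zero _
  · rw [B_eq, im_int, re_int]
    exact ⟨-Y j, by ring⟩

private theorem Un_LBY (t j : ℕ) : LB t j (((Y t : ℤ) : R) * e ^ j) := by
  refine ⟨?_, ?_⟩
  · rw [Un_im_int_mul]
    exact dvd_mul_right _ _
  · unfold B
    rw [mul_assoc, e_mul_star, Un_im_int_mul]
    have h1 : (((-1 : R)) ^ j).im = 0 := by
      rcases neg_one_pow_eq_or R j with h | h <;> rw [h] <;>
        simp [QuadraticAlgebra.im_one]
    rw [h1, mul_zero]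
    exact dvd_zero _

private theorem Un_div {t j : ℕ} (h3 : ¬ 3 ∣ t) {p : ℤ × ℤ} {σ : ℤ} {y1 y2 z1 z2 : R}
    (h : Rel t j p σ y1 y2) (hy : y2 * z1 = z2 * y1) : ∃ μ : R, z1 = μ * y1 := by
  obtain ⟨_, _, _, _, _, _, hsp⟩ := h
  obtain ⟨m, n, h1'⟩ := hsp _ (Un_LBX t j)
  obtain ⟨m', n', h2'⟩ := hsp _ (Un_LBY t j)
  obtain ⟨u, v, huv⟩ := Un_coprime h3
  have huv' : (u : R) * ((X t : ℤ) : R) + (v : R) * ((Y t : ℤ) : R) = 1 := by
    exact_mod_cast congrArg (fun z : ℤ => (z : R)) huv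
  have hes := e_mul_star j
  have hss : ((-1 : R) ^ j) * (-1) ^ j = 1 := by
    rcases neg_one_pow_eq_or R j with h | h <;> rw [h] <;> norm_num
  generalize ((-1 : R) ^ j) = s at hes hss
  refine ⟨(u : R) * ((m : R) * z1 + (n : R) * z2) +
    (v : R) * s * ((m' : R) * z1 + (n' : R) * z2) * star e ^ j, ?_⟩
  linear_combination (-z1) * huv' + z1 * (u : R) * h1' +
    (-(z1 * (v : R) * ((Y t : ℤ) : R) * s)) * hes +
    (-(z1 * (v : R) * ((Y t : ℤ) : R))) * hss +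
    z1 * (v : R) * s * star e ^ j * h2' +
    ((u : R) * (n : R) + (v : R) * (n' : R) * s * star e ^ j) * hy

private theorem Un_nm {μ ν : R} (hμν : μ * ν = 1) : nm μ = 1 ∨ nm μ = -1 := by
  have h1 : nm μ * nm ν = 1 := by
    rw [← nm_mul, hμν]
    simp [nm, QuadraticAlgebra.re_one, QuadraticAlgebra.im_one]
  exact Int.eq_one_or_neg_one_of_mul_eq_one h1

private theorem Un_inj {m n : ℕ} (hm : 2 ≤ m) (hn : 2 ≤ n) (h : Y m = Y n) : m = n := by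
  rcases lt_trichotomy m n with h1 | h1 | h1
  · have h2 := Y_lt hm h1
    omega
  · exact h1
  · have h2 := Y_lt hn h1
    omega

theorem eq_unit {t j t' j' : ℕ} (ht : 1 ≤ t) (h3 : ¬ 3 ∣ t) (ht' : 1 ≤ t') (h3' : ¬ 3 ∣ t')
    {p p' : ℤ × ℤ} (hp : p ∈ Red 9 (g t)) (hp' : p' ∈ Red 9 (g t')) {σ σ' : ℤ}
    {y1 y2 z1 z2 : R} (h : Rel t j p σ y1 y2) (h' : Rel t' j' p' σ' z1 z2)
    (he : xv 9 (g t) p = xv 9 (g t') p') :
    t = t' ∧ ∃ μ ν : R, μ * ν = 1 ∧ z1 = μ * y1 ∧ z2 = μ * y2 := by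
  obtain ⟨hy0, hy⟩ := Rel.ph_eq ht h3 hp h
  obtain ⟨hz0, hz⟩ := Rel.ph_eq ht' h3' hp' h'
  have hyz : y2 * z1 = z2 * y1 := by
    apply ph_inj
    rw [ph_mul, ph_mul, hy, hz, he]
    ring
  obtain ⟨μ, hμ⟩ := Un_div h3 h hyz
  obtain ⟨ν, hν⟩ := Un_div h3' h' hyz.symm
  have hμν : μ * ν = 1 := by
    apply Un_cancel hy0
    rw [one_mul]
    calc μ * ν * y1 = ν * (μ * y1) := by ring
      _ = ν * z1 := by rw [← hμ]
      _ = y1 := hν.symm
  have hz2 : z2 = μ * y2 := by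
    apply Un_cancel hy0
    rw [← hyz, hμ]
    ring
  refine ⟨?_, μ, ν, hμν, hμ, hz2⟩
  obtain ⟨hs, _, _, hP, _, _, _⟩ := h
  obtain ⟨hs', _, _, hP', _, _, _⟩ := h'
  have hn := Un_nm hμν
  have hc : z2 * star z1 = (nm μ : R) * (y2 * star y1) := by
    rw [← mul_star_nm, hz2, hμ, star_mul]
    ring
  rw [hc, Un_im_int_mul] at hP'
  have hp1 : 0 < Y (2 * t) := Y_pos (by omega)
  have hp2 : 0 < Y (2 * t') := Y_pos (by omega)
  have hY : Y (2 * t') = Y (2 * t) := by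
    rcases hs with rfl | rfl <;> rcases hs' with rfl | rfl <;> rcases hn with hn | hn <;>
      rw [hn] at hP' <;> linarith
  have := Un_inj (by omega) (by omega) hY
  omega

private theorem PL_dvd {t j : ℕ} (h3 : ¬ 3 ∣ t) {p : ℤ × ℤ} {σ σ' : ℤ} {y1 y2 z1 z2 μ : R}
    (h : Rel t j p σ y1 y2) (h' : Rel t j p σ' z1 z2) (h1 : z1 = μ * y1)
    (h2 : z2 = μ * y2) : Y t ∣ μ.im := by
  obtain ⟨_, _, _, _, _, _, hsp⟩ := h
  obtain ⟨_, _, _, _, ⟨hz1, _⟩, ⟨hz2, _⟩, _⟩ := h'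
  obtain ⟨m, n, hmn⟩ := hsp _ (Un_LBX t j)
  have h4' : ((X t : ℤ) : R) * μ = (m : R) * z1 + (n : R) * z2 := by
    rw [hmn, h1, h2]
    ring
  have h4 := congrArg QuadraticAlgebra.im h4'
  rw [QuadraticAlgebra.im_add, Un_im_int_mul, Un_im_int_mul, Un_im_int_mul] at h4
  have h5 : Y t ∣ X t * μ.im := by
    rw [h4]
    exact dvd_add (Dvd.dvd.mul_left hz1 m) (Dvd.dvd.mul_left hz2 n)
  exact (Un_coprime h3).symm.dvd_of_dvd_mul_left h5

theorem period_lb {t j : ℕ} (ht : 1 ≤ t) (h3 : ¬ 3 ∣ t) {p : ℤ × ℤ} (hp : p ∈ Red 9 (g t))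
    {σ : ℤ} {y1 y2 : R} (h : Rel t j p σ y1 y2) {M : ℝ} (hM : 1 ≤ M)
    (hb : ∀ i : ℕ, xv 9 (g t) ((nx 9 (g t))^[i] p) ≤ M) {n : ℕ} (hn : 1 ≤ n)
    (he : (nx 9 (g t))^[n] p = p) : (Y t : ℝ) ≤ M ^ n := by
  obtain ⟨-, σ', z1, z2, hR, hlt, hle⟩ := Rel.iter ht h3 hp h n
  rw [he] at hR
  obtain ⟨-, μ, ν, hμν, hz1, hz2⟩ := eq_unit ht h3 ht h3 hp hp h hR rfl
  have hlt' := hlt hn
  have hle' := hle M hM hb
  obtain ⟨hy0, -⟩ := Rel.ph_eq ht h3 hp h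
  have hy : 0 < |ph y1| := abs_pos.2 (ph_ne hy0)
  have hz : |ph z1| = |ph μ| * |ph y1| := by
    rw [hz1, ph_mul, abs_mul]
  have h1 : |ph μ| < 1 := by
    rw [hz] at hlt'
    by_contra hc
    push Not at hc
    nlinarith
  have h2 : 1 ≤ M ^ n * |ph μ| := by
    rw [hz] at hle'
    by_contra hc
    push Not at hc
    have h3 := mul_lt_mul_of_pos_right hc hy
    linarith
  have hnorm := Un_nm hμν
  have hprod : |ph μ| * |ps μ| = 1 := by
    rw [← abs_mul, ph_mul_ps]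
    rcases hnorm with h | h <;> rw [h] <;> norm_num
  have hMn : (0 : ℝ) < M ^ n := pow_pos (by linarith) n
  have hM1 : (1 : ℝ) ≤ M ^ n := one_le_pow₀ hM
  have hps : |ps μ| ≤ M ^ n := by
    have h3 : |ps μ| * 1 ≤ |ps μ| * (M ^ n * |ph μ|) :=
      mul_le_mul_of_nonneg_left h2 (abs_nonneg _)
    have h4 : |ps μ| * (M ^ n * |ph μ|) = M ^ n * (|ph μ| * |ps μ|) := by ring
    rw [h4, hprod] at h3
    linarith
  have him : μ.im ≠ 0 := by
    intro h0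
    have h3 : |ph μ| = |ps μ| := by
      unfold ph ps
      rw [h0]
      simp
    rw [← h3] at hprod
    nlinarith [abs_nonneg (ph μ)]
  have hdvd := PL_dvd h3 h hR hz1 hz2
  have hY : Y t ≤ |μ.im| := Int.le_of_dvd (abs_pos.2 him) ((dvd_abs _ _).2 hdvd)
  have hYr : (Y t : ℝ) ≤ |(μ.im : ℝ)| := by exact_mod_cast hY
  have hs : 2 ≤ sr := by
    have h3 := lt_sr
    linarith
  have hdiff : sr * |(μ.im : ℝ)| ≤ 1 + M ^ n := by
    have h4 : |ph μ - ps μ| = sr * |(μ.im : ℝ)| := by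
      rw [ph_sub_ps, abs_mul, abs_of_pos sr_pos]
    rw [← h4]
    calc |ph μ - ps μ| ≤ |ph μ| + |ps μ| := abs_sub _ _
      _ ≤ 1 + M ^ n := by linarith
  have h0 : (0 : ℝ) ≤ |(μ.im : ℝ)| := abs_nonneg _
  have h5 : 2 * |(μ.im : ℝ)| ≤ sr * |(μ.im : ℝ)| := mul_le_mul_of_nonneg_right hs h0
  linarith

end Pool.Agent.Helper65.KF
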