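import Pool.Agent.Helper65.KF.MN
import Pool.Agent.Helper65.KF.Un
import Pool.Agent.Helper65.KF.St
import Pool.Agent.Helper65.KF.JE
import Pool.Agent.Helper65.KF.Ct
import Pool.Agent.Helper65.KG.CP
import Pool.Agent.Helper65.KG.Fs
import Pool.Agent.Helper20.MC.CF2

/-!
Project KF: assembly.
-/

namespace Pool.Agent.Helper65.KF

open Pool.Agent.Helper20 Pool.Agent.Helper20.MC

theorem Asm_iter {h : ℕ} (hg : 1 ≤ h) {p : ℤ × ℤ} (hp : p ∈ Red 9 h) (k : ℕ) :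
    (nx 9 h)^[k] p ∈ Red 9 h ∧ gm^[k] (xv 9 h p) = xv 9 h ((nx 9 h)^[k] p) := by
  have ha : 2 ≤ 9 := by norm_num
  induction k with
  | zero => exact ⟨hp, rfl⟩
  | succ k ih =>
    rw [Function.iterate_succ_apply', Function.iterate_succ_apply', ih.2]
    exact ⟨nx_mem ha hg ih.1, xv_nx ha hg ih.1⟩

theorem Asm_WY_le (n : ℕ) : W n ≤ 2 ^ n ∧ Y n ≤ 2 ^ n := by
  induction n with
  | zero => simp [W_zero, Y_zero]
  | succ n ih =>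
    obtain ⟨h1, h2⟩ := ih
    have h3 : (0 : ℤ) < 2 ^ n := by positivity
    rw [W_succ, Y_succ, pow_succ]
    constructor <;> linarith

theorem Asm_X_le (n : ℕ) : X n ≤ 2 ^ (n + 2) := by
  obtain ⟨h1, h2⟩ := Asm_WY_le n
  have h3 : (0 : ℤ) < 2 ^ n := by positivity
  unfold X
  rw [pow_add]
  linarith

theorem Asm_fib (n : ℕ) : 2 ^ (n / 2) ≤ Nat.fib (n + 1) := by
  have key : ∀ k : ℕ, 2 ^ k ≤ Nat.fib (2 * k + 1) ∧ 2 ^ k ≤ Nat.fib (2 * k + 2) := by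
    intro k
    induction k with
    | zero => simp
    | succ k ih =>
      obtain ⟨h1, h2⟩ := ih
      have e1 : Nat.fib (2 * (k + 1) + 1) = Nat.fib (2 * k + 1) + Nat.fib (2 * k + 2) := by
        rw [show 2 * (k + 1) + 1 = (2 * k + 1) + 2 by ring, Nat.fib_add_two]
      have e2 : Nat.fib (2 * (k + 1) + 2) = Nat.fib (2 * k + 2) + Nat.fib (2 * k + 3) := by
        rw [show 2 * (k + 1) + 2 = (2 * k + 2) + 2 by ring, Nat.fib_add_two]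
      have e3 : Nat.fib (2 * k + 3) = Nat.fib (2 * k + 1) + Nat.fib (2 * k + 2) := by
        rw [show 2 * k + 3 = (2 * k + 1) + 2 by ring, Nat.fib_add_two]
      rw [e1, e2, pow_succ]
      omega
  rcases Nat.even_or_odd' n with ⟨k, rfl | rfl⟩
  · rw [show 2 * k / 2 = k by omega]
    exact (key k).1
  · rw [show (2 * k + 1) / 2 = k by omega]
    exact (key k).2

/-- the points of level t -/
theorem Asm_level {t j : ℕ} (hj1 : 1 ≤ j) (hjt : j < t) (h3 : ¬ 3 ∣ t) (hG : Good t j) :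
    ∃ p : ℤ × ℤ, p ∈ Red 9 (g t) ∧ (∃ (σ : ℤ) (y1 y2 : R), Rel t j p σ y1 y2) ∧
      (∀ i : ℕ, xv 9 (g t) ((nx 9 (g t))^[i] p) < 5) ∧
      ∀ i : ℕ, ∃ n : ℕ, 1 ≤ n ∧ n ≤ 27 * t ∧
        (nx 9 (g t))^[n] ((nx 9 (g t))^[i] p) = (nx 9 (g t))^[i] p := by
  have ha : 2 ≤ 9 := by norm_num
  have ht : 1 ≤ t := by omega
  have hg : 1 ≤ g t := g_pos ht h3
  obtain ⟨p, σ, y1, y2, hp, hrel⟩ := start hj1 hjt hG.coprime h3
  refine ⟨p, hp, ⟨σ, y1, y2, hrel⟩, fun i => ?_, fun i => ?_⟩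
  · obtain ⟨hpi, σ', z1, z2, hri, -, -⟩ := Rel.iter ht h3 hp hrel i
    obtain ⟨hz1, hz⟩ := Rel.ph_eq ht h3 hpi hri
    have hz2 : z2 ≠ 0 := by
      rintro rfl
      have h1 := one_lt_xv hpi
      have h2 := ph_ne hz1
      have h3 : ph 0 = 0 := by simp [ph]
      rw [h3] at hz
      rcases mul_eq_zero.1 hz.symm with h | h
      · rw [h] at h1
        norm_num at h1
      · exact h2 h
    exact Rel.bound ht h3 hpi hri (min_norm hG hz1 (Or.inl hri.2.2.2.2.1))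
      (min_norm hG hz2 (Or.inl hri.2.2.2.2.2.1))
  · set q := (nx 9 (g t))^[i] p with hq
    have hqR : q ∈ Red 9 (g t) := (Asm_iter hg hp i).1
    obtain ⟨H, hH1, hH2⟩ := g_pell h3
    obtain ⟨n, hn1, hn2, hn3⟩ := red_period (a := 9) (g := g t) (t := H) ha hg hH1 hqR
    refine ⟨n, hn1, ?_, ?_⟩
    · have h1 : 2 ^ (n / 2) ≤ 2 * H := le_trans (Asm_fib n) hn2
      have h2 : (H : ℤ) ≤ 2 ^ (6 * t + 6) := by
        have h4 := Asm_X_le (2 * t)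
        have h5 := (X_pos (2 * t)).le
        have h6 := pow_le_pow_left₀ h5 h4 3
        rw [← pow_mul, show (2 * t + 2) * 3 = 6 * t + 6 by ring] at h6
        linarith
      have h2' : H ≤ 2 ^ (6 * t + 6) := by exact_mod_cast h2
      have h4 : 2 ^ (n / 2) ≤ 2 ^ (6 * t + 7) := by
        rw [show 6 * t + 7 = (6 * t + 6) + 1 by ring, pow_succ]
        omega
      have h5 : n / 2 ≤ 6 * t + 7 := (Nat.pow_le_pow_iff_right (by norm_num)).1 h4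
      omega
    · have h1 := Asm_iter hg hqR n
      rw [hn3] at h1
      exact (xv_inj ha hg h1.1 hqR h1.2.symm)

/-- injectivity -/
theorem Asm_inj {t j i t' j' i' : ℕ} (h12 : 12 ≤ t) (h3 : ¬ 3 ∣ t) (h3' : ¬ 3 ∣ t')
    (hj : j < t) (hj' : j' < t') (hi : i < (t - 1) / 8)
    (hi' : i' < (t' - 1) / 8) {p p' : ℤ × ℤ} (hp : p ∈ Red 9 (g t)) (hp' : p' ∈ Red 9 (g t'))
    (hr : ∃ (σ : ℤ) (y1 y2 : R), Rel t j p σ y1 y2)
    (hr' : ∃ (σ : ℤ) (y1 y2 : R), Rel t' j' p' σ y1 y2)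
    (hpp : t = t' → j = j' → p = p')
    (hA1 : ∀ i : ℕ, xv 9 (g t) ((nx 9 (g t))^[i] p) < 5)
    (he : xv 9 (g t) ((nx 9 (g t))^[i] p) = xv 9 (g t') ((nx 9 (g t'))^[i'] p')) :
    t = t' ∧ j = j' ∧ i = i' := by
  have ha : 2 ≤ 9 := by norm_num
  obtain ⟨σ, y1, y2, hr⟩ := hr
  obtain ⟨σ', z1, z2, hr'⟩ := hr'
  have ht : 1 ≤ t := by omega
  have ht' : 1 ≤ t' := by omega
  obtain ⟨hpi, τ, u1, u2, hri, -, -⟩ := Rel.iter ht h3 hp hr i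
  obtain ⟨hpi', τ', v1, v2, hri', -, -⟩ := Rel.iter ht' h3' hp' hr' i'
  obtain ⟨htt, μ, ν, hu, h1, h2⟩ := eq_unit ht h3 ht' h3' hpi hpi' hri hri' he
  subst htt
  have hjj : j = j' := j_eq h12 h3 hj hj' hri hri' hu h1 h2
  subst hjj
  have hpe := hpp rfl rfl
  subst hpe
  refine ⟨rfl, rfl, ?_⟩
  have hg : 1 ≤ g t := g_pos ht h3
  -- the general contradiction
  have key : ∀ i i' : ℕ, i < i' → i' < (t - 1) / 8 →
      (nx 9 (g t))^[i] p = (nx 9 (g t))^[i'] p → False := by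
    intro i i' hlt hlt' heq
    obtain ⟨hpi, τ, u1, u2, hri, -, -⟩ := Rel.iter ht h3 hp hr i
    have h5 : (nx 9 (g t))^[i' - i] ((nx 9 (g t))^[i] p) = (nx 9 (g t))^[i] p := by
      rw [← Function.iterate_add_apply, Nat.sub_add_cancel hlt.le]
      exact heq.symm
    have h4 := period_lb (M := (5 : ℝ)) ht h3 hpi hri (by norm_num)
      (fun k => by
        rw [← Function.iterate_add_apply]
        exact (hA1 _).le) (show 1 ≤ i' - i by omega) h5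
    have h6 : (5 : ℝ) ^ (i' - i) ≤ (2 : ℝ) ^ (3 * (i' - i)) := by
      rw [pow_mul]
      apply pow_le_pow_left₀ (by norm_num)
      norm_num
    have h7 : 3 * (i' - i) < (t - 1) / 2 := by omega
    have h8 : (2 : ℝ) ^ (3 * (i' - i)) < (2 : ℝ) ^ ((t - 1) / 2) :=
      pow_lt_pow_right₀ (by norm_num) h7
    have h9 : (2 : ℝ) ^ ((t - 1) / 2) ≤ (Y t : ℝ) := by
      have e1 := two_pow_le_Y ((t - 1) / 2)
      have e2 := Y_mono (show 2 * ((t - 1) / 2) + 1 ≤ t by omega)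
      exact_mod_cast e1.trans e2
    linarith
  have h9 : (nx 9 (g t))^[i] p = (nx 9 (g t))^[i'] p := xv_inj ha hg hpi hpi' he
  rcases lt_trichotomy i i' with h | h | h
  · exact (key i i' h hi' h9).elim
  · exact h
  · exact (key i' i h hi h9.symm).elim

/-- the index set -/
def JJ (t : ℕ) : Finset ℕ := (Finset.range t).filter (fun j => Odd j ∧ Nat.Coprime j t)

theorem Asm_count (b : ℕ) (hb : 1 ≤ b) (T : ℕ) (hT : 32 * b ≤ T) :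
    (T : ℝ) ^ 3 / (1024 * b) ≤ ∑ t ∈ Finset.Icc 1 T, ((JJ t).card : ℝ) * (((t - 1) / b : ℕ) : ℝ) := by
  have hb' : (1 : ℝ) ≤ b := by exact_mod_cast hb
  have hT' : (32 : ℝ) * b ≤ T := by exact_mod_cast hT
  have hT4 : 4 ≤ T := by omega
  have h1 := KG.coprime_count T hT4
  have h2 : ∑ t ∈ Finset.Icc 1 (T / 8), ((JJ t).card : ℝ) ≤ (T : ℝ) ^ 2 / 64 := by
    have h3 : ∀ t ∈ Finset.Icc 1 (T / 8), ((JJ t).card : ℝ) ≤ ((T / 8 : ℕ) : ℝ) := by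
      intro t ht
      have h4 : (JJ t).card ≤ t := by
        unfold JJ
        exact (Finset.card_filter_le _ _).trans (by simp)
      have h5 := (Finset.mem_Icc.1 ht).2
      exact_mod_cast h4.trans h5
    refine (Finset.sum_le_sum h3).trans ?_
    rw [Finset.sum_const, Nat.card_Icc, nsmul_eq_mul]
    have h6 : ((T / 8 : ℕ) : ℝ) ≤ (T : ℝ) / 8 := by
      have := Nat.cast_div_le (α := ℝ) (m := T) (n := 8)
      simpa using this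
    have h7 : (0 : ℝ) ≤ ((T / 8 : ℕ) : ℝ) := Nat.cast_nonneg _
    rw [Nat.add_sub_cancel]
    nlinarith
  have h3 : ∑ t ∈ Finset.Icc 1 T, ((JJ t).card : ℝ) =
      ∑ t ∈ Finset.Icc 1 (T / 8), ((JJ t).card : ℝ) +
        ∑ t ∈ Finset.Ioc (T / 8) T, ((JJ t).card : ℝ) := by
    rw [← Finset.sum_union]
    · congr 1
      ext t
      simp only [Finset.mem_Icc, Finset.mem_union, Finset.mem_Ioc]
      omega
    · rw [Finset.disjoint_left]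
      intro t h4 h5
      simp only [Finset.mem_Icc, Finset.mem_Ioc] at h4 h5
      omega
  have h4 : (T : ℝ) ^ 2 / 64 ≤ ∑ t ∈ Finset.Ioc (T / 8) T, ((JJ t).card : ℝ) := by
    have h5 : ∑ t ∈ Finset.Icc 1 T, ((JJ t).card : ℝ) = ∑ t ∈ Finset.Icc 1 T,
      (((Finset.range t).filter (fun j => Odd j ∧ Nat.Coprime j t)).card : ℝ) := rfl
    linarith
  have h5 : (T : ℝ) / (16 * b) ≤ (((T / 8) / b : ℕ) : ℝ) := by
    have h6 : (T : ℝ) < ((((T / 8) / b : ℕ) : ℝ) + 1) * (8 * b) := by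
      have h7 : T < (T / 8 / b + 1) * (8 * b) := by
        have h8 : T / 8 / b = T / (8 * b) := Nat.div_div_eq_div_mul _ _ _
        rw [h8]
        have h9 : 0 < 8 * b := by omega
        exact (Nat.lt_mul_div_succ T h9).trans_eq (mul_comm _ _)
      exact_mod_cast h7
    rw [div_le_iff₀ (by positivity)]
    nlinarith
  calc (T : ℝ) ^ 3 / (1024 * b) = (T : ℝ) ^ 2 / 64 * ((T : ℝ) / (16 * b)) := by
        field_simp
        norm_num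
    _ ≤ (∑ t ∈ Finset.Ioc (T / 8) T, ((JJ t).card : ℝ)) * (((T / 8) / b : ℕ) : ℝ) := by
        apply mul_le_mul h4 h5 (by positivity)
        exact Finset.sum_nonneg (fun _ _ => Nat.cast_nonneg _)
    _ = ∑ t ∈ Finset.Ioc (T / 8) T, ((JJ t).card : ℝ) * (((T / 8) / b : ℕ) : ℝ) :=
        Finset.sum_mul _ _ _
    _ ≤ ∑ t ∈ Finset.Ioc (T / 8) T, ((JJ t).card : ℝ) * (((t - 1) / b : ℕ) : ℝ) := by
        apply Finset.sum_le_sum
        intro t ht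
        apply mul_le_mul_of_nonneg_left _ (Nat.cast_nonneg _)
        have h6 := (Finset.mem_Ioc.1 ht).1
        have h7 : T / 8 / b ≤ (t - 1) / b := Nat.div_le_div_right (by omega)
        exact_mod_cast h7
    _ ≤ ∑ t ∈ Finset.Icc 1 T, ((JJ t).card : ℝ) * (((t - 1) / b : ℕ) : ℝ) := by
        apply Finset.sum_le_sum_of_subset_of_nonneg
        · intro t ht
          have h6 := Finset.mem_Ioc.1 ht
          exact Finset.mem_Icc.2 ⟨by omega, h6.2⟩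
        · intro _ _ _
          positivity

/-- one half of the index set -/
theorem Asm_half {c T : ℕ} (hc : c = 12 ∨ c = 13) (I : Finset (Σ _ : ℕ, ℕ × ℕ))
    (hmem : ∀ v ∈ I, 1 ≤ v.1 ∧ v.1 ≤ T ∧ v.2.1 < v.1 ∧ Odd v.2.1 ∧ Nat.Coprime v.2.1 v.1 ∧
      v.2.2 < (v.1 - 1) / 8 ∧ ¬ 3 ∣ v.1 + c * v.2.1) :
    ∃ S : Finset ℝ, I.card ≤ S.card ∧ ∀ x ∈ S,
      ∃ (h : ℕ) (p : ℤ × ℤ), 1 ≤ h ∧ p ∈ Red 9 h ∧ x = xv 9 h p ∧
        (∀ k : ℕ, xv 9 h ((nx 9 h)^[k] p) < 5) ∧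
        ∃ n : ℕ, 1 ≤ n ∧ n ≤ 378 * T ∧ (nx 9 h)^[n] p = p := by
  classical
  have hc12 : 12 ≤ c := by omega
  -- choice of j
  have hJ : ∀ u : ℕ × ℕ, ∃ j : ℕ, Odd u.2 → u.2 < u.1 → Nat.Coprime u.2 u.1 →
      1 ≤ j ∧ j < u.1 + c * u.2 ∧ Nat.Coprime j (u.1 + c * u.2) ∧
        ((u.1 + c * u.2 : ℕ) : ℤ) ∣ (u.2 : ℤ) * j - 1 := by
    intro u
    by_cases h : Odd u.2 ∧ u.2 < u.1 ∧ Nat.Coprime u.2 u.1
    · obtain ⟨j, hj⟩ := exists_j h.1.pos h.2.1 h.2.2 hc12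
      exact ⟨j, fun _ _ _ => hj⟩
    · exact ⟨0, fun h1 h2 h3 => (h ⟨h1, h2, h3⟩).elim⟩
  choose J hJ using hJ
  -- choice of the starting points
  have hch : ∀ u : ℕ × ℕ, ∃ p : ℤ × ℤ, 1 ≤ u.2 → u.2 < u.1 → ¬ 3 ∣ u.1 → Good u.1 u.2 →
      p ∈ Red 9 (g u.1) ∧ (∃ (σ : ℤ) (y1 y2 : R), Rel u.1 u.2 p σ y1 y2) ∧
        (∀ i : ℕ, xv 9 (g u.1) ((nx 9 (g u.1))^[i] p) < 5) ∧
        ∀ i : ℕ, ∃ n : ℕ, 1 ≤ n ∧ n ≤ 27 * u.1 ∧
          (nx 9 (g u.1))^[n] ((nx 9 (g u.1))^[i] p) = (nx 9 (g u.1))^[i] p := by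
    intro u
    by_cases h : 1 ≤ u.2 ∧ u.2 < u.1 ∧ ¬ 3 ∣ u.1 ∧ Good u.1 u.2
    · obtain ⟨p, hp⟩ := Asm_level h.1 h.2.1 h.2.2.1 h.2.2.2
      exact ⟨p, fun _ _ _ _ => hp⟩
    · refine ⟨(0, 0), fun h1 h2 h3 h4 => (h ⟨h1, h2, h3, h4⟩).elim⟩
  choose P hP using hch
  let τ : (Σ _ : ℕ, ℕ × ℕ) → ℕ := fun v => v.1 + c * v.2.1
  let F : (Σ _ : ℕ, ℕ × ℕ) → ℝ := fun v =>
    xv 9 (g (τ v)) ((nx 9 (g (τ v)))^[v.2.2] (P (τ v, J (v.1, v.2.1))))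
  have hgood : ∀ v ∈ I, 1 ≤ J (v.1, v.2.1) ∧ J (v.1, v.2.1) < τ v ∧
      Good (τ v) (J (v.1, v.2.1)) ∧ 1 ≤ v.2.1 ∧ 12 ≤ τ v ∧ ¬ 3 ∣ τ v ∧ τ v ≤ 14 * T := by
    intro v hv
    obtain ⟨h1, h1', h2, h3, h4, h5, h7⟩ := hmem v hv
    obtain ⟨q1, q2, q3, q4⟩ := hJ (v.1, v.2.1) h3 h2 h4
    have h6 : 1 ≤ v.2.1 := h3.pos
    have h8 : 12 * v.2.1 ≤ c * v.2.1 := Nat.mul_le_mul_right _ hc12
    have h9 : c * v.2.1 ≤ 13 * v.2.1 := Nat.mul_le_mul_right _ (by omega)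
    exact ⟨q1, q2, ⟨v.2.1, h6, by simp only [τ]; omega, Or.inl q4⟩, h6, by simp only [τ]; omega, h7,
      by simp only [τ]; omega⟩
  have hinj : Set.InjOn F (I : Set (Σ _ : ℕ, ℕ × ℕ)) := by
    intro v hv v' hv' he
    obtain ⟨h1, -, h2, h3, h4, h5, -⟩ := hmem v hv
    obtain ⟨h1', -, h2', h3', h4', h5', -⟩ := hmem v' hv'
    obtain ⟨g0, g1, g2, g3, g4, g5, -⟩ := hgood v hv
    obtain ⟨g0', g1', g2', g3', g4', g5', -⟩ := hgood v' hv'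
    obtain ⟨q1, q2, q3, -⟩ := hP (τ v, J (v.1, v.2.1)) g0 g1 g5 g2
    obtain ⟨q1', q2', -, -⟩ := hP (τ v', J (v'.1, v'.2.1)) g0' g1' g5' g2'
    have hτ : (v.1 - 1) / 8 ≤ (τ v - 1) / 8 := Nat.div_le_div_right (by simp only [τ]; omega)
    have hτ' : (v'.1 - 1) / 8 ≤ (τ v' - 1) / 8 := Nat.div_le_div_right (by simp only [τ]; omega)
    obtain ⟨e1, e2, e3⟩ := Asm_inj g4 g5 g5' g1 g1' (h5.trans_le hτ) (h5'.trans_le hτ') q1 q1' q2 q2'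
      (by intro e1 e2; rw [e1, e2]) q3 he
    have c1 := (hJ (v.1, v.2.1) h3 h2 h4).2.2.2
    have c2 := (hJ (v'.1, v'.2.1) h3' h2' h4').2.2.2
    rw [← e2] at c2
    obtain ⟨d1, d2⟩ := choice_inj (j := J (v.1, v.2.1)) g3 g3' hc12 e1 c1 c2
    obtain ⟨t, s, i⟩ := v
    obtain ⟨t', s', i'⟩ := v'
    simp only at d1 d2 e3
    subst d1 d2 e3
    rfl
  refine ⟨I.image F, ?_, fun x hx => ?_⟩
  · rw [Finset.card_image_of_injOn hinj]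
  · obtain ⟨v, hv, rfl⟩ := Finset.mem_image.1 hx
    obtain ⟨g0, g1, g2, g3, g4, g5, g6⟩ := hgood v hv
    obtain ⟨q1, q2, q3, q4⟩ := hP (τ v, J (v.1, v.2.1)) g0 g1 g5 g2
    have hg : 1 ≤ g (τ v) := g_pos (by omega) g5
    refine ⟨g (τ v), (nx 9 (g (τ v)))^[v.2.2] (P (τ v, J (v.1, v.2.1))), hg,
      (Asm_iter hg q1 v.2.2).1, rfl, fun k => ?_, ?_⟩
    · rw [← Function.iterate_add_apply]
      exact q3 _
    · obtain ⟨n, hn1, hn2, hn3⟩ := q4 v.2.2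
      exact ⟨n, hn1, hn2.trans (by simp only; omega), hn3⟩

/-- many points of period at most 378 T -/
theorem Asm_many (T : ℕ) (hT : 256 ≤ T) :
    ∃ S : Finset ℝ, (T : ℝ) ^ 3 / 16384 ≤ (S.card : ℝ) ∧ ∀ x ∈ S,
      ∃ (h : ℕ) (p : ℤ × ℤ), 1 ≤ h ∧ p ∈ Red 9 h ∧ x = xv 9 h p ∧
        (∀ k : ℕ, xv 9 h ((nx 9 h)^[k] p) < 5) ∧
        ∃ n : ℕ, 1 ≤ n ∧ n ≤ 378 * T ∧ (nx 9 h)^[n] p = p := by
  classical
  let I : Finset (Σ _ : ℕ, ℕ × ℕ) :=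
    (Finset.Icc 1 T).sigma (fun t => JJ t ×ˢ Finset.range ((t - 1) / 8))
  have hmem : ∀ v ∈ I, 1 ≤ v.1 ∧ v.1 ≤ T ∧ v.2.1 < v.1 ∧ Odd v.2.1 ∧ Nat.Coprime v.2.1 v.1 ∧
      v.2.2 < (v.1 - 1) / 8 := by
    rintro ⟨t, j, i⟩ hv
    simp only [I, Finset.mem_sigma, Finset.mem_Icc, Finset.mem_product, JJ, Finset.mem_filter,
      Finset.mem_range] at hv
    exact ⟨hv.1.1, hv.1.2, hv.2.1.1, hv.2.1.2.1, hv.2.1.2.2, hv.2.2⟩
  have hI : (T : ℝ) ^ 3 / 8192 ≤ (I.card : ℝ) := by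
    have hc : (I.card : ℝ) = ∑ t ∈ Finset.Icc 1 T, ((JJ t).card : ℝ) * (((t - 1) / 8 : ℕ) : ℝ) := by
      simp only [I, Finset.card_sigma, Finset.card_product, Finset.card_range]
      push_cast
      rfl
    rw [hc]
    have h := Asm_count 8 (by norm_num) T (by omega)
    norm_num at h ⊢
    exact h
  have hsplit := Finset.card_filter_add_card_filter_not (s := I) (fun v => 3 ∣ v.1)
  obtain ⟨S1, hS1, hS1'⟩ := Asm_half (c := 12) (T := T) (Or.inl rfl) (I.filter (fun v => ¬ 3 ∣ v.1))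
    (by
      intro v hv
      obtain ⟨hv1, hv2⟩ := Finset.mem_filter.1 hv
      obtain ⟨h1, h2, h3, h4, h5, h6⟩ := hmem v hv1
      exact ⟨h1, h2, h3, h4, h5, h6, by omega⟩)
  obtain ⟨S2, hS2, hS2'⟩ := Asm_half (c := 13) (T := T) (Or.inr rfl) (I.filter (fun v => 3 ∣ v.1))
    (by
      intro v hv
      obtain ⟨hv1, hv2⟩ := Finset.mem_filter.1 hv
      obtain ⟨h1, h2, h3, h4, h5, h6⟩ := hmem v hv1
      refine ⟨h1, h2, h3, h4, h5, h6, fun h7 => ?_⟩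
      have h8 : 3 ∣ v.2.1 := by omega
      have h9 := Nat.dvd_gcd h8 hv2
      rw [h5] at h9
      omega)
  have hsum : I.card ≤ S1.card + S2.card := by omega
  have hsum' : (I.card : ℝ) ≤ S1.card + S2.card := by exact_mod_cast hsum
  rcases le_total S1.card S2.card with h | h
  · have h' : (S1.card : ℝ) ≤ S2.card := by exact_mod_cast h
    exact ⟨S2, by linarith, hS2'⟩
  · have h' : (S2.card : ℝ) ≤ S1.card := by exact_mod_cast h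
    exact ⟨S1, by linarith, hS1'⟩

/-- Main theorem of the project. -/
theorem main (l : ℕ) (hl : 100000 ≤ l) :
    (l : ℝ) ^ 3 / 8000000000000 ≤ (({x : ℝ | (∃ p q : ℚ, x = (p : ℝ) + (q : ℝ) * Real.sqrt 5) ∧
      ∃ n : ℕ, 1 ≤ n ∧ n ≤ l ∧ ∃ a : ℕ → ℕ, Function.Periodic a n ∧
        (∀ k, 1 ≤ a k ∧ a k ≤ 4) ∧
        ∀ k : ℕ, ⌊(fun y : ℝ => (Int.fract y)⁻¹)^[k] x⌋ = (a k : ℤ)}).ncard : ℝ) := by
  classical
  have hT : 256 ≤ l / 378 := by omega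
  obtain ⟨S, hS1, hS2⟩ := Asm_many (l / 378) hT
  have hsub : (S : Set ℝ) ⊆ {x : ℝ | (∃ p q : ℚ, x = (p : ℝ) + (q : ℝ) * Real.sqrt 5) ∧
      ∃ n : ℕ, 1 ≤ n ∧ n ≤ l ∧ ∃ a : ℕ → ℕ, Function.Periodic a n ∧
        (∀ k, 1 ≤ a k ∧ a k ≤ 4) ∧
        ∀ k : ℕ, ⌊(fun y : ℝ => (Int.fract y)⁻¹)^[k] x⌋ = (a k : ℤ)} := by
    intro x hx
    obtain ⟨h, p, hg, hp, rfl, hbd, n, hn1, hn2, hn3⟩ := hS2 x hx
    have hfl : ∀ k : ℕ, 1 ≤ ⌊xv 9 h ((nx 9 h)^[k] p)⌋ := fun k =>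
      Int.le_floor.mpr (by push_cast; exact (one_lt_xv (Asm_iter hg hp k).1).le)
    refine ⟨⟨(p.1 : ℚ) / p.2, 4 * (h : ℚ) / p.2, ?_⟩, n, hn1,
      hn2.trans (Nat.mul_div_le _ _), fun k => ⌊xv 9 h ((nx 9 h)^[k] p)⌋.toNat, ?_, fun k => ?_,
      fun k => ?_⟩
    · rw [xv, bb, sq_nine, sr]
      push_cast
      ring
    · intro k
      change ⌊xv 9 h ((nx 9 h)^[k + n] p)⌋.toNat = ⌊xv 9 h ((nx 9 h)^[k] p)⌋.toNat
      rw [Function.iterate_add_apply, hn3]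
    · have h3 := hfl k
      have h4 : ⌊xv 9 h ((nx 9 h)^[k] p)⌋ < 5 := by
        rw [Int.floor_lt]
        exact_mod_cast hbd k
      constructor
      · change 1 ≤ ⌊xv 9 h ((nx 9 h)^[k] p)⌋.toNat
        omega
      · change ⌊xv 9 h ((nx 9 h)^[k] p)⌋.toNat ≤ 4
        omega
    · have h2 := Asm_iter hg hp k
      have h4 := hfl k
      change ⌊gm^[k] (xv 9 h p)⌋ = ((⌊xv 9 h ((nx 9 h)^[k] p)⌋.toNat : ℕ) : ℤ)
      rw [h2.2]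
      omega
  have hfin : ({x : ℝ | (∃ p q : ℚ, x = (p : ℝ) + (q : ℝ) * Real.sqrt 5) ∧
      ∃ n : ℕ, 1 ≤ n ∧ n ≤ l ∧ ∃ a : ℕ → ℕ, Function.Periodic a n ∧
        (∀ k, 1 ≤ a k ∧ a k ≤ 4) ∧
        ∀ k : ℕ, ⌊(fun y : ℝ => (Int.fract y)⁻¹)^[k] x⌋ = (a k : ℤ)}).Finite := by
    have h := KG.set_finite 5 4 l
    rw [Nat.cast_ofNat] at h
    exact h
  have hcard : (S.card : ℝ) ≤ (({x : ℝ | (∃ p q : ℚ, x = (p : ℝ) + (q : ℝ) * Real.sqrt 5) ∧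
      ∃ n : ℕ, 1 ≤ n ∧ n ≤ l ∧ ∃ a : ℕ → ℕ, Function.Periodic a n ∧
        (∀ k, 1 ≤ a k ∧ a k ≤ 4) ∧
        ∀ k : ℕ, ⌊(fun y : ℝ => (Int.fract y)⁻¹)^[k] x⌋ = (a k : ℤ)}).ncard : ℝ) := by
    have h1 := Set.ncard_le_ncard hsub hfin
    rw [Set.ncard_coe_finset] at h1
    exact_mod_cast h1
  refine le_trans ?_ (hS1.trans hcard)
  have h1 : (l : ℝ) / 756 ≤ ((l / 378 : ℕ) : ℝ) := by
    have h2 : l ≤ 756 * (l / 378) := by omega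
    have h3 : (l : ℝ) ≤ 756 * ((l / 378 : ℕ) : ℝ) := by exact_mod_cast h2
    linarith
  have h2 : ((l : ℝ) / 756) ^ 3 ≤ ((l / 378 : ℕ) : ℝ) ^ 3 :=
    pow_le_pow_left₀ (by positivity) h1 3
  have h3 : (0 : ℝ) ≤ (l : ℝ) ^ 3 := by positivity
  calc (l : ℝ) ^ 3 / 8000000000000 ≤ ((l : ℝ) / 756) ^ 3 / 16384 := by
        rw [div_pow, div_div]
        apply div_le_div_of_nonneg_left h3 (by norm_num)
        norm_num
    _ ≤ ((l / 378 : ℕ) : ℝ) ^ 3 / 16384 := by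
        apply div_le_div_of_nonneg_right h2 (by norm_num)

end Pool.Agent.Helper65.KF
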