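import Pool.Agent.Helper65.KF.Defs

/-!
Project KF, module Cg: congruences (compare Helper65/KT/Cg.lean).  Modulo Y j: e ^ j ≡ W j (im e^j = Y j), so
e ^ (r + k j) ≡ W j ^ k e ^ r; X = 2 W + Y.  Induction on k with W_add, Y_add.
mod_X_even: in R, e ^ (2 j) = X j * e ^ j - (-1) ^ j (e^j + star e^j = X j, e_mul_star), so
e ^ (r + 2 m j) ≡ ± e ^ r modulo (X j : R); the last two divisibilities follow by taking components (an element
divisible by the integer X j in R has both components divisible, and X = 2 re + im).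
-/

namespace Pool.Agent.Helper65.KF

open Pool.Agent.Helper20 Pool.Agent.Helper20.MC

theorem Cg_mod_Y (j r k : ℕ) :
    Y j ∣ W (r + k * j) - W j ^ k * W r ∧ Y j ∣ Y (r + k * j) - W j ^ k * Y r := by
  induction k with
  | zero => simp
  | succ k ih =>
    obtain ⟨h1, h2⟩ := ih
    have e : r + (k + 1) * j = (r + k * j) + j := by ring
    rw [e, W_add (r + k * j) j, Y_add (r + k * j) j]
    constructor
    · have e1 : W (r + k * j) * W j + Y (r + k * j) * Y j - W j ^ (k + 1) * W r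
          = W j * (W (r + k * j) - W j ^ k * W r) + Y j * Y (r + k * j) := by
        ring
      rw [e1]
      exact dvd_add (dvd_mul_of_dvd_right h1 _) (dvd_mul_right _ _)
    · have e1 : W (r + k * j) * Y j + Y (r + k * j) * W j + Y (r + k * j) * Y j
            - W j ^ (k + 1) * Y r
          = W j * (Y (r + k * j) - W j ^ k * Y r)
            + Y j * (W (r + k * j) + Y (r + k * j)) := by
        ring
      rw [e1]
      exact dvd_add (dvd_mul_of_dvd_right h2 _) (dvd_mul_right _ _)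

theorem mod_Y (j r k : ℕ) :
    Y j ∣ X (r + k * j) - W j ^ k * X r ∧ Y j ∣ Y (r + k * j) - W j ^ k * Y r := by
  obtain ⟨h1, h2⟩ := Cg_mod_Y j r k
  refine ⟨?_, h2⟩
  have e1 : X (r + k * j) - W j ^ k * X r
      = 2 * (W (r + k * j) - W j ^ k * W r) + (Y (r + k * j) - W j ^ k * Y r) := by
    unfold X
    ring
  rw [e1]
  exact dvd_add (dvd_mul_of_dvd_right h1 _) h2

/-- e^j + star e^j = X j -/
theorem Cg_add_star (j : ℕ) : e ^ j + star e ^ j = ((X j : ℤ) : R) := by
  rw [star_e_pow, e_pow]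
  apply R_ext
  · rw [QuadraticAlgebra.re_add, re_int]
    unfold X
    ring
  · rw [QuadraticAlgebra.im_add, im_int]
    ring

/-- e ^ (2 j) = X j * e ^ j - (-1) ^ j -/
theorem Cg_two_mul (j : ℕ) : e ^ (2 * j) = ((X j : ℤ) : R) * e ^ j - (((-1 : ℤ) ^ j : ℤ) : R) := by
  have h1 := e_mul_star j
  have h2 := Cg_add_star j
  rw [← h2, two_mul, pow_add]
  push_cast
  rw [← h1]
  ring

/-- components of a multiple of an integer -/
theorem Cg_comp {n : ℤ} {z : R} (h : (n : R) ∣ z) : n ∣ z.re ∧ n ∣ z.im := by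
  obtain ⟨c, rfl⟩ := h
  constructor
  · rw [re_mul, re_int, im_int]
    exact ⟨c.re, by ring⟩
  · rw [im_mul, re_int, im_int]
    exact ⟨c.im, by ring⟩

theorem Cg_even (j r m : ℕ) : ∃ s : ℤ, (s = 1 ∨ s = -1) ∧
    ((X j : ℤ) : R) ∣ e ^ (r + 2 * m * j) - (s : R) * e ^ r := by
  induction m with
  | zero => exact ⟨1, Or.inl rfl, by simp⟩
  | succ m ih =>
    obtain ⟨s, hs, h1⟩ := ih
    have hη' := sgn j
    have h3 := Cg_two_mul j
    generalize ((-1 : ℤ) ^ j) = η at hη' h3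
    refine ⟨-(η * s), by rcases hs with h | h <;> rcases hη' with h' | h' <;> simp [h, h'], ?_⟩
    have e1 : r + 2 * (m + 1) * j = (r + 2 * m * j) + 2 * j := by ring
    rw [e1, pow_add e (r + 2 * m * j) (2 * j), h3]
    have e2 : e ^ (r + 2 * m * j) * (((X j : ℤ) : R) * e ^ j - ((η : ℤ) : R))
          - ((-(η * s) : ℤ) : R) * e ^ r
        = -((η : ℤ) : R) * (e ^ (r + 2 * m * j) - (s : R) * e ^ r)
          + ((X j : ℤ) : R) * (e ^ (r + 2 * m * j) * e ^ j) := by
      push_cast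
      ring
    rw [e2]
    exact dvd_add (dvd_mul_of_dvd_right h1 _) (dvd_mul_right _ _)

theorem mod_X_even (j r m : ℕ) : ∃ s : ℤ, (s = 1 ∨ s = -1) ∧
    ((X j : ℤ) : R) ∣ e ^ (r + 2 * m * j) - (s : R) * e ^ r ∧
    X j ∣ X (r + 2 * m * j) - s * X r ∧ X j ∣ Y (r + 2 * m * j) - s * Y r := by
  obtain ⟨s, hs, h⟩ := Cg_even j r m
  obtain ⟨h1, h2⟩ := Cg_comp h
  have h3 : (e ^ (r + 2 * m * j) - (s : R) * e ^ r).re = W (r + 2 * m * j) - s * W r := by
    rw [QuadraticAlgebra.re_sub, re_mul, re_int, im_int]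
    unfold W
    ring
  have h4 : (e ^ (r + 2 * m * j) - (s : R) * e ^ r).im = Y (r + 2 * m * j) - s * Y r := by
    rw [QuadraticAlgebra.im_sub, im_mul, re_int, im_int]
    unfold Y
    ring
  rw [h3] at h1
  rw [h4] at h2
  refine ⟨s, hs, h, ?_, h2⟩
  have e1 : X (r + 2 * m * j) - s * X r
      = 2 * (W (r + 2 * m * j) - s * W r) + (Y (r + 2 * m * j) - s * Y r) := by
    unfold X
    ring
  rw [e1]
  exact dvd_add (dvd_mul_of_dvd_right h1 _) h2

theorem Cg_fib (n : ℕ) : Y n = (Nat.fib n : ℤ) ∧ W n + Y n = (Nat.fib (n + 1) : ℤ) := by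
  induction n with
  | zero => simp [Y_zero, W_zero]
  | succ n ih =>
    obtain ⟨h1, h2⟩ := ih
    refine ⟨by rw [Y_succ, h2], ?_⟩
    have h3 : Nat.fib (n + 1 + 1) = Nat.fib n + Nat.fib (n + 1) := Nat.fib_add_two
    rw [W_succ, Y_succ, h2, h1, h3]
    push_cast
    ring

/-- Fibonacci numbers with coprime indices are coprime (Y n is Nat.fib n, Nat.fib_gcd). -/
theorem Y_coprime_Y {j t : ℕ} (hc : Nat.Coprime j t) : IsCoprime (Y j) (Y t) := by
  rw [(Cg_fib j).1, (Cg_fib t).1]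
  apply Nat.Coprime.isCoprime
  have h1 := Nat.fib_gcd j t
  rw [Nat.Coprime.gcd_eq_one hc, Nat.fib_one] at h1
  exact h1.symm

end Pool.Agent.Helper65.KF
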