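import Pool.Agent.Helper65.KF.Cg

/-!
Project KF, module PA: the point of the descent for type A (compare Helper65/KT/PA.lean).
x.im = Y_t u, A_j x = X_t q, s_j = (-1)^j.  Identity (four_nm, two_A, pell):
X_j² nm x = A² + 5 Y_j A im - 5 s_j im².  A_eq: X_j x.re = X_t q - (W_j - 2 Y_j) Y_t u.
k even (mod_X_even): X_j ∣ X_r q - (W_j - 2 Y_j) Y_r u =: X_j w, z = ⟨w, Y_r u⟩, A_j z = X_r q,
X_j² (nm z X_t Y_t - nm x X_r Y_r) = (X_r Y_t - X_t Y_r) (q² X_r X_t + 5 s_j u² Y_r Y_t), and
X_r Y_t - X_t Y_r = 2 s_r Y_(t-r) (Y_sub).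
k odd, k = 2 m + 1, t = (r + j) + 2 m j.  Work in R with √5 = ⟨-1, 2⟩ =: v5 and f^n = star e ^ n:
e^n + f^n = X n, e^n - f^n = v5 Y n.  X_j x = X_t q + v5 e^j Y_t u (components: im v5 e^j = X_j,
re v5 e^j = 2 Y_j - W_j) = e^t (q + e^j u) + f^t (q - e^j u).  Modulo (X_j : R): e^t ≡ s e^(r+j),
f^t ≡ s f^(r+j) (apply star), f^j ≡ -e^j, so 0 ≡ s e^j (v5 Y_r q + e^j X_r u), and e^j is a unit:
X_j z₁ = v5 Y_r q + e^j X_r u for some z₁ in R.  Then tr z₁ = X_r u (X_j tr z₁ = X_j X_r u),
B_j z₁ = Y_r q, X_j² nm z₁ = s_j X_r² u² - 5 Y_j X_r Y_r u q - 5 Y_r² q²,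
X_j² (nm z₁ X_t Y_t + nm x X_r Y_r) = (X_r X_t - 5 Y_r Y_t) (s_j u² X_r Y_t + q² X_t Y_r),
X_r X_t - 5 Y_r Y_t = 2 s_r X_(t-r) (X_sub).  z = star (z₁ * star e ^ j): z.im = -B_j z₁ = -Y_r q,
A_j z = s_j tr z₁ (e_mul_star), nm z = s_j nm z₁ up to sign.
-/

namespace Pool.Agent.Helper65.KF

open Pool.Agent.Helper20 Pool.Agent.Helper20.MC

/-- From an integer identity to the inequality between absolute values. -/
private theorem PA_close {Nz Nx s s' Xj P Q err err' bd : ℤ} (hs : s = 1 ∨ s = -1)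
    (hP : 0 ≤ P) (hQ : 0 ≤ Q)
    (hid : Xj ^ 2 * (Nz * P - s * Nx * Q) = s' * (err + err'))
    (hs' : s' = 1 ∨ s' = -1) (hbd : |err + err'| ≤ bd) :
    Xj ^ 2 * (|Nz| * P) ≤ Xj ^ 2 * (|Nx| * Q) + bd := by
  have h0 : 0 ≤ Xj ^ 2 := sq_nonneg Xj
  have hs1 : |s| = 1 := by rcases hs with h | h <;> rw [h] <;> norm_num
  have hs1' : |s'| = 1 := by rcases hs' with h | h <;> rw [h] <;> norm_num
  have h1 : Xj ^ 2 * (|Nz| * P) = |s' * (err + err') + Xj ^ 2 * (s * Nx * Q)| := by
    have : s' * (err + err') + Xj ^ 2 * (s * Nx * Q) = Xj ^ 2 * (Nz * P) := by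
      rw [← hid]; ring
    rw [this, abs_mul, abs_mul, abs_of_nonneg h0, abs_of_nonneg hP]
  have h2 : |s' * (err + err') + Xj ^ 2 * (s * Nx * Q)| ≤
      |err + err'| + Xj ^ 2 * (|Nx| * Q) := by
    refine (abs_add_le _ _).trans ?_
    rw [abs_mul s', hs1', one_mul, abs_mul, abs_mul, abs_mul, hs1, abs_of_nonneg h0,
      abs_of_nonneg hQ, one_mul]
  rw [h1]
  linarith

/-- Absolute value of a sum with signs. -/
private theorem PA_sum {d a b s₁ s₂ : ℤ} (hd : 0 ≤ d) (ha : 0 ≤ a) (hb : 0 ≤ b)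
    (h₁ : s₁ = 1 ∨ s₁ = -1) (h₂ : s₂ = 1 ∨ s₂ = -1) :
    |d * (s₁ * a) + d * (s₂ * b)| ≤ d * (a + b) := by
  have e₁ : |s₁| = 1 := by rcases h₁ with h | h <;> rw [h] <;> norm_num
  have e₂ : |s₂| = 1 := by rcases h₂ with h | h <;> rw [h] <;> norm_num
  refine (abs_add_le _ _).trans ?_
  rw [abs_mul, abs_mul, abs_mul, abs_mul, e₁, e₂, abs_of_nonneg hd, abs_of_nonneg ha,
    abs_of_nonneg hb]
  apply le_of_eq
  ring

/-- √5 -/
def PA_v5 : R := ⟨-1, 2⟩

theorem PA_X (n : ℕ) : ((X n : ℤ) : R) = e ^ n + star e ^ n := by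
  rw [e_pow, star_e_pow]
  apply R_ext
  · rw [re_int, QuadraticAlgebra.re_add]
    simp only [X]
    ring
  · rw [im_int, QuadraticAlgebra.im_add]
    simp only
    ring

theorem PA_Y (n : ℕ) : PA_v5 * ((Y n : ℤ) : R) = e ^ n - star e ^ n := by
  rw [e_pow, star_e_pow]
  apply R_ext
  · rw [re_mul, re_int, im_int, QuadraticAlgebra.re_sub]
    simp only [PA_v5]
    ring
  · rw [im_mul, re_int, im_int, QuadraticAlgebra.im_sub]
    simp only [PA_v5]
    ring

theorem PA_tr_star (x : R) : tr (star x) = tr x := by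
  unfold tr
  rw [re_star, im_star]
  ring

theorem PA_tr_int (n : ℤ) (x : R) : tr ((n : R) * x) = n * tr x := by
  unfold tr
  rw [re_mul, im_mul, re_int, im_int]
  ring

theorem PA_nm_star_e (j : ℕ) : nm (star e ^ j) = (-1) ^ j := by
  rw [star_e_pow, ← WY]
  unfold nm
  simp only
  ring

/-- the divisibility for odd k, as an identity in a commutative ring -/
theorem PA_ring {T : Type*} [CommRing T] {a b E F er fr Q U S c c' σ x : T}
    (hx1 : (a + b) * x = (E + F) * Q + a * ((E - F) * U))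
    (h2 : E - S * (er * a) = (a + b) * c) (h3 : F - S * (fr * b) = (a + b) * c')
    (hab : a * b = σ) (hσ : σ * σ = 1) (hS : S * S = 1) :
    (er - fr) * Q + a * ((er + fr) * U) = (a + b) * (σ * S * b *
      (x - c * (Q + a * U) - c' * (Q - a * U) - S * fr * (Q - a * U))) := by
  have key : (a + b) * (x - c * (Q + a * U) - c' * (Q - a * U) - S * fr * (Q - a * U)) =
      S * a * ((er - fr) * Q + a * ((er + fr) * U)) := by
    linear_combination hx1 + (Q + a * U) * h2 + (Q - a * U) * h3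
  linear_combination (-(σ * S * b)) * key -
    ((er - fr) * Q + a * ((er + fr) * U)) * hσ -
    (σ * ((er - fr) * Q + a * ((er + fr) * U))) * hab -
    (σ * a * b * ((er - fr) * Q + a * ((er + fr) * U))) * hS

/-- X_j² nm x in terms of A_j x and im x -/
theorem PA_norm (j : ℕ) (x : R) :
    X j ^ 2 * nm x = A j x ^ 2 + 5 * Y j * A j x * x.im - 5 * (-1) ^ j * x.im ^ 2 := by
  have h1 := four_nm x
  have h2 := two_A j x
  have h3 := pell j
  have h4 : X j * tr x = 2 * A j x + 5 * (Y j * x.im) := by linarith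
  have h5 : 4 * (X j ^ 2 * nm x) =
      4 * (A j x ^ 2 + 5 * Y j * A j x * x.im - 5 * (-1) ^ j * x.im ^ 2) := by
    calc 4 * (X j ^ 2 * nm x) = X j ^ 2 * (4 * nm x) := by ring
      _ = (X j * tr x) ^ 2 - 5 * X j ^ 2 * x.im ^ 2 := by rw [h1]; ring
      _ = (2 * A j x + 5 * (Y j * x.im)) ^ 2 - 5 * X j ^ 2 * x.im ^ 2 := by rw [h4]
      _ = _ := by linear_combination (-(5 * x.im ^ 2)) * h3
  linarith

theorem PA_point {t j r k : ℕ} (hr : 1 ≤ r) (hrj : r < j)
    (ht : t = r + k * j) {x : R} (hx : x ≠ 0) (hL : LA t j x) :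
    ∃ (z : R) (u q : ℤ), z ≠ 0 ∧ LA r j z ∧ x.im = Y t * u ∧ A j x = X t * q ∧
      (X j ^ 2 * (|nm z| * (X t * Y t)) ≤ X j ^ 2 * (|nm x| * (X r * Y r)) +
          2 * Y (t - r) * (q ^ 2 * X r * X t + 5 * u ^ 2 * Y r * Y t) ∨
        X j ^ 2 * (|nm z| * (X t * Y t)) ≤ X j ^ 2 * (|nm x| * (X r * Y r)) +
          2 * X (t - r) * (u ^ 2 * X r * Y t + q ^ 2 * X t * Y r)) := by
  obtain ⟨⟨u, hu⟩, ⟨q, hq⟩⟩ := hL
  have hrt : r ≤ t := by rw [ht]; exact Nat.le_add_right _ _
  have ht1 : 1 ≤ t := hr.trans hrt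
  have hXj : 0 < X j := X_pos j
  have hXr : 0 < X r := X_pos r
  have hXt : 0 < X t := X_pos t
  have hYr : 0 < Y r := Y_pos hr
  have hYt : 0 < Y t := Y_pos ht1
  have hXd : 0 < X (t - r) := X_pos (t - r)
  have hYd : 0 ≤ Y (t - r) := Y_nonneg (t - r)
  have hXsub := X_sub hrt
  have hYsub := Y_sub hrt
  obtain ⟨sj, hsj⟩ : ∃ sj : ℤ, sj = (-1) ^ j := ⟨_, rfl⟩
  obtain ⟨sr', hsr⟩ : ∃ sr' : ℤ, sr' = (-1) ^ r := ⟨_, rfl⟩
  have hsj1 : sj = 1 ∨ sj = -1 := by rw [hsj]; exact sgn j
  have hsr1 : sr' = 1 ∨ sr' = -1 := by rw [hsr]; exact sgn r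
  have hsr2 : sr' * sr' = 1 := by rw [hsr]; exact sgn_sq r
  rw [← hsr] at hXsub hYsub
  have hAx : X j * x.re = X t * q - (W j - 2 * Y j) * (Y t * u) := by
    have h3 := A_eq j x
    rw [hq, hu] at h3
    linarith
  have hNx : X j ^ 2 * nm x = X t ^ 2 * q ^ 2 + 5 * Y j * X t * Y t * u * q
      - 5 * sj * Y t ^ 2 * u ^ 2 := by
    rw [PA_norm, hq, hu, ← hsj]
    ring
  have hxne : u = 0 → q = 0 → False := by
    intro hu0 hq0
    apply hx
    rw [hu0, hq0, mul_zero, mul_zero, mul_zero, sub_zero] at hAx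
    have h3 : x.re = 0 := by
      rcases mul_eq_zero.mp hAx with h | h
      · exact absurd h hXj.ne'
      · exact h
    apply R_ext
    · rw [h3]; rfl
    · rw [hu, hu0, mul_zero]; rfl
  rcases Nat.even_or_odd' k with ⟨m, hm | hm⟩
  · -- even case
    subst hm
    obtain ⟨s, hs, -, hsX, hsY⟩ := mod_X_even j r m
    rw [← ht] at hsX hsY
    have hdvd : X j ∣ X r * q - (W j - 2 * Y j) * (Y r * u) := by
      have h3 : X j ∣ X t * q - (W j - 2 * Y j) * (Y t * u) := ⟨x.re, hAx.symm⟩
      have h4 : X j ∣ s * (X r * q - (W j - 2 * Y j) * (Y r * u)) := by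
        have h5 := dvd_sub h3 (dvd_sub (hsX.mul_right q)
          (hsY.mul_right ((W j - 2 * Y j) * u)))
        have h6 : X t * q - (W j - 2 * Y j) * (Y t * u) - ((X t - s * X r) * q -
            (Y t - s * Y r) * ((W j - 2 * Y j) * u)) =
            s * (X r * q - (W j - 2 * Y j) * (Y r * u)) := by ring
        rw [h6] at h5
        exact h5
      have h5 := h4.mul_left s
      have h6 : s * (s * (X r * q - (W j - 2 * Y j) * (Y r * u))) =
          X r * q - (W j - 2 * Y j) * (Y r * u) := by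
        rcases hs with h | h <;> rw [h] <;> ring
      rw [h6] at h5
      exact h5
    obtain ⟨w, hw⟩ := hdvd
    obtain ⟨z, hz⟩ : ∃ z : R, z = ⟨w, Y r * u⟩ := ⟨_, rfl⟩
    have hzre : z.re = w := by rw [hz]
    have hzim : z.im = Y r * u := by rw [hz]
    have hA : A j z = X r * q := by
      rw [A_eq, hzre, hzim]
      linarith
    refine ⟨z, u, q, ?_, ⟨⟨u, hzim⟩, ⟨q, hA⟩⟩, hu, hq, Or.inl ?_⟩
    · intro hz0
      have h3 : Y r * u = 0 := by
        rw [← hzim, hz0]
        rfl
      have h4 : X r * q = 0 := by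
        rw [← hA, A_eq, hz0]
        simp
      have h5 : u = 0 := by
        rcases mul_eq_zero.mp h3 with h | h
        · exact absurd h hYr.ne'
        · exact h
      have h6 : q = 0 := by
        rcases mul_eq_zero.mp h4 with h | h
        · exact absurd h hXr.ne'
        · exact h
      exact hxne h5 h6
    · have hNz : X j ^ 2 * nm z =
          X r ^ 2 * q ^ 2 + 5 * Y j * X r * Y r * u * q
            - 5 * sj * Y r ^ 2 * u ^ 2 := by
        rw [PA_norm, hA, hzim, ← hsj]
        ring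
      obtain ⟨N, hN⟩ : ∃ N : ℤ, N = nm z := ⟨_, rfl⟩
      rw [← hN] at hNz ⊢
      have hidZ : X j ^ 2 * (N * (X t * Y t) - 1 * nm x * (X r * Y r)) =
          sr' * ((2 * Y (t - r)) * (1 * (q ^ 2 * X r * X t)) +
            (2 * Y (t - r)) * (sj * (5 * u ^ 2 * Y r * Y t))) := by
        have hd : Y t * X r - X t * Y r = sr' * (2 * Y (t - r)) := by
          rw [hYsub]
          linear_combination (-(Y t * X r - X t * Y r)) * hsr2
        linear_combination (X t * Y t) * hNz - (X r * Y r) * hNx +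
          (q ^ 2 * X r * X t + 5 * sj * u ^ 2 * Y r * Y t) * hd
      refine PA_close (Or.inl rfl) (by positivity) (by positivity) hidZ hsr1 ?_
      exact PA_sum (by positivity) (by positivity) (by positivity) (Or.inl rfl) hsj1
  · -- odd case
    subst hm
    obtain ⟨s, hs, hsR, -, -⟩ := mod_X_even j (r + j) m
    have ht2 : r + j + 2 * m * j = t := by rw [ht]; ring
    rw [ht2] at hsR
    obtain ⟨c, hc⟩ := hsR
    have hxR : ((X j : ℤ) : R) * x = ((X t : ℤ) : R) * (q : R) +
        e ^ j * ((PA_v5 * ((Y t : ℤ) : R)) * (u : R)) := by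
      rw [e_pow]
      apply R_ext
      · rw [QuadraticAlgebra.re_add]
        simp only [re_mul, im_mul, re_int, im_int, PA_v5]
        linarith
      · rw [QuadraticAlgebra.im_add]
        simp only [re_mul, im_mul, re_int, im_int, PA_v5, hu, X]
        ring
    have hσ : ((-1 : R) ^ j) * (-1) ^ j = 1 := by
      rw [← mul_pow]
      simp
    have hS : ((s : ℤ) : R) * ((s : ℤ) : R) = 1 := by
      rcases hs with h | h <;> rw [h] <;> push_cast <;> ring
    rw [PA_X, PA_X, PA_Y] at hxR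
    rw [PA_X, pow_add e r j] at hc
    have hc' := congrArg star hc
    rw [star_sub, star_mul, star_mul, star_mul, star_add, star_pow, star_pow, star_pow, star_pow,
      star_star] at hc'
    have hsS : star ((s : ℤ) : R) = ((s : ℤ) : R) := by simp
    rw [hsS] at hc'
    have hc2 : star e ^ t - ((s : ℤ) : R) * (star e ^ r * star e ^ j) =
        (e ^ j + star e ^ j) * star c := by
      linear_combination hc'
    have hD := PA_ring (a := e ^ j) (b := star e ^ j) (E := e ^ t) (F := star e ^ t)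
      (er := e ^ r) (fr := star e ^ r) (Q := (q : R)) (U := (u : R)) (S := (s : R)) (c := c)
      (c' := star c) (σ := (-1) ^ j) (x := x) hxR hc hc2 (e_mul_star j) hσ hS
    obtain ⟨z1, hz1⟩ : ∃ z1 : R, PA_v5 * ((Y r * q : ℤ) : R) + e ^ j * ((X r * u : ℤ) : R) =
        ((X j : ℤ) : R) * z1 := by
      refine ⟨_, Eq.trans ?_ (hD.trans (by rw [PA_X]))⟩
      rw [← PA_X, ← PA_Y]
      push_cast
      ring
    clear hD hc2 hc' hsS hc hxR
    rw [e_pow] at hz1
    have hre := congrArg QuadraticAlgebra.re hz1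
    have him := congrArg QuadraticAlgebra.im hz1
    rw [QuadraticAlgebra.re_add] at hre
    rw [QuadraticAlgebra.im_add] at him
    simp only [re_mul, im_mul, re_int, im_int, PA_v5] at hre him
    have htr : tr z1 = X r * u := by
      have h3 : X j * tr z1 = X j * (X r * u) := by
        unfold tr
        have : X j = 2 * W j + Y j := rfl
        linear_combination -2 * hre - him - (X r * u) * this
      exact mul_left_cancel₀ hXj.ne' h3
    have hB : B j z1 = Y r * q := by
      have h3 : X j * B j z1 = X j * (Y r * q) := by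
        rw [B_eq]
        have : X j = 2 * W j + Y j := rfl
        linear_combination (Y j) * hre - (W j) * him - (Y r * q) * this
      exact mul_left_cancel₀ hXj.ne' h3
    obtain ⟨z, hz⟩ : ∃ z : R, z = star (z1 * star e ^ j) := ⟨_, rfl⟩
    have hzim : z.im = -(Y r * q) := by
      rw [hz, im_star, ← hB]
      rfl
    have hsgn : ((-1 : R) ^ j) = ((sj : ℤ) : R) := by
      rw [hsj]
      push_cast
      rfl
    have hAz : A j z = sj * (X r * u) := by
      unfold A
      have h3 : z * star e ^ j = ((sj : ℤ) : R) * star z1 := by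
        rw [hz, star_mul, star_pow, star_star]
        calc e ^ j * star z1 * star e ^ j = (e ^ j * star e ^ j) * star z1 := by ring
          _ = ((sj : ℤ) : R) * star z1 := by rw [e_mul_star, hsgn]
      rw [h3, PA_tr_int, PA_tr_star, htr]
    have hnz : nm z = sj * nm z1 := by
      rw [hz, nm_star, nm_mul, PA_nm_star_e, ← hsj]
      ring
    have habs : |nm z| = |nm z1| := by
      rw [hnz, abs_mul]
      rcases hsj1 with h | h <;> rw [h] <;> norm_num
    refine ⟨z, u, q, ?_, ⟨⟨-q, by rw [hzim]; ring⟩, ⟨sj * u, ?_⟩⟩, hu, hq, Or.inr ?_⟩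
    · intro hz0
      have h3 : Y r * q = 0 := by
        have h4 : z.im = 0 := by rw [hz0]; rfl
        rw [hzim] at h4
        linarith
      have h4 : X r * u = 0 := by
        have h5 : A j z = 0 := by
          rw [A_eq, hz0]
          simp
        rw [hAz] at h5
        rcases mul_eq_zero.mp h5 with h | h
        · rcases hsj1 with h6 | h6 <;> rw [h6] at h <;> norm_num at h
        · exact h
      have h5 : u = 0 := by
        rcases mul_eq_zero.mp h4 with h | h
        · exact absurd h hXr.ne'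
        · exact h
      have h6 : q = 0 := by
        rcases mul_eq_zero.mp h3 with h | h
        · exact absurd h hYr.ne'
        · exact h
      exact hxne h5 h6
    · rw [hAz]; ring
    · rw [habs]
      have hNz : X j ^ 2 * nm z1 = sj * X r ^ 2 * u ^ 2 - 5 * Y j * X r * Y r * u * q
            - 5 * Y r ^ 2 * q ^ 2 := by
        have h3 : X j ^ 2 * nm z1 = (X j * z1.re) * (X j * z1.re) +
            (X j * z1.re) * (X j * z1.im) - (X j * z1.im) * (X j * z1.im) := by
          unfold nm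
          ring
        have h4 := WY j
        have hre' : X j * z1.re = -(Y r * q) + W j * (X r * u) := by linarith
        have him' : X j * z1.im = 2 * (Y r * q) + Y j * (X r * u) := by linarith
        rw [h3, hre', him']
        rw [← hsj] at h4
        linear_combination ((X r * u) ^ 2) * h4
      have hidZ : X j ^ 2 * (nm z1 * (X t * Y t) - (-1) * nm x * (X r * Y r)) =
          sr' * ((2 * X (t - r)) * (sj * (u ^ 2 * X r * Y t)) +
            (2 * X (t - r)) * (1 * (q ^ 2 * X t * Y r))) := by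
        have hd : X t * X r - 5 * (Y t * Y r) = sr' * (2 * X (t - r)) := by
          rw [hXsub]
          linear_combination (-(X t * X r - 5 * (Y t * Y r))) * hsr2
        linear_combination (X t * Y t) * hNz + (X r * Y r) * hNx +
          (sj * u ^ 2 * X r * Y t + q ^ 2 * X t * Y r) * hd
      refine PA_close (Or.inr rfl) (by positivity) (by positivity) hidZ hsr1 ?_
      exact PA_sum (by positivity) (by positivity) (by positivity) hsj1 (Or.inl rfl)

end Pool.Agent.Helper65.KF
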