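import Pool.Agent.Helper65.KF.Cg

/-!
Project KF, module PB: the point of the descent for type B (adapt Helper65/KT/PB.lean).
x.im = Y_t u, B_j x = X_t q, B_eq: Y_j x.re = W_j Y_t u - X_t q ≡ W_j^k (W_j Y_r u - X_r q) mod Y_j (mod_Y), and
W_j is prime to Y_j (WY_coprime): W_j Y_r u - X_r q = Y_j w, z = ⟨w, Y_r u⟩.  With s_j = (-1)^j (WY j):
Y_j² nm x = B² - X_j im B + s_j im², so
Y_j² (nm z X_t Y_t - nm x X_r Y_r) = (X_r Y_t - X_t Y_r) (q² X_r X_t - s_j u² Y_r Y_t),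
X_r Y_t - X_t Y_r = 2 s_r Y_(t-r) (Y_sub).  Take absolute values.
-/

namespace Pool.Agent.Helper65.KF

open Pool.Agent.Helper20 Pool.Agent.Helper20.MC

theorem PB_point {t j r k : ℕ} (hr : 1 ≤ r) (hrj : r < j)
    (ht : t = r + k * j) {x : R} (hx : x ≠ 0) (hL : LB t j x) :
    ∃ (z : R) (u q : ℤ), z ≠ 0 ∧ LB r j z ∧ x.im = Y t * u ∧ B j x = X t * q ∧
      Y j ^ 2 * (|nm z| * (X t * Y t)) ≤ Y j ^ 2 * (|nm x| * (X r * Y r)) +
        2 * Y (t - r) * (q ^ 2 * X r * X t + u ^ 2 * Y r * Y t) := by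
  obtain ⟨⟨u, hu⟩, ⟨q, hq⟩⟩ := hL
  obtain ⟨h1, h2⟩ := mod_Y j r k
  rw [← ht] at h1 h2
  have hB := B_eq j x
  rw [hq, hu] at hB
  have hre : Y j * x.re = W j * (Y t * u) - X t * q := by linarith
  have hd1 : Y j ∣ W j ^ k * (W j * Y r * u - X r * q) := by
    have e1 : W j ^ k * (W j * Y r * u - X r * q) =
        Y j * x.re - (W j * u) * (Y t - W j ^ k * Y r) +
          q * (X t - W j ^ k * X r) := by
      rw [hre]; ring
    rw [e1]
    exact dvd_add (dvd_sub (dvd_mul_right _ _) (dvd_mul_of_dvd_right h2 _))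
      (dvd_mul_of_dvd_right h1 _)
  have hcop : IsCoprime (Y j) (W j ^ k) := (WY_coprime j).pow_right
  obtain ⟨w, hw⟩ := hcop.dvd_of_dvd_mul_left hd1
  have hYj : 0 < Y j := Y_pos (by omega)
  have hYr : 0 < Y r := Y_pos hr
  have hXr : 0 < X r := X_pos r
  have hXt : 0 < X t := X_pos t
  have hYt : 0 < Y t := Y_pos (by rw [ht]; omega)
  have hBz : B j (⟨w, Y r * u⟩ : R) = X r * q := by
    rw [B_eq]
    show W j * (Y r * u) - Y j * w = X r * q
    linarith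
  have hrt : r ≤ t := by rw [ht]; exact Nat.le_add_right _ _
  have hΔ : X r * Y t - X t * Y r = (-1) ^ r * (2 * Y (t - r)) := by
    rw [Y_sub hrt]
    linear_combination (-(Y t * X r - X t * Y r)) * sgn_sq r
  have hΔ0 : 0 ≤ 2 * Y (t - r) := mul_nonneg (by norm_num) (Y_nonneg _)
  refine ⟨⟨w, Y r * u⟩, u, q, ?_, ⟨⟨u, rfl⟩, ⟨q, hBz⟩⟩, hu, hq, ?_⟩
  · intro h0
    have hw0 : w = 0 := congrArg QuadraticAlgebra.re h0
    have hu0 : Y r * u = 0 := congrArg QuadraticAlgebra.im h0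
    have hu1 : u = 0 := (mul_eq_zero.1 hu0).resolve_left hYr.ne'
    have hq1 : q = 0 := by
      rw [hw0, hu1] at hw
      have : X r * q = 0 := by linarith
      exact (mul_eq_zero.1 this).resolve_left hXr.ne'
    apply hx
    apply R_ext
    · rw [hu1, hq1] at hre
      have : Y j * x.re = 0 := by rw [hre]; ring
      exact (mul_eq_zero.1 this).resolve_left hYj.ne'
    · rw [hu, hu1, mul_zero]; rfl
  · obtain ⟨N, hN⟩ : ∃ N : ℤ, N = nm (⟨w, Y r * u⟩ : R) := ⟨_, rfl⟩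
    obtain ⟨M, hM⟩ : ∃ M : ℤ, M = nm x := ⟨_, rfl⟩
    have hp := WY j
    have hXj : X j = 2 * W j + Y j := rfl
    have hNz : Y j ^ 2 * N = (-1) ^ j * Y r ^ 2 * u ^ 2 - X j * X r * Y r * u * q +
        X r ^ 2 * q ^ 2 := by
      rw [hN]
      show Y j ^ 2 * (w * w + w * (Y r * u) - (Y r * u) * (Y r * u)) = _
      have e2 : Y j ^ 2 * (w * w + w * (Y r * u) - (Y r * u) * (Y r * u)) =
          (Y j * w) ^ 2 + (Y j * w) * Y j * (Y r * u) - Y j ^ 2 * (Y r * u) ^ 2 := by ring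
      rw [e2, ← hw, hXj]
      linear_combination (Y r ^ 2 * u ^ 2) * hp
    have hNx : Y j ^ 2 * M = (-1) ^ j * Y t ^ 2 * u ^ 2 - X j * X t * Y t * u * q +
        X t ^ 2 * q ^ 2 := by
      rw [hM]
      have e2 : Y j ^ 2 * nm x =
          (Y j * x.re) ^ 2 + (Y j * x.re) * Y j * x.im - Y j ^ 2 * x.im ^ 2 := by
        unfold nm
        ring
      rw [e2, hre, hu, hXj]
      linear_combination (Y t ^ 2 * u ^ 2) * hp
    rw [← hN, ← hM]
    have hid : Y j ^ 2 * (N * (X t * Y t)) = Y j ^ 2 * (M * (X r * Y r)) +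
        (-1) ^ r * (2 * Y (t - r)) *
          (q ^ 2 * X r * X t - (-1) ^ j * u ^ 2 * Y r * Y t) := by
      rw [← hΔ]
      linear_combination (X t * Y t) * hNz - (X r * Y r) * hNx
    have hP : 0 ≤ q ^ 2 * X r * X t := by positivity
    have hQ : 0 ≤ u ^ 2 * Y r * Y t := by positivity
    have habs : |(-1) ^ r * (2 * Y (t - r)) *
          (q ^ 2 * X r * X t - (-1) ^ j * u ^ 2 * Y r * Y t)| ≤
        2 * Y (t - r) * (q ^ 2 * X r * X t + u ^ 2 * Y r * Y t) := by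
      rw [abs_mul, abs_mul, abs_of_nonneg hΔ0, abs_pow, abs_neg, abs_one, one_pow, one_mul]
      apply mul_le_mul_of_nonneg_left _ hΔ0
      rw [abs_le]
      rcases sgn j with h | h <;> rw [h] <;> constructor <;> linarith
    have hA : Y j ^ 2 * (|N| * (X t * Y t)) = |Y j ^ 2 * (N * (X t * Y t))| := by
      rw [abs_mul, abs_mul, abs_of_pos (by positivity : 0 < Y j ^ 2),
        abs_of_pos (by positivity : 0 < X t * Y t)]
    have hC : Y j ^ 2 * (|M| * (X r * Y r)) = |Y j ^ 2 * (M * (X r * Y r))| := by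
      rw [abs_mul, abs_mul, abs_of_pos (by positivity : 0 < Y j ^ 2),
        abs_of_pos (by positivity : 0 < X r * Y r)]
    rw [hA, hC, hid]
    refine (abs_add_le _ _).trans ?_
    linarith

end Pool.Agent.Helper65.KF
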