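import Pool.Agent.Helper65.KF.Bd
import Pool.Agent.Helper65.KF.PB
import Pool.Agent.Helper65.KF.PA

/-!
Project KF, module DE: the descents for r ≥ 12 (crude constants; adapt Helper65/KT/DE.lean).  n = |nm x|,
E = ε^(2j), F = 103684/4096 * 2^r ≤ X_r² (Y_twelve: X_12 = 322; X_(r+1) ≥ 1.5 X_r as 5 Y_r ≥ 2 X_r), 5 Y_r² ≥ X_r² - 4.
2 X_t = X_(t-r) X_r + 5 Y_(t-r) Y_r, 2 Y_t = X_(t-r) Y_r + Y_(t-r) X_r (two_X_add, two_Y_add), so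
5 Y_(t-r) Y_r ≤ 2 X_t, Y_(t-r) X_r ≤ 2 Y_t, X_(t-r) Y_r ≤ 2 Y_t, X_(t-r) X_r ≤ 2 X_t.
B: u² Y_t² = im² ≤ 4/5 n E ≤ 5 n Y_j² (im_bd, ep_le_Y, Y_j large), q² X_t² ≤ 5 n Y_j² (B_bd); the error is at most
5 n Y_j² (4 X_r / (5 Y_r) + 4 Y_r / X_r), about 40 n Y_j² X_r Y_r / X_r².
A: q² X_t² ≤ 4 n E ≤ 5 n X_j², 5 u² Y_t² ≤ 5 n X_j² (A_bd, im_bd, ep_le_X): both errors are at most about
40 n X_j² X_r Y_r / X_r².  There is room up to 100 / F.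
-/

namespace Pool.Agent.Helper65.KF

open Pool.Agent.Helper20 Pool.Agent.Helper20.MC

private theorem DE_X {r : ℕ} (hr : 12 ≤ r) : (322 : ℝ) ≤ X r := by
  have h : (322 : ℤ) ≤ X r := by
    rcases Nat.eq_or_lt_of_le hr with h1 | h1
    · rw [← h1, Y_twelve.2]
    · have h2 := X_lt (show 1 ≤ 12 by norm_num) h1
      rw [Y_twelve.2] at h2
      exact h2.le
  exact_mod_cast h

private theorem DE_pell (r : ℕ) : (X r : ℝ) ^ 2 - 4 ≤ 5 * (Y r : ℝ) ^ 2 := by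
  have h2 : (X r : ℝ) ^ 2 - 5 * (Y r : ℝ) ^ 2 = 4 * (-1) ^ r := by exact_mod_cast pell r
  have h3 : ((-1 : ℝ)) ^ r ≤ 1 := by
    rcases neg_one_pow_eq_or ℝ r with h | h <;> rw [h] <;> norm_num
  linarith

private theorem DE_pow {r : ℕ} (hr : 12 ≤ r) : (103684 / 4096 * 2 ^ r : ℝ) ≤ (X r : ℝ) ^ 2 := by
  induction r, hr using Nat.le_induction with
  | base =>
    rw [Y_twelve.2]
    norm_num
  | succ r hr ih =>
    have h1 : (2 : ℝ) * X (r + 1) = X r + 5 * Y r := by exact_mod_cast two_X_succ r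
    have h2 := DE_X hr
    have h3 : (0 : ℝ) ≤ Y r := by exact_mod_cast Y_nonneg r
    have h4 := DE_pell r
    have h5 : (2 : ℝ) * X r ≤ 5 * Y r := by
      by_contra hc
      push Not at hc
      nlinarith
    have h6 : (3 / 2 : ℝ) * X r ≤ X (r + 1) := by linarith
    have h7 : ((3 / 2 : ℝ) * X r) ^ 2 ≤ (X (r + 1) : ℝ) ^ 2 :=
      pow_le_pow_left₀ (by positivity) h6 2
    have h8 : (0 : ℝ) ≤ (X r : ℝ) ^ 2 := by positivity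
    calc (103684 / 4096 * 2 ^ (r + 1) : ℝ) = 2 * (103684 / 4096 * 2 ^ r) := by ring
      _ ≤ 2 * (X r : ℝ) ^ 2 := by linarith
      _ ≤ 9 / 4 * (X r : ℝ) ^ 2 := by linarith
      _ = ((3 / 2 : ℝ) * X r) ^ 2 := by ring
      _ ≤ _ := h7

private theorem DE_close {P Q F A2 B2 J T S : ℝ} (hJ : 0 < J) (hF : 0 < F) (hP0 : 0 ≤ P)
    (hQ0 : 0 ≤ Q) (hP : P * A2 ≤ 20 * (J * S)) (hQ : Q * B2 ≤ 20 * (J * S)) (hA : 3 / 4 * F ≤ A2)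
    (hB : F ≤ B2) (hmain : J * T ≤ J * S + (P + Q)) : T ≤ S * (1 + 100 / F) := by
  have h1 : P * (3 / 4 * F) ≤ 20 * (J * S) := (mul_le_mul_of_nonneg_left hA hP0).trans hP
  have h2 : Q * F ≤ 20 * (J * S) := (mul_le_mul_of_nonneg_left hB hQ0).trans hQ
  have h3 : 0 ≤ J * S := by
    have : 0 ≤ Q * F := mul_nonneg hQ0 hF.le
    linarith
  have h4 : (P + Q) * F ≤ 100 * (J * S) := by nlinarith
  have h5 : P + Q ≤ J * S * (100 / F) := by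
    rw [mul_div_assoc', le_div_iff₀ hF]
    linarith
  refine le_of_mul_le_mul_left ?_ hJ
  calc J * T ≤ J * S + (P + Q) := hmain
    _ ≤ J * S + J * S * (100 / F) := by linarith
    _ = J * (S * (1 + 100 / F)) := by ring

/-- sizes common to both types -/
private theorem DE_sizes {t r : ℕ} (hr : 12 ≤ r) (hrt : r ≤ t) :
    (0 : ℝ) < X r ∧ (0 : ℝ) < Y r ∧ (0 : ℝ) < X t ∧ (0 : ℝ) < Y t ∧ (0 : ℝ) ≤ X (t - r) ∧
      (0 : ℝ) ≤ Y (t - r) ∧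
      2 * (X t : ℝ) = X (t - r) * X r + 5 * (Y (t - r) * Y r) ∧
      2 * (Y t : ℝ) = X (t - r) * Y r + Y (t - r) * X r ∧
      (0 : ℝ) < 103684 / 4096 * 2 ^ r ∧
      3 / 4 * (103684 / 4096 * 2 ^ r : ℝ) ≤ 5 * (Y r : ℝ) ^ 2 := by
  refine ⟨by exact_mod_cast X_pos r, by exact_mod_cast Y_pos (show 1 ≤ r by omega),
    by exact_mod_cast X_pos t, by exact_mod_cast Y_pos (show 1 ≤ t by omega),
    by exact_mod_cast (X_pos (t - r)).le, by exact_mod_cast Y_nonneg (t - r), ?_, ?_,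
    by positivity, ?_⟩
  · have h := two_X_add (t - r) r
    rw [Nat.sub_add_cancel hrt] at h
    exact_mod_cast h
  · have h := two_Y_add (t - r) r
    rw [Nat.sub_add_cancel hrt] at h
    exact_mod_cast h
  · have h1 := DE_pow hr
    have h2 := DE_pell r
    have h4 : (4096 : ℝ) ≤ 2 ^ r := by
      calc (4096 : ℝ) = 2 ^ 12 := by norm_num
        _ ≤ 2 ^ r := pow_le_pow_right₀ (by norm_num) hr
    linarith

theorem descB {t j r k : ℕ} (hr : 12 ≤ r) (hrj : r < j) (hk : 1 ≤ k)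
    (ht : t = r + k * j) {x : R} (hx : x ≠ 0) (hL : LB t j x)
    (h1 : |ps x| ≤ |ph x|) (h2 : |ph x| ≤ ep ^ (2 * j) * |ps x|) :
    ∃ z : R, z ≠ 0 ∧ LB r j z ∧
      |(nm z : ℝ)| * ((X t : ℝ) * Y t) ≤
        |(nm x : ℝ)| * ((X r : ℝ) * Y r) * (1 + 100 / (103684 / 4096 * 2 ^ r)) := by
  obtain ⟨z, u, q, hz, hLz, hu, hq, hid⟩ := PB_point (show 1 ≤ r by omega) hrj ht hx hL
  refine ⟨z, hz, hLz, ?_⟩
  obtain ⟨hXr, hYr, hXt, hYt, hX0, hY0, hX, hY, hF, hY2⟩ :=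
    DE_sizes (t := t) hr (by rw [ht]; exact Nat.le_add_right _ _)
  have hYj1 : (144 : ℝ) ≤ Y j := by
    have h3 : Y 12 ≤ Y j := Y_mono (by omega)
    rw [Y_twelve.1] at h3
    exact_mod_cast h3
  have hYj2 : (2 : ℝ) ≤ (Y j : ℝ) ^ 2 := by nlinarith
  have hn0 : 0 ≤ |(nm x : ℝ)| := abs_nonneg _
  have hE : 4 * |(nm x : ℝ)| * ep ^ (2 * j) ≤ 25 * |(nm x : ℝ)| * (Y j : ℝ) ^ 2 := by
    have h3 := mul_le_mul_of_nonneg_left (ep_le_Y j) hn0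
    have h4 := mul_le_mul_of_nonneg_left hYj2 hn0
    nlinarith
  have hub : (u : ℝ) ^ 2 * (Y t : ℝ) ^ 2 ≤ 5 * |(nm x : ℝ)| * (Y j : ℝ) ^ 2 := by
    have h3 := im_bd h1 h2
    rw [hu, Int.cast_mul] at h3
    have h4 : ((Y t : ℝ) * (u : ℝ)) ^ 2 = (u : ℝ) ^ 2 * (Y t : ℝ) ^ 2 := by ring
    rw [h4] at h3
    linarith
  have hqb : (q : ℝ) ^ 2 * (X t : ℝ) ^ 2 ≤ 5 * |(nm x : ℝ)| * (Y j : ℝ) ^ 2 := by
    have h3 := B_bd h1 h2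
    rw [hq, Int.cast_mul] at h3
    have h4 : ((X t : ℝ) * (q : ℝ)) ^ 2 = (q : ℝ) ^ 2 * (X t : ℝ) ^ 2 := by ring
    rw [h4] at h3
    linarith
  have hid' : (Y j : ℝ) ^ 2 * (|(nm z : ℝ)| * ((X t : ℝ) * Y t)) ≤
      (Y j : ℝ) ^ 2 * (|(nm x : ℝ)| * ((X r : ℝ) * Y r)) +
        2 * (Y (t - r) : ℝ) * ((q : ℝ) ^ 2 * X r * X t + (u : ℝ) ^ 2 * Y r * Y t) := by
    exact_mod_cast hid
  have hXY : (0 : ℝ) < (X r : ℝ) * Y r := mul_pos hXr hYr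
  have e5 : 4 * ((5 * |(nm x : ℝ)| * (Y j : ℝ) ^ 2) * ((X r : ℝ) * Y r)) =
      20 * ((Y j : ℝ) ^ 2 * (|(nm x : ℝ)| * ((X r : ℝ) * Y r))) := by ring
  refine DE_close (P := 2 * (Y (t - r) : ℝ) * ((q : ℝ) ^ 2 * X r * X t))
    (Q := 2 * (Y (t - r) : ℝ) * ((u : ℝ) ^ 2 * Y r * Y t)) (J := (Y j : ℝ) ^ 2)
    (A2 := 5 * (Y r : ℝ) ^ 2) (B2 := (X r : ℝ) ^ 2) (by positivity) hF
    (by positivity) (by positivity) ?_ ?_ hY2 (DE_pow hr) (by linarith)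
  · have h3 : 5 * ((Y (t - r) : ℝ) * Y r) ≤ 2 * X t := by
      have : (0 : ℝ) ≤ X (t - r) * X r := by positivity
      linarith
    calc 2 * (Y (t - r) : ℝ) * ((q : ℝ) ^ 2 * X r * X t) * (5 * (Y r : ℝ) ^ 2)
        = (2 * ((q : ℝ) ^ 2 * X r * X t * Y r)) * (5 * ((Y (t - r) : ℝ) * Y r)) := by ring
      _ ≤ (2 * ((q : ℝ) ^ 2 * X r * X t * Y r)) * (2 * X t) :=
        mul_le_mul_of_nonneg_left h3 (by positivity)
      _ = 4 * (((q : ℝ) ^ 2 * (X t : ℝ) ^ 2) * ((X r : ℝ) * Y r)) := by ring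
      _ ≤ 4 * ((5 * |(nm x : ℝ)| * (Y j : ℝ) ^ 2) * ((X r : ℝ) * Y r)) :=
        mul_le_mul_of_nonneg_left (mul_le_mul_of_nonneg_right hqb hXY.le) (by norm_num)
      _ = _ := e5
  · have h3 : (Y (t - r) : ℝ) * X r ≤ 2 * Y t := by
      have : (0 : ℝ) ≤ X (t - r) * Y r := by positivity
      linarith
    calc 2 * (Y (t - r) : ℝ) * ((u : ℝ) ^ 2 * Y r * Y t) * (X r : ℝ) ^ 2
        = (2 * ((u : ℝ) ^ 2 * Y r * Y t * X r)) * ((Y (t - r) : ℝ) * X r) := by ring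
      _ ≤ (2 * ((u : ℝ) ^ 2 * Y r * Y t * X r)) * (2 * Y t) :=
        mul_le_mul_of_nonneg_left h3 (by positivity)
      _ = 4 * (((u : ℝ) ^ 2 * (Y t : ℝ) ^ 2) * ((X r : ℝ) * Y r)) := by ring
      _ ≤ 4 * ((5 * |(nm x : ℝ)| * (Y j : ℝ) ^ 2) * ((X r : ℝ) * Y r)) :=
        mul_le_mul_of_nonneg_left (mul_le_mul_of_nonneg_right hub hXY.le) (by norm_num)
      _ = _ := e5

theorem descA {t j r k : ℕ} (hr : 12 ≤ r) (hrj : r < j) (hk : 1 ≤ k)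
    (ht : t = r + k * j) {x : R} (hx : x ≠ 0) (hL : LA t j x)
    (h1 : |ps x| ≤ |ph x|) (h2 : |ph x| ≤ ep ^ (2 * j) * |ps x|) :
    ∃ z : R, z ≠ 0 ∧ LA r j z ∧
      |(nm z : ℝ)| * ((X t : ℝ) * Y t) ≤
        |(nm x : ℝ)| * ((X r : ℝ) * Y r) * (1 + 100 / (103684 / 4096 * 2 ^ r)) := by
  obtain ⟨z, u, q, hz, hLz, hu, hq, hid⟩ := PA_point (show 1 ≤ r by omega) hrj ht hx hL
  refine ⟨z, hz, hLz, ?_⟩
  obtain ⟨hXr, hYr, hXt, hYt, hX0, hY0, hX, hY, hF, hY2⟩ :=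
    DE_sizes (t := t) hr (by rw [ht]; exact Nat.le_add_right _ _)
  have hXj1 : (322 : ℝ) ≤ X j := DE_X (by omega)
  have hXj2 : (8 : ℝ) ≤ (X j : ℝ) ^ 2 := by nlinarith
  have hn0 : 0 ≤ |(nm x : ℝ)| := abs_nonneg _
  have hE : 4 * |(nm x : ℝ)| * ep ^ (2 * j) ≤ 5 * |(nm x : ℝ)| * (X j : ℝ) ^ 2 := by
    have h3 := mul_le_mul_of_nonneg_left (ep_le_X j) hn0
    have h4 := mul_le_mul_of_nonneg_left hXj2 hn0
    nlinarith
  have hub : 5 * (u : ℝ) ^ 2 * (Y t : ℝ) ^ 2 ≤ 5 * |(nm x : ℝ)| * (X j : ℝ) ^ 2 := by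
    have h3 := im_bd h1 h2
    rw [hu, Int.cast_mul] at h3
    have h4 : ((Y t : ℝ) * (u : ℝ)) ^ 2 = (u : ℝ) ^ 2 * (Y t : ℝ) ^ 2 := by ring
    rw [h4] at h3
    linarith
  have hqb : (q : ℝ) ^ 2 * (X t : ℝ) ^ 2 ≤ 5 * |(nm x : ℝ)| * (X j : ℝ) ^ 2 := by
    have h3 := A_bd h1 h2
    rw [hq, Int.cast_mul] at h3
    have h4 : ((X t : ℝ) * (q : ℝ)) ^ 2 = (q : ℝ) ^ 2 * (X t : ℝ) ^ 2 := by ring
    rw [h4] at h3
    linarith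
  have hXY : (0 : ℝ) < (X r : ℝ) * Y r := mul_pos hXr hYr
  have e5 : 4 * ((5 * |(nm x : ℝ)| * (X j : ℝ) ^ 2) * ((X r : ℝ) * Y r)) =
      20 * ((X j : ℝ) ^ 2 * (|(nm x : ℝ)| * ((X r : ℝ) * Y r))) := by ring
  rcases hid with hid | hid
  · have hid' : (X j : ℝ) ^ 2 * (|(nm z : ℝ)| * ((X t : ℝ) * Y t)) ≤
        (X j : ℝ) ^ 2 * (|(nm x : ℝ)| * ((X r : ℝ) * Y r)) +
          2 * (Y (t - r) : ℝ) * ((q : ℝ) ^ 2 * X r * X t + 5 * (u : ℝ) ^ 2 * Y r * Y t) := by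
      exact_mod_cast hid
    refine DE_close (P := 2 * (Y (t - r) : ℝ) * ((q : ℝ) ^ 2 * X r * X t))
      (Q := 2 * (Y (t - r) : ℝ) * (5 * (u : ℝ) ^ 2 * Y r * Y t)) (J := (X j : ℝ) ^ 2)
      (A2 := 5 * (Y r : ℝ) ^ 2) (B2 := (X r : ℝ) ^ 2) (by positivity) hF
      (by positivity) (by positivity) ?_ ?_ hY2 (DE_pow hr) (by linarith)
    · have h3 : 5 * ((Y (t - r) : ℝ) * Y r) ≤ 2 * X t := by
        have : (0 : ℝ) ≤ X (t - r) * X r := by positivity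
        linarith
      calc 2 * (Y (t - r) : ℝ) * ((q : ℝ) ^ 2 * X r * X t) * (5 * (Y r : ℝ) ^ 2)
          = (2 * ((q : ℝ) ^ 2 * X r * X t * Y r)) * (5 * ((Y (t - r) : ℝ) * Y r)) := by ring
        _ ≤ (2 * ((q : ℝ) ^ 2 * X r * X t * Y r)) * (2 * X t) :=
          mul_le_mul_of_nonneg_left h3 (by positivity)
        _ = 4 * (((q : ℝ) ^ 2 * (X t : ℝ) ^ 2) * ((X r : ℝ) * Y r)) := by ring
        _ ≤ 4 * ((5 * |(nm x : ℝ)| * (X j : ℝ) ^ 2) * ((X r : ℝ) * Y r)) :=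
          mul_le_mul_of_nonneg_left (mul_le_mul_of_nonneg_right hqb hXY.le) (by norm_num)
        _ = _ := e5
    · have h3 : (Y (t - r) : ℝ) * X r ≤ 2 * Y t := by
        have : (0 : ℝ) ≤ X (t - r) * Y r := by positivity
        linarith
      calc 2 * (Y (t - r) : ℝ) * (5 * (u : ℝ) ^ 2 * Y r * Y t) * (X r : ℝ) ^ 2
          = (2 * (5 * (u : ℝ) ^ 2 * Y r * Y t * X r)) * ((Y (t - r) : ℝ) * X r) := by ring
        _ ≤ (2 * (5 * (u : ℝ) ^ 2 * Y r * Y t * X r)) * (2 * Y t) :=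
          mul_le_mul_of_nonneg_left h3 (by positivity)
        _ = 4 * ((5 * (u : ℝ) ^ 2 * (Y t : ℝ) ^ 2) * ((X r : ℝ) * Y r)) := by ring
        _ ≤ 4 * ((5 * |(nm x : ℝ)| * (X j : ℝ) ^ 2) * ((X r : ℝ) * Y r)) :=
          mul_le_mul_of_nonneg_left (mul_le_mul_of_nonneg_right hub hXY.le) (by norm_num)
        _ = _ := e5
  · have hid' : (X j : ℝ) ^ 2 * (|(nm z : ℝ)| * ((X t : ℝ) * Y t)) ≤
        (X j : ℝ) ^ 2 * (|(nm x : ℝ)| * ((X r : ℝ) * Y r)) +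
          2 * (X (t - r) : ℝ) * ((u : ℝ) ^ 2 * X r * Y t + (q : ℝ) ^ 2 * X t * Y r) := by
      exact_mod_cast hid
    refine DE_close (P := 2 * (X (t - r) : ℝ) * ((u : ℝ) ^ 2 * X r * Y t))
      (Q := 2 * (X (t - r) : ℝ) * ((q : ℝ) ^ 2 * X t * Y r)) (J := (X j : ℝ) ^ 2)
      (A2 := 5 * (Y r : ℝ) ^ 2) (B2 := (X r : ℝ) ^ 2) (by positivity) hF
      (by positivity) (by positivity) ?_ ?_ hY2 (DE_pow hr) (by linarith)
    · have h3 : (X (t - r) : ℝ) * Y r ≤ 2 * Y t := by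
        have : (0 : ℝ) ≤ Y (t - r) * X r := by positivity
        linarith
      calc 2 * (X (t - r) : ℝ) * ((u : ℝ) ^ 2 * X r * Y t) * (5 * (Y r : ℝ) ^ 2)
          = (10 * ((u : ℝ) ^ 2 * X r * Y t * Y r)) * ((X (t - r) : ℝ) * Y r) := by ring
        _ ≤ (10 * ((u : ℝ) ^ 2 * X r * Y t * Y r)) * (2 * Y t) :=
          mul_le_mul_of_nonneg_left h3 (by positivity)
        _ = 4 * ((5 * (u : ℝ) ^ 2 * (Y t : ℝ) ^ 2) * ((X r : ℝ) * Y r)) := by ring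
        _ ≤ 4 * ((5 * |(nm x : ℝ)| * (X j : ℝ) ^ 2) * ((X r : ℝ) * Y r)) :=
          mul_le_mul_of_nonneg_left (mul_le_mul_of_nonneg_right hub hXY.le) (by norm_num)
        _ = _ := e5
    · have h3 : (X (t - r) : ℝ) * X r ≤ 2 * X t := by
        have : (0 : ℝ) ≤ 5 * (Y (t - r) * Y r) := by positivity
        linarith
      calc 2 * (X (t - r) : ℝ) * ((q : ℝ) ^ 2 * X t * Y r) * (X r : ℝ) ^ 2
          = (2 * ((q : ℝ) ^ 2 * X t * Y r * X r)) * ((X (t - r) : ℝ) * X r) := by ring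
        _ ≤ (2 * ((q : ℝ) ^ 2 * X t * Y r * X r)) * (2 * X t) :=
          mul_le_mul_of_nonneg_left h3 (by positivity)
        _ = 4 * (((q : ℝ) ^ 2 * (X t : ℝ) ^ 2) * ((X r : ℝ) * Y r)) := by ring
        _ ≤ 4 * ((5 * |(nm x : ℝ)| * (X j : ℝ) ^ 2) * ((X r : ℝ) * Y r)) :=
          mul_le_mul_of_nonneg_left (mul_le_mul_of_nonneg_right hqb hXY.le) (by norm_num)
        _ = _ := e5

end Pool.Agent.Helper65.KF
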