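import Mathlib
import Pool.Agent.Helper20.MC.Defs

/-!
Project KF (MP_277ac5_nt): cubic growth for ℚ(√5) with all quotients at most 4.
Definitions and Fibonacci facts.  R = ℤ[φ], e = φ (norm -1), e ^ n = W n + Y n φ
(W n = F_(n-1), Y n = F_n), X n = 2 W n + Y n = L_n, B j x = im (x * star e ^ j),
A j x = tr (x * star e ^ j).  The continued fractions run in Red 9 (g t) of project MC, √80 = 4 √5:
g t = mm t * G t, G t = Y (2 t) = X t Y t, 8 mm t = 5 G² + 3 (3 does not divide t).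
-/

namespace Pool.Agent.Helper65.KF

open Pool.Agent.Helper20 Pool.Agent.Helper20.MC

/-- ℤ[φ] -/
abbrev R : Type := QuadraticAlgebra ℤ 1 1

/-- e = φ -/
def e : R := ⟨0, 1⟩

/-- F_(n-1) -/
def W (n : ℕ) : ℤ := (e ^ n).re

/-- F_n -/
def Y (n : ℕ) : ℤ := (e ^ n).im

/-- L_n -/
def X (n : ℕ) : ℤ := 2 * W n + Y n

/-- trace -/
def tr (x : R) : ℤ := 2 * x.re + x.im

/-- norm -/
def nm (x : R) : ℤ := x.re * x.re + x.re * x.im - x.im * x.im

/-- B_j (x) -/
def B (j : ℕ) (x : R) : ℤ := (x * star e ^ j).im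

/-- A_j (x) -/
def A (j : ℕ) (x : R) : ℤ := tr (x * star e ^ j)

/-- Lattice of type B. -/
def LB (t j : ℕ) (x : R) : Prop := Y t ∣ x.im ∧ X t ∣ B j x

/-- Lattice of type A. -/
def LA (t j : ℕ) (x : R) : Prop := Y t ∣ x.im ∧ X t ∣ A j x

/-- The conductor Y (2 t) = X t Y t as a natural number. -/
def G (t : ℕ) : ℕ := (Y (2 * t)).toNat

/-- the scaling factor (5 G² + 3) / 8 -/
def mm (t : ℕ) : ℕ := (5 * G t ^ 2 + 3) / 8

/-- the level -/
def g (t : ℕ) : ℕ := mm t * G t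

/-- The number of the pair p (with √80 g t) is y2 / y1 for a basis y1, y2 of LB t j. -/
def Rel (t j : ℕ) (p : ℤ × ℤ) (σ : ℤ) (y1 y2 : R) : Prop :=
  (σ = 1 ∨ σ = -1) ∧ p.2 = 8 * σ * mm t * nm y1 ∧ p.1 = 4 * σ * mm t * tr (y2 * star y1) ∧
    Y (2 * t) = σ * (y2 * star y1).im ∧ LB t j y1 ∧ LB t j y2 ∧
    ∀ x : R, LB t j x → ∃ m n : ℤ, x = (m : R) * y1 + (n : R) * y2

/-- j has a small inverse modulo t up to sign. -/
def Good (t j : ℕ) : Prop :=
  ∃ s : ℕ, 1 ≤ s ∧ 12 * s ≤ t ∧ ((t : ℤ) ∣ (s : ℤ) * j - 1 ∨ (t : ℤ) ∣ (s : ℤ) * j + 1)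

/-- √5 -/
noncomputable def sr : ℝ := Real.sqrt 5

/-- φ -/
noncomputable def ep : ℝ := (1 + sr) / 2

/-- First real embedding. -/
noncomputable def ph (x : R) : ℝ := x.re + x.im * ((1 + sr) / 2)

/-- Second real embedding. -/
noncomputable def ps (x : R) : ℝ := x.re + x.im * ((1 - sr) / 2)

/-! ### ring facts -/

theorem re_mul (x y : R) : (x * y).re = x.re * y.re + x.im * y.im := by
  rw [QuadraticAlgebra.re_mul]; ring

theorem im_mul (x y : R) : (x * y).im = x.re * y.im + x.im * y.re + x.im * y.im := by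
  rw [QuadraticAlgebra.im_mul]; ring

theorem re_star (x : R) : (star x).re = x.re + x.im := by
  rw [QuadraticAlgebra.re_star]; ring

theorem im_star (x : R) : (star x).im = -x.im := QuadraticAlgebra.im_star x

theorem R_ext {x y : R} (h1 : x.re = y.re) (h2 : x.im = y.im) : x = y :=
  QuadraticAlgebra.ext h1 h2

theorem re_int (n : ℤ) : ((n : R)).re = n := QuadraticAlgebra.re_intCast n

theorem im_int (n : ℤ) : ((n : R)).im = 0 := QuadraticAlgebra.im_intCast n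

theorem nm_mul (x y : R) : nm (x * y) = nm x * nm y := by
  unfold nm
  rw [re_mul, im_mul]
  ring

theorem nm_star (x : R) : nm (star x) = nm x := by
  unfold nm
  rw [re_star, im_star]
  ring

theorem mul_star_nm (x : R) : x * star x = (nm x : R) := by
  apply R_ext
  · rw [re_mul, re_star, im_star, re_int]
    unfold nm
    ring
  · rw [im_mul, re_star, im_star, im_int]
    ring

/-- 4 N = tr² - 5 im². -/
theorem four_nm (x : R) : 4 * nm x = tr x ^ 2 - 5 * x.im ^ 2 := by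
  unfold nm tr
  ring

/-! ### Fibonacci facts -/

theorem W_zero : W 0 = 1 := by simp [W, QuadraticAlgebra.re_one]

theorem Y_zero : Y 0 = 0 := by simp [Y, QuadraticAlgebra.im_one]

theorem e_pow (n : ℕ) : e ^ n = ⟨W n, Y n⟩ := rfl

theorem W_succ (n : ℕ) : W (n + 1) = Y n := by
  unfold W Y
  rw [pow_succ, re_mul]
  simp [e]

theorem Y_succ (n : ℕ) : Y (n + 1) = W n + Y n := by
  unfold W Y
  rw [pow_succ, im_mul]
  simp [e]

theorem W_one : W 1 = 0 := by rw [W_succ, Y_zero]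

theorem Y_one : Y 1 = 1 := by rw [Y_succ, W_zero, Y_zero]; norm_num

theorem X_zero : X 0 = 2 := by rw [X, W_zero, Y_zero]; norm_num

theorem X_one : X 1 = 1 := by rw [X, W_one, Y_one]; norm_num

theorem X_succ (n : ℕ) : X (n + 1) = W n + 3 * Y n := by
  rw [X, W_succ, Y_succ]; ring

theorem W_add (m n : ℕ) : W (m + n) = W m * W n + Y m * Y n := by
  unfold W Y
  rw [pow_add, re_mul]

theorem Y_add (m n : ℕ) : Y (m + n) = W m * Y n + Y m * W n + Y m * Y n := by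
  unfold W Y
  rw [pow_add, im_mul]

theorem two_X_add (m n : ℕ) : 2 * X (m + n) = X m * X n + 5 * (Y m * Y n) := by
  unfold X
  rw [W_add, Y_add]
  ring

theorem two_Y_add (m n : ℕ) : 2 * Y (m + n) = X m * Y n + Y m * X n := by
  unfold X
  rw [Y_add]
  ring

theorem two_X_succ (n : ℕ) : 2 * X (n + 1) = X n + 5 * Y n := by
  rw [two_X_add, X_one, Y_one]; ring

theorem two_Y_succ (n : ℕ) : 2 * Y (n + 1) = X n + Y n := by
  rw [two_Y_add, X_one, Y_one]; ring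

theorem sgn (n : ℕ) : ((-1 : ℤ) ^ n = 1 ∨ (-1 : ℤ) ^ n = -1) := neg_one_pow_eq_or ℤ n

theorem sgn_sq (n : ℕ) : ((-1 : ℤ) ^ n) * (-1) ^ n = 1 := by
  rcases sgn n with h | h <;> rw [h] <;> norm_num

/-- the norm of e ^ n -/
theorem WY (n : ℕ) : W n * W n + W n * Y n - Y n * Y n = (-1) ^ n := by
  induction n with
  | zero => rw [W_zero, Y_zero]; norm_num
  | succ n ih =>
    rw [W_succ, Y_succ, pow_succ (-1 : ℤ) n, ← ih]
    ring

theorem pell (n : ℕ) : X n ^ 2 - 5 * Y n ^ 2 = 4 * (-1) ^ n := by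
  rw [← WY]
  unfold X
  ring

theorem WY_nonneg (n : ℕ) : 0 ≤ W n ∧ 0 ≤ Y n ∧ 0 < W n + Y n := by
  induction n with
  | zero => rw [W_zero, Y_zero]; norm_num
  | succ n ih =>
    obtain ⟨h1, h2, h3⟩ := ih
    rw [W_succ, Y_succ]
    refine ⟨h2, by linarith, by linarith⟩

theorem W_nonneg (n : ℕ) : 0 ≤ W n := (WY_nonneg n).1

theorem Y_nonneg (n : ℕ) : 0 ≤ Y n := (WY_nonneg n).2.1

theorem X_pos (n : ℕ) : 0 < X n := by
  obtain ⟨h1, h2, h3⟩ := WY_nonneg n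
  unfold X
  linarith

theorem Y_le_X (n : ℕ) : Y n ≤ X n := by
  have := W_nonneg n
  unfold X
  linarith

theorem Y_pos {n : ℕ} (hn : 1 ≤ n) : 0 < Y n := by
  obtain ⟨m, rfl⟩ : ∃ m, n = m + 1 := ⟨n - 1, by omega⟩
  rw [Y_succ]
  exact (WY_nonneg m).2.2

theorem Y_le_succ (n : ℕ) : Y n ≤ Y (n + 1) := by
  have := W_nonneg n
  rw [Y_succ]
  linarith

theorem Y_mono : Monotone Y := monotone_nat_of_le_succ Y_le_succ

theorem W_pos {n : ℕ} (hn : 2 ≤ n) : 0 < W n := by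
  obtain ⟨m, rfl⟩ : ∃ m, n = m + 1 := ⟨n - 1, by omega⟩
  rw [W_succ]
  exact Y_pos (by omega)

/-- Y is strictly increasing from 2 on. -/
theorem Y_lt {m n : ℕ} (hm : 2 ≤ m) (h : m < n) : Y m < Y n := by
  have h1 : Y m < Y (m + 1) := by
    have := W_pos hm
    rw [Y_succ]
    linarith
  exact h1.trans_le (Y_mono h)

/-- X is strictly increasing from 1 on. -/
theorem X_lt {m n : ℕ} (hm : 1 ≤ m) (h : m < n) : X m < X n := by
  induction n, h using Nat.le_induction with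
  | base =>
    have h1 := Y_pos hm
    have h2 := two_X_succ m
    have h3 : X m < 5 * Y m := by
      obtain ⟨k, rfl⟩ : ∃ k, m = k + 1 := ⟨m - 1, by omega⟩
      have h4 := (WY_nonneg k)
      rw [X_succ, Y_succ]
      rw [Y_succ] at h1
      linarith [h4.1, h4.2.1]
    linarith
  | succ n hn ih =>
    have h1 := Y_pos (show 1 ≤ n by omega)
    have h2 := two_X_succ n
    have h3 : X n < 5 * Y n := by
      obtain ⟨k, rfl⟩ : ∃ k, n = k + 1 := ⟨n - 1, by omega⟩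
      have h4 := (WY_nonneg k)
      rw [X_succ, Y_succ]
      rw [Y_succ] at h1
      linarith [h4.1, h4.2.1]
    linarith

theorem Y_two_le (n : ℕ) : 2 * Y n ≤ Y (n + 2) := by
  have h1 := Y_le_succ n
  rw [Y_succ (n + 1), W_succ]
  linarith

theorem two_pow_le_Y (n : ℕ) : (2 : ℤ) ^ n ≤ Y (2 * n + 1) := by
  induction n with
  | zero => simp [Y_one]
  | succ n ih =>
    have := Y_two_le (2 * n + 1)
    rw [pow_succ, show 2 * (n + 1) + 1 = 2 * n + 1 + 2 by ring]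
    linarith

theorem Y_twelve : Y 12 = 144 ∧ X 12 = 322 := by
  constructor <;>
  · simp only [X, show (12 : ℕ) = 0 + 1 + 1 + 1 + 1 + 1 + 1 + 1 + 1 + 1 + 1 + 1 + 1 by rfl, Y_succ,
      W_succ, Y_zero, W_zero]
    norm_num

theorem WY_coprime (n : ℕ) : IsCoprime (Y n) (W n) :=
  ⟨-((-1) ^ n * Y n), (-1) ^ n * (W n + Y n), by
    have h1 := WY n
    have h2 := sgn_sq n
    linear_combination ((-1) ^ n) * h1 + h2⟩

theorem X_two_mul (n : ℕ) : X (2 * n) = X n ^ 2 - 2 * (-1) ^ n := by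
  have h1 := two_X_add n n
  have h2 := pell n
  rw [← two_mul] at h1
  linarith

theorem X_two_mul' (n : ℕ) : X (2 * n) = 5 * Y n ^ 2 + 2 * (-1) ^ n := by
  have h1 := two_X_add n n
  have h2 := pell n
  rw [← two_mul] at h1
  linarith

theorem Y_two_mul (n : ℕ) : Y (2 * n) = X n * Y n := by
  have h1 := two_Y_add n n
  rw [← two_mul] at h1
  linarith

theorem X_sub {m n : ℕ} (h : n ≤ m) :
    2 * X (m - n) = (-1) ^ n * (X m * X n - 5 * (Y m * Y n)) := by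
  obtain ⟨k, rfl⟩ := Nat.exists_eq_add_of_le h
  have h1 := pell n
  have h2 := two_X_add n k
  have h3 := two_Y_add n k
  have h4 := sgn_sq n
  rw [Nat.add_sub_cancel_left]
  have h5 : 2 * ((-1) ^ n * (X (n + k) * X n - 5 * (Y (n + k) * Y n))) = 2 * (2 * X k) := by
    linear_combination ((-1) ^ n * X n) * h2 - (5 * (-1) ^ n * Y n) * h3 +
      ((-1) ^ n * X k) * h1 + (4 * X k) * h4
  linarith

theorem Y_sub {m n : ℕ} (h : n ≤ m) :
    2 * Y (m - n) = (-1) ^ n * (Y m * X n - X m * Y n) := by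
  obtain ⟨k, rfl⟩ := Nat.exists_eq_add_of_le h
  have h1 := pell n
  have h2 := two_X_add n k
  have h3 := two_Y_add n k
  have h4 := sgn_sq n
  rw [Nat.add_sub_cancel_left]
  have h5 : 2 * ((-1) ^ n * (Y (n + k) * X n - X (n + k) * Y n)) = 2 * (2 * Y k) := by
    linear_combination ((-1) ^ n * X n) * h3 - ((-1) ^ n * Y n) * h2 +
      ((-1) ^ n * Y k) * h1 + (4 * Y k) * h4
  linarith

theorem star_e_pow (j : ℕ) : star e ^ j = ⟨W j + Y j, -Y j⟩ := by
  rw [← star_pow]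
  apply R_ext
  · rw [re_star]; rfl
  · rw [im_star]; rfl

theorem e_mul_star (n : ℕ) : e ^ n * star e ^ n = (-1) ^ n := by
  rw [← mul_pow]
  congr 1

theorem B_eq (j : ℕ) (x : R) : B j x = W j * x.im - Y j * x.re := by
  unfold B
  rw [star_e_pow, im_mul]
  ring

theorem A_eq (j : ℕ) (x : R) : A j x = X j * x.re + (W j - 2 * Y j) * x.im := by
  unfold A tr X
  rw [star_e_pow, im_mul, re_mul]
  ring

theorem two_B (j : ℕ) (x : R) : 2 * B j x = X j * x.im - Y j * tr x := by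
  rw [B_eq]
  unfold tr X
  ring

theorem two_A (j : ℕ) (x : R) : 2 * A j x = X j * tr x - 5 * (Y j * x.im) := by
  rw [A_eq]
  unfold tr X
  ring

theorem G_cast (t : ℕ) : (G t : ℤ) = Y (2 * t) := Int.toNat_of_nonneg (Y_nonneg _)

theorem G_cast' (t : ℕ) : (G t : ℤ) = X t * Y t := by rw [G_cast, Y_two_mul]

theorem G_pos {t : ℕ} (ht : 1 ≤ t) : 1 ≤ G t := by
  have h := Y_pos (show 1 ≤ 2 * t by omega)
  rw [← G_cast t] at h
  exact_mod_cast h

/-- parity: Y n is even iff 3 divides n -/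
theorem Y_odd {n : ℕ} (h : ¬ 3 ∣ n) : Odd (Y n) := by
  have key : ∀ k : ℕ, Even (Y (3 * k)) ∧ Odd (W (3 * k)) := by
    intro k
    induction k with
    | zero => simp [Y_zero, W_zero]
    | succ k ih =>
      obtain ⟨h1, h2⟩ := ih
      have e1 : Y (3 * (k + 1)) = 2 * W (3 * k) + 3 * Y (3 * k) := by
        rw [show 3 * (k + 1) = 3 * k + 1 + 1 + 1 by ring, Y_succ (3 * k + 1 + 1),
          W_succ (3 * k + 1), Y_succ (3 * k + 1), W_succ (3 * k), Y_succ (3 * k)]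
        ring
      have e2 : W (3 * (k + 1)) = W (3 * k) + 2 * Y (3 * k) := by
        rw [show 3 * (k + 1) = 3 * k + 1 + 1 + 1 by ring, W_succ (3 * k + 1 + 1),
          Y_succ (3 * k + 1), W_succ (3 * k), Y_succ (3 * k)]
        ring
      rw [e1, e2]
      obtain ⟨a, ha⟩ := h1
      obtain ⟨b, hb⟩ := h2
      exact ⟨⟨W (3 * k) + 3 * a, by rw [ha]; ring⟩, ⟨b + Y (3 * k), by rw [hb]; ring⟩⟩
  obtain ⟨h1, h2⟩ := key (n / 3)
  have h3 : n % 3 = 1 ∨ n % 3 = 2 := by omega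
  obtain ⟨a, ha⟩ := h1
  obtain ⟨b, hb⟩ := h2
  rcases h3 with h3 | h3
  · have e : n = 3 * (n / 3) + 1 := by omega
    rw [e, Y_succ, ha, hb]
    exact ⟨b + a, by ring⟩
  · have e : n = 3 * (n / 3) + 1 + 1 := by omega
    rw [e, Y_succ, W_succ, Y_succ, ha, hb]
    exact ⟨b + 2 * a, by ring⟩

theorem mm_cast {t : ℕ} (h : ¬ 3 ∣ t) : 8 * (mm t : ℤ) = 5 * Y (2 * t) ^ 2 + 3 := by
  have h1 : Odd (G t) := by
    have h2 := Y_odd (show ¬ 3 ∣ 2 * t by omega)
    rw [← G_cast] at h2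
    exact_mod_cast h2
  obtain ⟨a, ha⟩ := h1
  obtain ⟨b, hb⟩ : ∃ b, a * (a + 1) = b + b := Nat.even_mul_succ_self a
  have h3 : 5 * G t ^ 2 + 3 = 8 * (5 * b + 1) := by
    rw [ha]
    nlinarith
  have h4 : mm t = 5 * b + 1 := by
    unfold mm
    omega
  rw [← G_cast, h4]
  have h5 : ((5 * G t ^ 2 + 3 : ℕ) : ℤ) = ((8 * (5 * b + 1) : ℕ) : ℤ) := by rw [h3]
  push_cast at h5 ⊢
  linarith

theorem mm_pos {t : ℕ} (ht : 1 ≤ t) (h : ¬ 3 ∣ t) : 0 < mm t := by
  have h1 := mm_cast h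
  have h2 := Y_pos (show 1 ≤ 2 * t by omega)
  have h3 : (0 : ℤ) < mm t := by nlinarith
  exact_mod_cast h3

theorem g_pos {t : ℕ} (ht : 1 ≤ t) (h : ¬ 3 ∣ t) : 1 ≤ g t :=
  Nat.mul_pos (mm_pos ht h) (G_pos ht)

/-- 80 (g t)² + 1 is a square. -/
theorem g_pell {t : ℕ} (h : ¬ 3 ∣ t) : ∃ H : ℕ, (H : ℤ) ^ 2 = DD 9 * (g t : ℤ) ^ 2 + 1 ∧
    (H : ℤ) ≤ X (2 * t) ^ 3 := by
  have h1 := mm_cast h
  have h2 := pell (2 * t)
  have h3 := Y_odd (show ¬ 3 ∣ 2 * t by omega)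
  have h4 := X_pos (2 * t)
  have h5 := Y_nonneg (2 * t)
  rw [show ((-1 : ℤ) ^ (2 * t)) = 1 by rw [pow_mul]; norm_num] at h2
  obtain ⟨a, ha⟩ := h3
  obtain ⟨c, hc⟩ : ∃ c : ℤ, 5 * Y (2 * t) ^ 2 + 1 = 2 * c := ⟨10 * a ^ 2 + 10 * a + 3, by
    rw [ha]; ring⟩
  have hc0 : 0 ≤ c := by nlinarith
  refine ⟨(X (2 * t) * c).toNat, ?_, ?_⟩
  · rw [Int.toNat_of_nonneg (mul_nonneg h4.le hc0)]
    have e1 : (g t : ℤ) = mm t * Y (2 * t) := by
      unfold g
      push_cast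
      rw [G_cast]
    rw [e1]
    simp only [DD]
    push_cast
    generalize Y (2 * t) = y at *
    generalize X (2 * t) = x at *
    have e2 : x ^ 2 = 5 * y ^ 2 + 4 := by linarith
    have e3 : 64 * ((mm t : ℤ)) ^ 2 = (5 * y ^ 2 + 3) ^ 2 := by rw [← h1]; ring
    have e4 : 4 * c ^ 2 = (5 * y ^ 2 + 1) ^ 2 := by rw [hc]; ring
    have e5 : 4 * ((x * c) ^ 2) = 4 * ((9 ^ 2 - 1) * ((mm t : ℤ) * y) ^ 2 + 1) := by
      calc 4 * ((x * c) ^ 2) = x ^ 2 * (4 * c ^ 2) := by ring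
        _ = (5 * y ^ 2 + 4) * (5 * y ^ 2 + 1) ^ 2 := by rw [e2, e4]
        _ = 5 * y ^ 2 * (5 * y ^ 2 + 3) ^ 2 + 4 := by ring
        _ = 5 * y ^ 2 * (64 * ((mm t : ℤ)) ^ 2) + 4 := by rw [e3]
        _ = _ := by ring
    linarith
  · rw [Int.toNat_of_nonneg (mul_nonneg h4.le hc0)]
    have h6 : c ≤ X (2 * t) ^ 2 := by nlinarith
    calc X (2 * t) * c ≤ X (2 * t) * X (2 * t) ^ 2 := mul_le_mul_of_nonneg_left h6 h4.le
      _ = _ := by ring

/-! ### Real embeddings -/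

theorem sr_pos : 0 < sr := Real.sqrt_pos.2 (by norm_num)

theorem sr_mul_self : sr * sr = 5 := Real.mul_self_sqrt (by norm_num)

theorem sr_lt : sr < 2.2361 := by
  have h1 := sr_pos
  have h2 := sr_mul_self
  nlinarith

theorem lt_sr : 2.236 < sr := by
  have h1 := sr_pos
  have h2 := sr_mul_self
  nlinarith

theorem sq_nine : MC.sq 9 = 4 * sr := by
  unfold MC.sq sr
  have h : ((9 : ℕ) : ℝ) ^ 2 - 1 = 4 ^ 2 * 5 := by norm_num
  rw [h, Real.sqrt_mul (by norm_num), Real.sqrt_sq (by norm_num)]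

theorem bb_eq (t : ℕ) : bb 9 (g t) = 4 * (mm t : ℝ) * (Y (2 * t) : ℝ) * sr := by
  unfold bb g
  have h : ((G t : ℤ) : ℝ) = ((Y (2 * t) : ℤ) : ℝ) := by rw [G_cast]
  push_cast at h ⊢
  rw [sq_nine, ← h]
  ring

theorem ph_mul (x y : R) : ph (x * y) = ph x * ph y := by
  have h := sr_mul_self
  unfold ph
  rw [re_mul, im_mul]
  push_cast
  linear_combination (-((x.im : ℝ) * y.im) / 4) * h

theorem ps_mul (x y : R) : ps (x * y) = ps x * ps y := by
  have h := sr_mul_self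
  unfold ps
  rw [re_mul, im_mul]
  push_cast
  linear_combination (-((x.im : ℝ) * y.im) / 4) * h

theorem ph_star (x : R) : ph (star x) = ps x := by
  unfold ph ps
  rw [re_star, im_star]
  push_cast
  ring

theorem ps_star (x : R) : ps (star x) = ph x := by
  unfold ph ps
  rw [re_star, im_star]
  push_cast
  ring

theorem ph_mul_ps (x : R) : ph x * ps x = (nm x : ℝ) := by
  have h := sr_mul_self
  unfold ph ps nm
  push_cast
  linear_combination (-((x.im : ℝ) ^ 2) / 4) * h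

/-- ph x - ps x = √5 im x -/
theorem ph_sub_ps (x : R) : ph x - ps x = sr * (x.im : ℝ) := by
  unfold ph ps
  ring

/-- ph x + ps x = tr x -/
theorem ph_add_ps (x : R) : ph x + ps x = (tr x : ℝ) := by
  unfold ph ps tr
  push_cast
  ring

theorem ph_one : ph 1 = 1 := by simp [ph, QuadraticAlgebra.re_one, QuadraticAlgebra.im_one]

theorem ps_one : ps 1 = 1 := by simp [ps, QuadraticAlgebra.re_one, QuadraticAlgebra.im_one]

theorem ph_pow (x : R) (n : ℕ) : ph (x ^ n) = ph x ^ n := by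
  induction n with
  | zero => simp [ph_one]
  | succ n ih => rw [pow_succ, ph_mul, ih, pow_succ]

theorem ps_pow (x : R) (n : ℕ) : ps (x ^ n) = ps x ^ n := by
  induction n with
  | zero => simp [ps_one]
  | succ n ih => rw [pow_succ, ps_mul, ih, pow_succ]

theorem ph_e : ph e = ep := by simp [ph, e, ep]

theorem ep_gt : 1.618 < ep := by
  have := lt_sr
  unfold ep
  linarith

theorem ep_pos : 0 < ep := by linarith [ep_gt]

theorem ep_lt : ep < 1.6181 := by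
  have := sr_lt
  unfold ep
  linarith

theorem ep_sq : ep ^ 2 = ep + 1 := by
  have h := sr_mul_self
  unfold ep
  linear_combination (1 / 4) * h

theorem ep_pow_pos (n : ℕ) : 0 < ep ^ n := pow_pos ep_pos n

theorem one_le_ep_pow (n : ℕ) : 1 ≤ ep ^ n := one_le_pow₀ (by linarith [ep_gt])

theorem ph_e_pow (n : ℕ) : ph (e ^ n) = ep ^ n := by
  rw [ph_pow, ph_e]

theorem ep_mul_ps : ps e * ep = -1 := by
  have h := sr_mul_self
  simp only [ps, e, ep]
  push_cast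
  linear_combination (-1 / 4) * h

theorem ps_e_pow (n : ℕ) : ps (e ^ n) * ep ^ n = (-1) ^ n := by
  rw [ps_pow, ← mul_pow, ep_mul_ps]

theorem abs_ps_e_pow (n : ℕ) : |ps (e ^ n)| * ep ^ n = 1 := by
  have h := congrArg abs (ps_e_pow n)
  rw [abs_mul, abs_of_pos (ep_pow_pos n)] at h
  rw [h]
  simp

theorem X_ph (n : ℕ) : (X n : ℝ) = ep ^ n + ps (e ^ n) := by
  rw [← ph_e_pow, ph_add_ps]
  rfl

theorem ps_e_pow_pos (n : ℕ) : 0 < ps (e ^ (2 * n)) := by
  have h2 := ps_e_pow (2 * n)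
  rw [show ((-1 : ℝ) ^ (2 * n)) = 1 by rw [pow_mul]; norm_num] at h2
  by_contra hc
  push Not at hc
  have := ep_pow_pos (2 * n)
  nlinarith

/-- ε ^ (2 n) ≤ (X n)² + 2. -/
theorem ep_le_X (n : ℕ) : ep ^ (2 * n) ≤ (X n : ℝ) ^ 2 + 2 := by
  have h1 := X_ph (2 * n)
  have h3 := ps_e_pow_pos n
  have h4 : (X (2 * n) : ℝ) = (X n : ℝ) ^ 2 - 2 * (-1) ^ n := by
    have := X_two_mul n
    exact_mod_cast this
  have h5 : (-1 : ℝ) ≤ (-1) ^ n := by
    rcases neg_one_pow_eq_or ℝ n with h | h <;> rw [h] <;> norm_num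
  linarith

/-- ε ^ (2 n) ≤ 5 (Y n)² + 2. -/
theorem ep_le_Y (n : ℕ) : ep ^ (2 * n) ≤ 5 * (Y n : ℝ) ^ 2 + 2 := by
  have h1 := X_ph (2 * n)
  have h3 := ps_e_pow_pos n
  have h4 : (X (2 * n) : ℝ) = 5 * (Y n : ℝ) ^ 2 + 2 * (-1) ^ n := by
    have := X_two_mul' n
    exact_mod_cast this
  have h5 : (-1 : ℝ) ^ n ≤ 1 := by
    rcases neg_one_pow_eq_or ℝ n with h | h <;> rw [h] <;> norm_num
  linarith

theorem sr_irr : Irrational sr := by
  have h := Nat.Prime.irrational_sqrt (show Nat.Prime 5 by norm_num)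
  unfold sr
  exact_mod_cast h

theorem ph_inj {x y : R} (h : ph x = ph y) : x = y := by
  have him : x.im = y.im := by
    by_contra hne
    have h1 : (x.im : ℝ) - y.im ≠ 0 := by
      intro h0
      apply hne
      have : (x.im : ℝ) = y.im := by linarith
      exact_mod_cast this
    have h2 : sr = (((2 * (y.re - x.re) - (x.im - y.im) : ℤ) : ℚ) / ((x.im - y.im : ℤ) : ℚ) : ℚ) := by
      push_cast
      rw [eq_div_iff h1]
      unfold ph at h
      linarith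
    exact sr_irr ⟨_, h2.symm⟩
  apply R_ext _ him
  unfold ph at h
  rw [him] at h
  have : (x.re : ℝ) = y.re := by linarith
  exact_mod_cast this

theorem ph_ne {x : R} (hx : x ≠ 0) : ph x ≠ 0 := by
  intro h
  apply hx
  apply ph_inj
  rw [h]
  simp [ph]

theorem ps_ne {x : R} (hx : x ≠ 0) : ps x ≠ 0 := by
  rw [← ph_star]
  apply ph_ne
  intro h
  apply hx
  rw [← star_star x, h, star_zero]

theorem one_le_nm {x : R} (hx : x ≠ 0) : 1 ≤ |(nm x : ℝ)| := by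
  have h1 : (nm x : ℝ) ≠ 0 := by
    rw [← ph_mul_ps]
    exact mul_ne_zero (ph_ne hx) (ps_ne hx)
  have h2 : nm x ≠ 0 := by exact_mod_cast h1
  have h3 : 1 ≤ |nm x| := Int.one_le_abs h2
  have h4 : ((1 : ℤ) : ℝ) ≤ ((|nm x| : ℤ) : ℝ) := by exact_mod_cast h3
  simpa using h4

end Pool.Agent.Helper65.KF
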