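import Pool.Agent.Helper65.KF.Defs

/-!
Project KF, module Gd: elementary arithmetic of Good t j (as in Helper65/KT/Gd.lean, with 12 instead of 5).
-/

namespace Pool.Agent.Helper65.KF

theorem Good.twelve_le {t j : ℕ} (h : Good t j) : 12 ≤ t := by
  obtain ⟨s, h1, h2, -⟩ := h
  omega

theorem Good.coprime {t j : ℕ} (h : Good t j) : Nat.Coprime j t := by
  obtain ⟨s, h1, h2, h3⟩ := h
  rw [← Nat.isCoprime_iff_coprime]
  rcases h3 with ⟨c, hc⟩ | ⟨c, hc⟩
  · exact ⟨s, -c, by linarith⟩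
  · exact ⟨-s, c, by linarith⟩

theorem Good.red {t j j' : ℕ} (h : Good t j) (hj' : j' = j % t ∨ j' = t - j % t) : Good t j' := by
  obtain ⟨s, h1, h2, h3⟩ := h
  have ht : 0 < t := by omega
  have hm : (j : ℤ) = (j % t : ℕ) + t * (j / t : ℕ) := by
    have := Nat.mod_add_div j t
    exact_mod_cast this.symm
  have hlt : j % t < t := Nat.mod_lt _ ht
  refine ⟨s, h1, h2, ?_⟩
  rcases hj' with rfl | rfl
  · rcases h3 with ⟨c, hc⟩ | ⟨c, hc⟩
    · left
      refine ⟨c - s * (j / t : ℕ), ?_⟩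
      rw [hm] at hc
      linarith
    · right
      refine ⟨c - s * (j / t : ℕ), ?_⟩
      rw [hm] at hc
      linarith
  · have hsub : ((t - j % t : ℕ) : ℤ) = t - (j % t : ℕ) := by
      rw [Nat.cast_sub hlt.le]
    rw [hsub]
    rcases h3 with ⟨c, hc⟩ | ⟨c, hc⟩
    · right
      refine ⟨s + s * (j / t : ℕ) - c, ?_⟩
      rw [hm] at hc
      linarith
    · left
      refine ⟨s + s * (j / t : ℕ) - c, ?_⟩
      rw [hm] at hc
      linarith

theorem Good.eleven_le {t j : ℕ} (h : Good t j) (hj : 2 ≤ j) : 11 ≤ j := by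
  obtain ⟨s, h1, h2, h3⟩ := h
  have h1' : (1 : ℤ) ≤ s := by exact_mod_cast h1
  have h2' : 12 * (s : ℤ) ≤ t := by exact_mod_cast h2
  have hj' : (2 : ℤ) ≤ j := by exact_mod_cast hj
  by_contra hcon
  have h4 : (j : ℤ) ≤ 10 := by omega
  rcases h3 with h3 | h3
  · have h5 := Int.le_of_dvd (by nlinarith) h3
    nlinarith
  · have h5 := Int.le_of_dvd (by nlinarith) h3
    nlinarith

theorem Good.mod {t j : ℕ} (h : Good t j) (hj : 2 ≤ j) (hjt : j < t) (hr : 2 ≤ t % j) :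
    Good (t % j) j := by
  obtain ⟨s, h1, h2, h3⟩ := h
  have hm : (t : ℤ) = (t % j : ℕ) + j * (t / j : ℕ) := by
    have := Nat.mod_add_div t j
    exact_mod_cast this.symm
  have hrj : t % j < j := Nat.mod_lt _ (by omega)
  obtain ⟨r, hrr⟩ : ∃ r : ℕ, r = t % j := ⟨_, rfl⟩
  obtain ⟨k, hk⟩ : ∃ k : ℕ, k = t / j := ⟨_, rfl⟩
  rw [← hrr] at hm hr hrj ⊢
  rw [← hk] at hm
  have h1' : (1 : ℤ) ≤ s := by exact_mod_cast h1
  have h2' : 12 * (s : ℤ) ≤ t := by exact_mod_cast h2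
  have hj' : (2 : ℤ) ≤ j := by exact_mod_cast hj
  have hr' : (2 : ℤ) ≤ r := by exact_mod_cast hr
  have hrj' : (r : ℤ) < j := by exact_mod_cast hrj
  have hjt' : (j : ℤ) < t := by exact_mod_cast hjt
  have hk1 : (0 : ℤ) ≤ k := by positivity
  -- general form
  have key : ∀ η c : ℤ, (η = 1 ∨ η = -1) → (s : ℤ) * j - η = t * c →
      ∃ s' : ℕ, 1 ≤ s' ∧ 12 * s' ≤ r ∧ (s' : ℤ) * j = r * c + η := by
    intro η c hη hc
    have hc1 : 1 ≤ c := by
      by_contra hcon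
      have : c ≤ 0 := by omega
      have h5 : (t : ℤ) * c ≤ 0 := mul_nonpos_of_nonneg_of_nonpos (by linarith) this
      rcases hη with rfl | rfl <;> nlinarith
    have hs' : ((s : ℤ) - c * k) * j = r * c + η := by
      rw [hm] at hc
      linarith
    have hpos : 0 < ((s : ℤ) - c * k) * j := by
      rw [hs']
      rcases hη with rfl | rfl <;> nlinarith
    have hs'pos : 0 < (s : ℤ) - c * k := by
      by_contra hcon
      have h5 : (s : ℤ) - c * k ≤ 0 := by omega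
      have h6 := mul_nonpos_of_nonpos_of_nonneg h5 (show (0 : ℤ) ≤ j by linarith)
      linarith
    obtain ⟨s', hs''⟩ : ∃ s' : ℕ, (s' : ℤ) = (s : ℤ) - c * k :=
      ⟨((s : ℤ) - c * k).toNat, Int.toNat_of_nonneg hs'pos.le⟩
    rw [← hs''] at hs' hs'pos
    refine ⟨s', by exact_mod_cast hs'pos, ?_, hs'⟩
    by_contra hcon
    have h6 : (r : ℤ) + 1 ≤ 12 * s' := by
      have : r + 1 ≤ 12 * s' := by omega
      exact_mod_cast this
    -- 5 c r + 5 η = 5 s' j ≥ (r + 1) j;  5 c t = 5 s j - 5 η ≤ t j - 5 η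
    have h7 : ((r : ℤ) + 1) * j ≤ 12 * (r * c + η) := by
      rw [← hs']
      nlinarith
    have h8 : 12 * (t * c) ≤ (t : ℤ) * j - 12 * η := by
      rw [← hc]
      nlinarith
    -- multiply: h7 * t, h8 * r
    have h9 : ((r : ℤ) + 1) * j * t ≤ 12 * (r * c + η) * t :=
      mul_le_mul_of_nonneg_right h7 (by linarith)
    have h10 : 12 * (t * c) * r ≤ ((t : ℤ) * j - 12 * η) * r :=
      mul_le_mul_of_nonneg_right h8 (by linarith)
    have h11 : (j : ℤ) * t ≤ 12 * η * t - 12 * η * r := by linarith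
    rcases hη with rfl | rfl
    · -- j t ≤ 5 t - 5 r, j ≥ 6
      have h12 : (13 : ℤ) ≤ j := by
        by_contra h13
        have h14 : (j : ℤ) ≤ 12 := by omega
        nlinarith
      nlinarith
    · nlinarith
  rcases h3 with ⟨c, hc⟩ | ⟨c, hc⟩
  · obtain ⟨s', e1, e2, e3⟩ := key 1 c (Or.inl rfl) hc
    exact ⟨s', e1, e2, Or.inl ⟨c, by linarith⟩⟩
  · obtain ⟨s', e1, e2, e3⟩ := key (-1) c (Or.inr rfl) (by linarith)
    exact ⟨s', e1, e2, Or.inr ⟨c, by linarith⟩⟩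

end Pool.Agent.Helper65.KF
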