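import Pool.Agent.Helper65.KF.Bd
import Pool.Agent.Helper65.KF.PB
import Pool.Agent.Helper65.KF.PA

/-!
Project KF, module ON: the last step r = 1 (sharp constants; adapt Helper65/KT/ON.lean).  t = 1 + k j, j ≥ 11, so
t - 1 ≥ 11.  n = |nm x|, E = ε^(2j).  From PB_point/PA_point with r = 1, X 1 = Y 1 = 1, |nm z| ≥ 1:
B: Y_j² X_t Y_t ≤ Y_j² n + 2 Y_(t-1) (q² X_t + u² Y_t); 2 Y_t = Y_(t-1) + X_(t-1) (two_Y_succ) and
X_(t-1) ≥ 2.23 Y_(t-1) (pell, Y_11 = 89), so 2 Y_(t-1) ≤ 1.24 Y_t ≤ 1.24 X_t, and the error is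
≤ 1.24 (q² X_t² + u² Y_t²) ≤ 1.24/5 n (E + 7) (sum_B), E + 7 ≤ 5 Y_j² + 9 (ep_le_Y), Y_j ≥ 89:
X_t Y_t ≤ n (1 + 1.24 (1 + 9/39605)) ≤ 9/4 n.
A, first case: error 2 Y_(t-1) (q² X_t + 5 u² Y_t) ≤ 1.24 (q² X_t² + 5 u² Y_t²) ≤ 1.24 n (E + 7) (sum_A),
E + 7 ≤ X_j² + 9 (ep_le_X), X_j ≥ 199.
A, second case: error 2 X_(t-1) (u² Y_t + q² X_t), 2 X_t = X_(t-1) + 5 Y_(t-1) (two_X_succ),
2 X_(t-1) ≤ 1.24 X_t (5 Y_(t-1) ≥ 2.23 X_(t-1)) and 2 X_(t-1) ≤ 6.2 Y_t: error ≤ 1.24 (q² X_t² + 5 u² Y_t²) again.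
-/

namespace Pool.Agent.Helper65.KF

open Pool.Agent.Helper20 Pool.Agent.Helper20.MC

private theorem ON_eleven : X 11 = 199 ∧ Y 11 = 89 := by
  constructor <;>
  · simp only [X, show (11 : ℕ) = 0 + 1 + 1 + 1 + 1 + 1 + 1 + 1 + 1 + 1 + 1 + 1 by rfl, Y_succ,
      W_succ, Y_zero, W_zero]
    norm_num

private theorem ON_big {s : ℕ} (hs : 11 ≤ s) : (89 : ℝ) ≤ Y s ∧ (199 : ℝ) ≤ X s := by
  constructor
  · have h := Y_mono hs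
    rw [ON_eleven.2] at h
    exact_mod_cast h
  · have h : X 11 ≤ X s := by
      rcases eq_or_lt_of_le hs with rfl | h
      · exact le_rfl
      · exact (X_lt (by norm_num) h).le
    rw [ON_eleven.1] at h
    exact_mod_cast h

private theorem ON_ratio {s : ℕ} (hs : 11 ≤ s) :
    223 * (Y s : ℝ) ≤ 100 * X s ∧ 223 * (X s : ℝ) ≤ 500 * Y s := by
  obtain ⟨h1, h2⟩ := ON_big hs
  have h3 : (X s : ℝ) ^ 2 - 5 * (Y s : ℝ) ^ 2 = 4 * (-1) ^ s := by exact_mod_cast pell s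
  have h4 : (-1 : ℝ) ≤ (-1) ^ s ∧ (-1 : ℝ) ^ s ≤ 1 := by
    rcases neg_one_pow_eq_or ℝ s with h | h <;> rw [h] <;> norm_num
  obtain ⟨h5, h6⟩ := h4
  have h8 : (7921 : ℝ) ≤ (Y s : ℝ) ^ 2 := by nlinarith
  constructor
  · by_contra hc
    push Not at hc
    have h7 : 0 < (223 * (Y s : ℝ) - 100 * X s) * (223 * Y s + 100 * X s) :=
      mul_pos (by linarith) (by linarith)
    have h9 : (223 * (Y s : ℝ) - 100 * X s) * (223 * Y s + 100 * X s) =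
      49729 * (Y s : ℝ) ^ 2 - 10000 * (X s : ℝ) ^ 2 := by ring
    rw [h9] at h7
    linarith
  · by_contra hc
    push Not at hc
    have h7 : 0 < (223 * (X s : ℝ) - 500 * Y s) * (223 * X s + 500 * Y s) :=
      mul_pos (by linarith) (by linarith)
    have h9 : (223 * (X s : ℝ) - 500 * Y s) * (223 * X s + 500 * Y s) =
      49729 * (X s : ℝ) ^ 2 - 250000 * (Y s : ℝ) ^ 2 := by ring
    rw [h9] at h7
    linarith

private theorem ON_fin {n M P W err : ℝ} (hW : 0 < W) (hM : 1 ≤ M) (hP : 0 ≤ P)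
    (h : W * (M * P) ≤ W * n + err) (herr : err ≤ 5 / 4 * (W * n)) : P ≤ 9 / 4 * n := by
  have h1 : W * (M * P) ≤ W * (9 / 4 * n) := by linarith
  have h2 : M * P ≤ 9 / 4 * n := le_of_mul_le_mul_left h1 hW
  have h3 : 1 * P ≤ M * P := mul_le_mul_of_nonneg_right hM hP
  linarith

/-- t = s + 1 and the sizes of X t, Y t against X s, Y s. -/
private theorem ON_step {t j k : ℕ} (hj : 11 ≤ j) (hk : 1 ≤ k) (ht : t = 1 + k * j) :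
    ∃ s, t - 1 = s ∧ (0 : ℝ) ≤ Y t ∧ (0 : ℝ) ≤ X t ∧
      2 * (Y s : ℝ) ≤ 31 / 25 * Y t ∧ 2 * (Y s : ℝ) ≤ 31 / 25 * X t ∧
      2 * (X s : ℝ) ≤ 31 / 25 * X t ∧ 2 * (X s : ℝ) ≤ 31 / 5 * Y t := by
  obtain ⟨s, hs, hs4⟩ : ∃ s, t = s + 1 ∧ 11 ≤ s := by
    refine ⟨k * j, by omega, ?_⟩
    calc 11 ≤ j := hj
      _ = 1 * j := (one_mul j).symm
      _ ≤ k * j := Nat.mul_le_mul_right j hk
  have e1 : 2 * (X t : ℝ) = X s + 5 * Y s := by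
    rw [hs]
    exact_mod_cast two_X_succ s
  have e2 : 2 * (Y t : ℝ) = X s + Y s := by
    rw [hs]
    exact_mod_cast two_Y_succ s
  obtain ⟨b1, b2⟩ := ON_big hs4
  obtain ⟨r1, r2⟩ := ON_ratio hs4
  refine ⟨s, by omega, by linarith, by linarith, by linarith, by linarith, by linarith,
    by linarith⟩

theorem oneB {t j k : ℕ} (hj : 11 ≤ j) (hk : 1 ≤ k)
    (ht : t = 1 + k * j) {x : R} (hx : x ≠ 0) (hL : LB t j x)
    (h1 : |ps x| ≤ |ph x|) (h2 : |ph x| ≤ ep ^ (2 * j) * |ps x|) :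
    (X t : ℝ) * Y t ≤ 9 / 4 * |(nm x : ℝ)| := by
  obtain ⟨z, u, q, hz, -, hu, hq, hin⟩ := PB_point (r := 1) le_rfl (by omega) ht hx hL
  rw [X_one, Y_one] at hin
  obtain ⟨s, hts, hYt0, hXt0, hYt, hXt, -, -⟩ := ON_step hj hk ht
  rw [hts] at hin
  obtain ⟨c1, c2⟩ := ON_big hj
  have hsum := sum_B (j := j) h1 h2
  have hE := ep_le_Y j
  have hM := one_le_nm hz
  have hn := one_le_nm hx
  have hinR : (Y j : ℝ) ^ 2 * (|(nm z : ℝ)| * (X t * Y t)) ≤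
      (Y j : ℝ) ^ 2 * |(nm x : ℝ)| +
        (2 * Y s * ((q : ℝ) ^ 2 * X t) + 2 * Y s * ((u : ℝ) ^ 2 * Y t)) := by
    have h3 : ((Y j ^ 2 * (|nm z| * (X t * Y t)) : ℤ) : ℝ) ≤
      ((Y j ^ 2 * (|nm x| * (1 * 1)) +
        2 * Y s * (q ^ 2 * 1 * X t + u ^ 2 * 1 * Y t) : ℤ) : ℝ) := by
      exact_mod_cast hin
    push_cast at h3
    linarith
  have hu' : (x.im : ℝ) = Y t * u := by exact_mod_cast hu
  have hq' : (B j x : ℝ) = X t * q := by exact_mod_cast hq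
  rw [hu', hq'] at hsum
  have g1 : 2 * (Y s : ℝ) * ((q : ℝ) ^ 2 * X t) ≤ 31 / 25 * (X t * q) ^ 2 := by
    have h3 := mul_le_mul_of_nonneg_right hXt (mul_nonneg (sq_nonneg (q : ℝ)) hXt0)
    linarith
  have g2 : 2 * (Y s : ℝ) * ((u : ℝ) ^ 2 * Y t) ≤ 31 / 25 * (Y t * u) ^ 2 := by
    have h3 := mul_le_mul_of_nonneg_right hYt (mul_nonneg (sq_nonneg (u : ℝ)) hYt0)
    linarith
  have hW : (7921 : ℝ) ≤ (Y j : ℝ) ^ 2 := by nlinarith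
  refine ON_fin (W := (Y j : ℝ) ^ 2) (M := |(nm z : ℝ)|) (by linarith) hM
    (mul_nonneg hXt0 hYt0) hinR ?_
  have h4 : |(nm x : ℝ)| * (ep ^ (2 * j) + 7) ≤ |(nm x : ℝ)| * (625 / 124 * (Y j : ℝ) ^ 2) :=
    mul_le_mul_of_nonneg_left (by linarith) (by linarith)
  have h5 : 0 ≤ |(nm x : ℝ)| * (Y j : ℝ) ^ 2 := mul_nonneg (by linarith) (by linarith)
  linarith

private theorem ON_A {j t : ℕ} {x : R} {u q : ℤ} {err : ℝ} (hj : 11 ≤ j)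
    (hn : 1 ≤ |(nm x : ℝ)|) (hu : x.im = Y t * u) (hq : A j x = X t * q)
    (h1 : |ps x| ≤ |ph x|) (h2 : |ph x| ≤ ep ^ (2 * j) * |ps x|)
    (herr : err ≤ 31 / 25 * ((X t * q) ^ 2 + 5 * (Y t * u) ^ 2)) :
    err ≤ 5 / 4 * ((X j : ℝ) ^ 2 * |(nm x : ℝ)|) := by
  obtain ⟨c1, c2⟩ := ON_big hj
  have hsum := sum_A (j := j) h1 h2
  have hE := ep_le_X j
  have hu' : (x.im : ℝ) = Y t * u := by exact_mod_cast hu
  have hq' : (A j x : ℝ) = X t * q := by exact_mod_cast hq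
  rw [hu', hq'] at hsum
  have hW : (39601 : ℝ) ≤ (X j : ℝ) ^ 2 := by nlinarith
  have h4 : |(nm x : ℝ)| * (ep ^ (2 * j) + 7) ≤
      |(nm x : ℝ)| * (125 / 124 * (X j : ℝ) ^ 2) :=
    mul_le_mul_of_nonneg_left (by linarith) (by linarith)
  have h5 : 0 ≤ |(nm x : ℝ)| * (X j : ℝ) ^ 2 := mul_nonneg (by linarith) (by linarith)
  linarith

theorem oneA {t j k : ℕ} (hj : 11 ≤ j) (hk : 1 ≤ k)
    (ht : t = 1 + k * j) {x : R} (hx : x ≠ 0) (hL : LA t j x)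
    (h1 : |ps x| ≤ |ph x|) (h2 : |ph x| ≤ ep ^ (2 * j) * |ps x|) :
    (X t : ℝ) * Y t ≤ 9 / 4 * |(nm x : ℝ)| := by
  obtain ⟨z, u, q, hz, -, hu, hq, hin⟩ := PA_point (r := 1) le_rfl (by omega) ht hx hL
  rw [X_one, Y_one] at hin
  obtain ⟨s, hts, hYt0, hXt0, hYt, hXt, hXX, hXY⟩ := ON_step hj hk ht
  rw [hts] at hin
  obtain ⟨c1, c2⟩ := ON_big hj
  have hM := one_le_nm hz
  have hn := one_le_nm hx
  have hW : (39601 : ℝ) ≤ (X j : ℝ) ^ 2 := by nlinarith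
  rcases hin with hin | hin
  · have hinR : (X j : ℝ) ^ 2 * (|(nm z : ℝ)| * (X t * Y t)) ≤
        (X j : ℝ) ^ 2 * |(nm x : ℝ)| +
          (2 * Y s * ((q : ℝ) ^ 2 * X t) + 2 * Y s * (5 * (u : ℝ) ^ 2 * Y t)) := by
      have h3 : ((X j ^ 2 * (|nm z| * (X t * Y t)) : ℤ) : ℝ) ≤
        ((X j ^ 2 * (|nm x| * (1 * 1)) +
          2 * Y s * (q ^ 2 * 1 * X t + 5 * u ^ 2 * 1 * Y t) : ℤ) : ℝ) := by
        exact_mod_cast hin
      push_cast at h3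
      linarith
    refine ON_fin (W := (X j : ℝ) ^ 2) (M := |(nm z : ℝ)|) (by linarith) hM
      (mul_nonneg hXt0 hYt0) hinR (ON_A hj hn hu hq h1 h2 ?_)
    have g1 : 2 * (Y s : ℝ) * ((q : ℝ) ^ 2 * X t) ≤ 31 / 25 * (X t * q) ^ 2 := by
      have h3 := mul_le_mul_of_nonneg_right hXt (mul_nonneg (sq_nonneg (q : ℝ)) hXt0)
      linarith
    have g2 : 2 * (Y s : ℝ) * (5 * (u : ℝ) ^ 2 * Y t) ≤ 31 / 25 * (5 * (Y t * u) ^ 2) := by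
      have h3 := mul_le_mul_of_nonneg_right hYt (mul_nonneg (sq_nonneg (u : ℝ)) hYt0)
      linarith
    linarith
  · have hinR : (X j : ℝ) ^ 2 * (|(nm z : ℝ)| * (X t * Y t)) ≤
        (X j : ℝ) ^ 2 * |(nm x : ℝ)| +
          (2 * X s * ((u : ℝ) ^ 2 * Y t) + 2 * X s * ((q : ℝ) ^ 2 * X t)) := by
      have h3 : ((X j ^ 2 * (|nm z| * (X t * Y t)) : ℤ) : ℝ) ≤
        ((X j ^ 2 * (|nm x| * (1 * 1)) +
          2 * X s * (u ^ 2 * 1 * Y t + q ^ 2 * X t * 1) : ℤ) : ℝ) := by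
        exact_mod_cast hin
      push_cast at h3
      linarith
    refine ON_fin (W := (X j : ℝ) ^ 2) (M := |(nm z : ℝ)|) (by linarith) hM
      (mul_nonneg hXt0 hYt0) hinR (ON_A hj hn hu hq h1 h2 ?_)
    have g1 : 2 * (X s : ℝ) * ((q : ℝ) ^ 2 * X t) ≤ 31 / 25 * (X t * q) ^ 2 := by
      have h3 := mul_le_mul_of_nonneg_right hXX (mul_nonneg (sq_nonneg (q : ℝ)) hXt0)
      linarith
    have g2 : 2 * (X s : ℝ) * ((u : ℝ) ^ 2 * Y t) ≤ 31 / 25 * (5 * (Y t * u) ^ 2) := by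
      have h3 := mul_le_mul_of_nonneg_right hXY (mul_nonneg (sq_nonneg (u : ℝ)) hYt0)
      linarith
    linarith

end Pool.Agent.Helper65.KF
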