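import Pool.Agent.Helper65.KF.DE
import Pool.Agent.Helper65.KF.ON
import Pool.Agent.Helper65.KF.Rd
import Pool.Agent.Helper65.KF.Gd

/-!
Project KF, module MN: the minimal norm (adapt Helper65/KT/MN.lean).
K t = 9/4 (1 + 1/100 (1 - 4096 / 2^t)).  Strong induction on t: X_t Y_t ≤ K t |nm x| for all j, x with
Good t j.  reduce (Good.twelve_le, Good.coprime), Good.red.  j' = 1: direct.  j' ≥ 2: Good.eleven_le,
r = t % j' ≥ 1 (coprime).  r = 1: oneB, oneA.  r ≥ 2: Good.mod, r ≥ 12, descB, descA, the induction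
hypothesis for r, and K r (1 + 100 / (103684/4096 2^r)) ≤ K (r + 1) ≤ K t (with w = 4096 / 2^r ≤ 1:
(1 + (1 - w)/100) (1 + 100 w / 103684) ≤ 1 + (1 - w/2)/100).  K t ≤ 909/400.
-/

namespace Pool.Agent.Helper65.KF

open Pool.Agent.Helper20 Pool.Agent.Helper20.MC

/-- the constants of the induction -/
noncomputable def MN_K (t : ℕ) : ℝ := 9 / 4 * (1 + 1 / 100 * (1 - 4096 / 2 ^ t))

theorem MN_w_pos (t : ℕ) : (0 : ℝ) < 4096 / 2 ^ t := by positivity

theorem MN_w_anti {s t : ℕ} (h : s ≤ t) : (4096 : ℝ) / 2 ^ t ≤ 4096 / 2 ^ s := by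
  have h1 : (2 : ℝ) ^ s ≤ 2 ^ t := pow_le_pow_right₀ (by norm_num) h
  exact div_le_div_of_nonneg_left (by norm_num) (by positivity) h1

theorem MN_w_le {t : ℕ} (h : 12 ≤ t) : (4096 : ℝ) / 2 ^ t ≤ 1 := by
  have h1 := MN_w_anti h
  norm_num at h1 ⊢
  exact h1

theorem MN_K_mono {s t : ℕ} (h : s ≤ t) : MN_K s ≤ MN_K t := by
  have h1 := MN_w_anti h
  unfold MN_K
  linarith

theorem MN_K_ge {t : ℕ} (h : 12 ≤ t) : 9 / 4 ≤ MN_K t := by
  have h1 := MN_w_le h
  unfold MN_K
  linarith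

theorem MN_K_le (t : ℕ) : MN_K t ≤ 909 / 400 := by
  have h1 := MN_w_pos t
  unfold MN_K
  linarith

theorem MN_K_step {r : ℕ} (h : 12 ≤ r) :
    MN_K r * (1 + 100 / (103684 / 4096 * 2 ^ r)) ≤ MN_K (r + 1) := by
  have h1 := MN_w_pos r
  have h2 := MN_w_le h
  have h3 : (4096 : ℝ) / 2 ^ (r + 1) = 4096 / 2 ^ r / 2 := by
    rw [pow_succ]
    field_simp
  have h4 : (100 : ℝ) / (103684 / 4096 * 2 ^ r) = 100 / 103684 * (4096 / 2 ^ r) := by
    field_simp
  unfold MN_K
  rw [h3, h4]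
  generalize (4096 : ℝ) / 2 ^ r = w at *
  nlinarith [mul_nonneg h1.le (sub_nonneg.2 h2)]

theorem MN_main : ∀ (t j : ℕ) (x : R), Good t j → x ≠ 0 → (LB t j x ∨ LA t j x) →
    (X t : ℝ) * Y t ≤ MN_K t * |(nm x : ℝ)| := by
  intro t
  induction t using Nat.strong_induction_on with
  | _ t ih =>
  intro j x hg hx hL
  have h5 := hg.twelve_le
  obtain ⟨j', x', hj1, hjt, hjj, hx', hN, hL', hlo, hup⟩ := reduce (by omega) hg.coprime hx hL
  have hg' := hg.red hjj
  have hNR : |(nm x' : ℝ)| = |(nm x : ℝ)| := by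
    exact_mod_cast congrArg (fun z : ℤ => (z : ℝ)) hN
  rw [← hNR]
  have hn0 := one_le_nm hx'
  have hKt := MN_K_ge h5
  have hfin : (X t : ℝ) * Y t ≤ 9 / 4 * |(nm x' : ℝ)| →
      (X t : ℝ) * Y t ≤ MN_K t * |(nm x' : ℝ)| := fun h =>
    h.trans (mul_le_mul_of_nonneg_right hKt (abs_nonneg _))
  rcases Nat.lt_or_ge j' 2 with hj2 | hj2
  · have hj : j' = 1 := by omega
    subst hj
    exact hfin (direct h5 hx' hL' hlo hup)
  · have hj4 := hg'.eleven_le hj2
    have htk : t = t % j' + t / j' * j' := by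
      rw [mul_comm]
      exact (Nat.mod_add_div t j').symm
    have hr2 : t % j' < j' := Nat.mod_lt _ (by omega)
    have hrc : Nat.Coprime j' (t % j') := by
      have hjc := hg'.coprime
      unfold Nat.Coprime at hjc ⊢
      rw [Nat.gcd_comm, ← Nat.gcd_rec j' t]
      exact hjc
    have hr1 : 1 ≤ t % j' := by
      by_contra h
      have h0 : t % j' = 0 := by omega
      rw [h0, Nat.coprime_zero_right] at hrc
      omega
    have hk : 1 ≤ t / j' := (Nat.one_le_div_iff (by omega)).2 hjt.le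
    rcases Nat.lt_or_ge (t % j') 2 with hrr | hrr
    · have hr : t % j' = 1 := by omega
      rw [hr] at htk
      rcases hL' with h | h
      · exact hfin (oneB hj4 hk htk hx' h hlo hup)
      · exact hfin (oneA hj4 hk htk hx' h hlo hup)
    · have hgr := hg'.mod hj2 hjt hrr
      have hr5 := hgr.twelve_le
      obtain ⟨z, hz, hzL, hzN⟩ : ∃ z : R, z ≠ 0 ∧ (LB (t % j') j' z ∨ LA (t % j') j' z) ∧
          |(nm z : ℝ)| * ((X t : ℝ) * Y t) ≤
            |(nm x' : ℝ)| * ((X (t % j') : ℝ) * Y (t % j')) *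
              (1 + 100 / (103684 / 4096 * 2 ^ (t % j'))) := by
        rcases hL' with h | h
        · obtain ⟨z, h1, h3, h4⟩ := descB hr5 hr2 hk htk hx' h hlo hup
          exact ⟨z, h1, Or.inl h3, h4⟩
        · obtain ⟨z, h1, h3, h4⟩ := descA hr5 hr2 hk htk hx' h hlo hup
          exact ⟨z, h1, Or.inr h3, h4⟩
      have hIH := ih (t % j') (by omega) j' z hgr hz hzL
      have hzn := one_le_nm hz
      have hP1 : MN_K (t % j') * (1 + 100 / (103684 / 4096 * 2 ^ (t % j'))) ≤ MN_K t :=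
        (MN_K_step hr5).trans (MN_K_mono (by omega))
      have hq : (0 : ℝ) ≤ 1 + 100 / (103684 / 4096 * 2 ^ (t % j')) := by positivity
      have hz0 : 0 < |(nm z : ℝ)| := by linarith
      generalize |(nm z : ℝ)| = nz at *
      generalize |(nm x' : ℝ)| = nx at *
      generalize (X t : ℝ) * Y t = U at *
      generalize (X (t % j') : ℝ) * Y (t % j') = V at *
      generalize (1 + 100 / (103684 / 4096 * (2 : ℝ) ^ (t % j'))) = q at *
      generalize MN_K (t % j') = p at *
      generalize MN_K t = p' at *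
      have h1 : nz * U ≤ nx * (p * nz) * q := by
        refine hzN.trans ?_
        apply mul_le_mul_of_nonneg_right _ hq
        exact mul_le_mul_of_nonneg_left hIH (by linarith)
      have h3 : nz * U ≤ nz * (p' * nx) := by
        refine h1.trans ?_
        have h4 : nx * (p * nz) * q = (nz * nx) * (p * q) := by ring
        have h6 : nz * (p' * nx) = (nz * nx) * p' := by ring
        rw [h4, h6]
        apply mul_le_mul_of_nonneg_left hP1
        have : (0 : ℝ) ≤ nx := by linarith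
        positivity
      exact le_of_mul_le_mul_left h3 hz0

theorem min_norm {t j : ℕ} (h : Good t j) {x : R} (hx : x ≠ 0) (hL : LB t j x ∨ LA t j x) :
    (X t : ℝ) * Y t ≤ 909 / 400 * |(nm x : ℝ)| :=
  (MN_main t j x h hx hL).trans (mul_le_mul_of_nonneg_right (MN_K_le t) (abs_nonneg _))

end Pool.Agent.Helper65.KF
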