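import Pool.Agent.Helper65.KF.Defs
import Pool.Agent.Helper20.MC.CF1

/-!
Project KF, module Rl: following the continued fraction inside the lattice.
-/

namespace Pool.Agent.Helper65.KF

open Pool.Agent.Helper20 Pool.Agent.Helper20.MC

private theorem Rl_tr (x y : R) : tr (x * star y) =
    2 * (x.re * y.re) + x.re * y.im + y.re * x.im - 2 * (x.im * y.im) := by
  unfold tr
  rw [re_mul, im_mul, re_star, im_star]
  ring

private theorem Rl_im (x y : R) : (x * star y).im = x.im * y.re - x.re * y.im := by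
  rw [im_mul, re_star, im_star]
  ring

private theorem Rl_sub_re (y1 y2 : R) (m : ℤ) : (y2 - (m : R) * y1).re = y2.re - m * y1.re := by
  rw [QuadraticAlgebra.re_sub, re_mul, re_int, im_int]
  ring

private theorem Rl_sub_im (y1 y2 : R) (m : ℤ) : (y2 - (m : R) * y1).im = y2.im - m * y1.im := by
  rw [QuadraticAlgebra.im_sub, im_mul, re_int, im_int]
  ring

private theorem Rl_LB {t j : ℕ} {y1 y2 : R} (h1 : LB t j y1) (h2 : LB t j y2)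
    (m : ℤ) : LB t j (y2 - (m : R) * y1) := by
  obtain ⟨a1, b1⟩ := h1
  obtain ⟨a2, b2⟩ := h2
  refine ⟨?_, ?_⟩
  · rw [Rl_sub_im]
    exact dvd_sub a2 (Dvd.dvd.mul_left a1 m)
  · rw [B_eq] at b1 b2 ⊢
    rw [Rl_sub_im, Rl_sub_re]
    have e3 : W j * (y2.im - m * y1.im) - Y j * (y2.re - m * y1.re) =
        (W j * y2.im - Y j * y2.re) - m * (W j * y1.im - Y j * y1.re) := by ring
    rw [e3]
    exact dvd_sub b2 (Dvd.dvd.mul_left b1 m)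

private theorem Rl_G (t : ℕ) : DD 9 * (g t : ℤ) ^ 2 = 80 * ((mm t : ℤ) * Y (2 * t)) ^ 2 := by
  have e1 : (g t : ℤ) = mm t * Y (2 * t) := by
    unfold g
    push_cast
    rw [G_cast]
  rw [e1]
  simp only [DD]
  push_cast
  ring

theorem Rel.next {t j : ℕ} (ht : 1 ≤ t) (h3 : ¬ 3 ∣ t) {p : ℤ × ℤ} {σ : ℤ} {y1 y2 : R}
    (hp : p ∈ Red 9 (g t)) (h : Rel t j p σ y1 y2) :
    Rel t j (nx 9 (g t) p) (-σ) (y2 - ((⌊xv 9 (g t) p⌋ : ℤ) : R) * y1) y1 := by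
  obtain ⟨hσ, c1, c2, c3, hL1, hL2, hs⟩ := h
  have hQpos : 0 < p.2 := hp.1
  have n1 : (nx 9 (g t) p).1 = ⌊xv 9 (g t) p⌋ * p.2 - p.1 := rfl
  have n2 : (nx 9 (g t) p).2 =
    (DD 9 * (g t : ℤ) ^ 2 - (⌊xv 9 (g t) p⌋ * p.2 - p.1) ^ 2) / p.2 := rfl
  generalize ⌊xv 9 (g t) p⌋ = m at n1 n2 ⊢
  rw [Rl_tr] at c2
  rw [Rl_im] at c3
  unfold nm at c1
  refine ⟨?_, ?_, ?_, ?_, Rl_LB hL1 hL2 m, hL1, ?_⟩
  · rcases hσ with rfl | rfl
    · exact Or.inr rfl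
    · exact Or.inl (by norm_num)
  · rw [n2]
    apply Int.ediv_eq_of_eq_mul_right hQpos.ne'
    unfold nm
    rw [Rl_G, c3, Rl_sub_re, Rl_sub_im]
    rw [c1, c2]
    ring
  · rw [n1, Rl_tr, Rl_sub_re, Rl_sub_im, c1, c2]
    ring
  · rw [Rl_im, Rl_sub_re, Rl_sub_im, c3]
    ring
  · intro x hx
    obtain ⟨u, v, huv⟩ := hs x hx
    refine ⟨v, u + v * m, ?_⟩
    rw [huv]
    push_cast
    ring

theorem Rel.ph_eq {t j : ℕ} (ht : 1 ≤ t) (h3 : ¬ 3 ∣ t) {p : ℤ × ℤ} {σ : ℤ} {y1 y2 : R}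
    (hp : p ∈ Red 9 (g t)) (h : Rel t j p σ y1 y2) :
    y1 ≠ 0 ∧ ph y2 = xv 9 (g t) p * ph y1 := by
  obtain ⟨hσ, c1, c2, c3, hL1, hL2, hs⟩ := h
  have hQpos : 0 < p.2 := hp.1
  have hQr : (0:ℝ) < (p.2 : ℝ) := by exact_mod_cast hQpos
  refine ⟨?_, ?_⟩
  · rintro rfl
    have : nm 0 = 0 := by simp [nm]
    rw [this, mul_zero] at c1
    omega
  · have h1 : (p.1 : ℝ) = 4 * σ * mm t * (tr (y2 * star y1) : ℝ) := by
      rw [c2]
      push_cast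
      ring
    have h2 : (Y (2 * t) : ℝ) = σ * ((y2 * star y1).im : ℝ) := by
      exact_mod_cast c3
    have h5 := ph_mul_ps y1
    have h6 : (p.2 : ℝ) = 8 * σ * mm t * (nm y1 : ℝ) := by
      rw [c1]
      push_cast
      ring
    have h7 := ph_add_ps (y2 * star y1)
    have h8 := ph_sub_ps (y2 * star y1)
    have h9 : ph (y2 * star y1) = ph y2 * ps y1 := by rw [ph_mul, ph_star]
    have h10 : (p.1 : ℝ) + bb 9 (g t) = 8 * σ * mm t * (ph y2 * ps y1) := by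
      rw [h1, bb_eq, h2, ← h7, ← h9]
      linear_combination (-(4 * (σ : ℝ) * mm t)) * h8
    unfold xv
    rw [h10, div_mul_eq_mul_div, eq_div_iff hQr.ne', h6, ← h5]
    ring

theorem Rel.bound {t j : ℕ} (ht : 1 ≤ t) (h3 : ¬ 3 ∣ t) {p : ℤ × ℤ} {σ : ℤ} {y1 y2 : R}
    (hp : p ∈ Red 9 (g t)) (h : Rel t j p σ y1 y2)
    (h1 : (X t : ℝ) * Y t ≤ 909 / 400 * |(nm y1 : ℝ)|)
    (h2 : (X t : ℝ) * Y t ≤ 909 / 400 * |(nm y2 : ℝ)|) :
    xv 9 (g t) p < 5 := by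
  obtain ⟨hσ, hQ, hP, hY, hL1, hL2, hs⟩ := h
  obtain ⟨q1, -, q2, q3, q4⟩ := hp
  have hQr : (0:ℝ) < (p.2 : ℝ) := by exact_mod_cast q1
  have hXr : (0:ℝ) < X t := by exact_mod_cast X_pos t
  have hYr : (0:ℝ) < Y t := by exact_mod_cast Y_pos ht
  have hf : 0 < (X t : ℝ) * Y t := mul_pos hXr hYr
  have hm : (0:ℝ) < mm t := by exact_mod_cast mm_pos ht h3
  have h6 : (p.2 : ℝ) = 8 * σ * mm t * (nm y1 : ℝ) := by
    rw [hQ]
    push_cast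
    ring
  have h7 : (p.2 : ℝ) = mm t * (8 * |(nm y1 : ℝ)|) := by
    rw [← abs_of_pos hQr, h6, abs_mul, abs_mul, abs_mul, abs_of_pos hm]
    rcases hσ with rfl | rfl <;> norm_num <;> ring
  have h8 : bb 9 (g t) = mm t * (4 * ((X t : ℝ) * Y t) * sr) := by
    rw [bb_eq, Y_two_mul]
    push_cast
    ring
  -- the trace
  have hP0 : (0:ℝ) < p.1 := by linarith
  have h9 : ∃ T : ℝ, 0 < T ∧ (p.1 : ℝ) = mm t * (4 * T) ∧
      T ^ 2 - 5 * ((X t : ℝ) * Y t) ^ 2 = 4 * ((nm y1 : ℝ) * (nm y2 : ℝ)) := by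
    refine ⟨σ * (tr (y2 * star y1) : ℝ), ?_, ?_, ?_⟩
    · have e1 : (p.1 : ℝ) = mm t * (4 * (σ * (tr (y2 * star y1) : ℝ))) := by
        rw [hP]
        push_cast
        ring
      rw [e1] at hP0
      have := (mul_pos_iff_of_pos_left hm).1 hP0
      linarith
    · rw [hP]
      push_cast
      ring
    · have e1 := four_nm (y2 * star y1)
      rw [nm_mul, nm_star] at e1
      have e2 : (σ : ℝ) * σ = 1 := by
        rcases hσ with rfl | rfl <;> norm_num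
      have e3 : (4 : ℝ) * ((nm y2 : ℝ) * (nm y1 : ℝ)) =
          (tr (y2 * star y1) : ℝ) ^ 2 - 5 * ((y2 * star y1).im : ℝ) ^ 2 := by exact_mod_cast e1
      have e4 : (X t : ℝ) * Y t = σ * ((y2 * star y1).im : ℝ) := by
        have e5 : (Y (2 * t) : ℝ) = σ * ((y2 * star y1).im : ℝ) := by exact_mod_cast hY
        rw [← e5, Y_two_mul]
        push_cast
        ring
      rw [e4]
      linear_combination ((tr (y2 * star y1) : ℝ) ^ 2 - 5 * ((y2 * star y1).im : ℝ) ^ 2) * e2 - e3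
  obtain ⟨T, hT0, hT, h9⟩ := h9
  have hTb : T < (X t : ℝ) * Y t * sr := by
    have e1 : (p.1 : ℝ) < bb 9 (g t) := by linarith
    rw [hT, h8] at e1
    have := (mul_lt_mul_iff_right₀ hm).1 e1
    linarith
  set f : ℝ := (X t : ℝ) * Y t with hfd
  have hs1 := sr_lt
  have hs2 := sr_mul_self
  have hs0 := sr_pos
  have h10 : 5 * f ^ 2 - T ^ 2 = 4 * (|(nm y1 : ℝ)| * |(nm y2 : ℝ)|) := by
    have e1 : 0 ≤ 5 * f ^ 2 - T ^ 2 := by
      have e2 : T * T ≤ (f * sr) * (f * sr) := mul_le_mul hTb.le hTb.le hT0.le (by positivity)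
      have e3 : (f * sr) * (f * sr) = 5 * f ^ 2 := by
        linear_combination (f ^ 2) * hs2
      nlinarith
    rw [← abs_mul, ← abs_of_nonneg e1,
      show 5 * f ^ 2 - T ^ 2 = -(4 * ((nm y1 : ℝ) * (nm y2 : ℝ))) by linarith,
      abs_neg, abs_mul]
    norm_num
  by_contra hc
  push Not at hc
  unfold xv at hc
  rw [le_div_iff₀ hQr, h7, hT, h8] at hc
  set n1 : ℝ := |(nm y1 : ℝ)| with hn1
  set n2 : ℝ := |(nm y2 : ℝ)| with hn2
  have h11 : 5 * (8 * n1) ≤ 4 * T + 4 * f * sr := by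
    have e1 : (mm t : ℝ) * (5 * (8 * n1)) ≤ mm t * (4 * T + 4 * f * sr) := by linarith
    exact le_of_mul_le_mul_left e1 hm
  have h12 : f * sr ≤ 2.2361 * f := by nlinarith
  have h13 : 2.16 * f ≤ T := by linarith
  have h14 : (400 / 909 * f) * (400 / 909 * f) ≤ n1 * n2 :=
    mul_le_mul (by linarith) (by linarith) (by positivity) (by positivity)
  have h15 : (2.16 * f) * (2.16 * f) ≤ T * T :=
    mul_le_mul h13 h13 (by positivity) hT0.le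
  have h16 : 0 < f * f := mul_pos hf hf
  nlinarith

private theorem Rl_iter {t j : ℕ} (ht : 1 ≤ t) (h3 : ¬ 3 ∣ t) {p : ℤ × ℤ} {σ : ℤ}
    {y1 y2 : R} (hp : p ∈ Red 9 (g t)) (h : Rel t j p σ y1 y2) (n : ℕ) :
    (nx 9 (g t))^[n] p ∈ Red 9 (g t) ∧
    ∃ (σ' : ℤ) (z1 z2 : R), Rel t j ((nx 9 (g t))^[n] p) σ' z1 z2 ∧
      |ph z1| ≤ |ph y1| ∧
      (1 ≤ n → |ph z1| < |ph y1|) ∧
      ∀ M : ℝ, 1 ≤ M → (∀ i : ℕ, xv 9 (g t) ((nx 9 (g t))^[i] p) ≤ M) →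
        |ph y1| ≤ M ^ n * |ph z1| := by
  induction n with
  | zero =>
    exact ⟨hp, σ, y1, y2, h, le_rfl, fun h => absurd h (by omega), fun M _ _ => by simp⟩
  | succ n ih =>
    obtain ⟨hr, σ', z1, z2, hR, hle, -, hM⟩ := ih
    have hg := g_pos ht h3
    rw [Function.iterate_succ_apply']
    have hr' : nx 9 (g t) ((nx 9 (g t))^[n] p) ∈ Red 9 (g t) := nx_mem (by norm_num) hg hr
    have hR' := hR.next ht h3 hr
    obtain ⟨hne, hph⟩ := hR'.ph_eq ht h3 hr'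
    have h1 := one_lt_xv hr'
    have h2 : 0 < |ph (z2 - ((⌊xv 9 (g t) ((nx 9 (g t))^[n] p)⌋ : ℤ) : R) * z1)| :=
      abs_pos.2 (ph_ne hne)
    have h3 : |ph z1| = xv 9 (g t) (nx 9 (g t) ((nx 9 (g t))^[n] p)) *
        |ph (z2 - ((⌊xv 9 (g t) ((nx 9 (g t))^[n] p)⌋ : ℤ) : R) * z1)| := by
      rw [hph, abs_mul, abs_of_pos (by linarith)]
    have h4 : |ph (z2 - ((⌊xv 9 (g t) ((nx 9 (g t))^[n] p)⌋ : ℤ) : R) * z1)| <
        |ph z1| := by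
      rw [h3]
      nlinarith
    refine ⟨hr', -σ', _, z1, hR', (h4.trans_le hle).le, fun _ => h4.trans_le hle, ?_⟩
    intro M hM1 hx
    have h5 := hM M hM1 hx
    have h6 := hx (n + 1)
    rw [Function.iterate_succ_apply'] at h6
    have h7 : |ph z1| ≤
        M * |ph (z2 - ((⌊xv 9 (g t) ((nx 9 (g t))^[n] p)⌋ : ℤ) : R) * z1)| := by
      rw [h3]
      exact mul_le_mul_of_nonneg_right h6 h2.le
    have h8 : (0:ℝ) ≤ M ^ n := pow_nonneg (by linarith) n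
    calc |ph y1| ≤ M ^ n * |ph z1| := h5
      _ ≤ M ^ n * (M * |ph (z2 -
          ((⌊xv 9 (g t) ((nx 9 (g t))^[n] p)⌋ : ℤ) : R) * z1)|) :=
        mul_le_mul_of_nonneg_left h7 h8
      _ = _ := by rw [pow_succ]; ring

theorem Rel.iter {t j : ℕ} (ht : 1 ≤ t) (h3 : ¬ 3 ∣ t) {p : ℤ × ℤ} {σ : ℤ} {y1 y2 : R}
    (hp : p ∈ Red 9 (g t)) (h : Rel t j p σ y1 y2) (n : ℕ) :
    (nx 9 (g t))^[n] p ∈ Red 9 (g t) ∧
    ∃ (σ' : ℤ) (z1 z2 : R), Rel t j ((nx 9 (g t))^[n] p) σ' z1 z2 ∧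
      (1 ≤ n → |ph z1| < |ph y1|) ∧
      ∀ M : ℝ, 1 ≤ M → (∀ i : ℕ, xv 9 (g t) ((nx 9 (g t))^[i] p) ≤ M) →
        |ph y1| ≤ M ^ n * |ph z1| := by
  obtain ⟨h1, σ', z1, z2, h2, -, h3, h4⟩ := Rl_iter ht h3 hp h n
  exact ⟨h1, σ', z1, z2, h2, h3, h4⟩

end Pool.Agent.Helper65.KF
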